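import Pool.Agent.R946.AP.Logs

/-!
# Arcs from a zero to a branch point
-/

set_option autoImplicit false

open Filter Set MeasureTheory
open scoped Topology

noncomputable section

namespace Pool.Agent.R946.AP

open Complex (I)

lemma isZero_zero (Y : ℂ) : IsZero (Pt.affine 0 Y) := rfl

lemma contDiff_one_of {F F' : ℝ → ℂ} (h : ∀ t, HasDerivAt F (F' t) t) (hc : Continuous F') :
    ContDiff ℝ 1 F := by
  rw [contDiff_one_iff_deriv]
  refine ⟨fun t => (h t).differentiableAt, ?_⟩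
  have : deriv F = F' := funext fun t => (h t).deriv
  rw [this]
  exact hc

/-- fourth roots along a path -/
lemma exists_root {H : ℝ → ℂ} (hH : ContDiff ℝ 1 H) (hne : ∀ t ∈ Icc (0 : ℝ) 1, H t ≠ 0) {E₀ : ℂ}
    (h0 : E₀ ^ 4 = H 0) : ∃ E : ℝ → ℂ, ContDiff ℝ 1 E ∧ E 0 = E₀ ∧ (∀ t, E t ≠ 0) ∧
      ∀ t ∈ Icc (0 : ℝ) 1, E t ^ 4 = H t := by
  have hHd : ∀ t, HasDerivAt H (deriv H t) t := fun t =>
    (hH.differentiable one_ne_zero t).hasDerivAt
  have hHc : Continuous H := hH.continuous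
  have hH' : Continuous (deriv H) := hH.continuous_deriv le_rfl
  have hcl : Continuous fun t : ℝ => max 0 (min t 1) := by fun_prop
  have hclm : ∀ t : ℝ, max 0 (min t 1) ∈ Icc (0 : ℝ) 1 := fun t =>
    ⟨le_max_left _ _, max_le zero_le_one (min_le_right _ _)⟩
  have hcle : ∀ t ∈ Icc (0 : ℝ) 1, max 0 (min t 1) = t := fun t ht => by
    rw [min_eq_left ht.2, max_eq_right ht.1]
  set W : ℝ → ℂ := fun t => deriv H t / (4 * H t) with hW
  have hWc : ContinuousOn W (Icc 0 1) :=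
    ContinuousOn.div (by fun_prop) (by fun_prop) fun t ht => mul_ne_zero (by norm_num : (4 : ℂ) ≠ 0) (hne t ht)
  set w : ℝ → ℂ := fun t => W (max 0 (min t 1)) with hw
  have hwc : Continuous w := hWc.comp_continuous hcl hclm
  have hwe : ∀ t ∈ Icc (0 : ℝ) 1, w t * (4 * H t) = deriv H t := by
    intro t ht
    show W (max 0 (min t 1)) * _ = _
    rw [hcle t ht]
    exact div_mul_cancel₀ _ (mul_ne_zero (by norm_num : (4 : ℂ) ≠ 0) (hne t ht))
  set S : ℝ → ℂ := fun t => ∫ y in (0 : ℝ)..t, w y with hS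
  have hSd : ∀ t, HasDerivAt S (w t) t := fun t =>
    intervalIntegral.integral_hasDerivAt_right (hwc.intervalIntegrable _ _)
      (hwc.stronglyMeasurableAtFilter _ _) hwc.continuousAt
  have hSc : Continuous S := continuous_iff_continuousAt.2 fun t => (hSd t).continuousAt
  have hS0 : S 0 = 0 := intervalIntegral.integral_same
  have h00 : (0 : ℝ) ∈ Icc (0 : ℝ) 1 := left_mem_Icc.2 zero_le_one
  have hE0 : E₀ ≠ 0 := by
    intro h
    rw [h] at h0
    exact hne 0 h00 (by rw [← h0]; norm_num)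
  refine ⟨fun t => E₀ * Complex.exp (S t), ?_, ?_, ?_, ?_⟩
  · refine contDiff_one_of (F' := fun t => E₀ * (Complex.exp (S t) * w t)) (fun t => ?_) (by fun_prop)
    exact ((hSd t).cexp).const_mul E₀
  · show E₀ * Complex.exp (S 0) = E₀
    rw [hS0, Complex.exp_zero, mul_one]
  · intro t
    exact mul_ne_zero hE0 (Complex.exp_ne_zero _)
  · have hG : ∀ t ∈ Icc (0 : ℝ) 1, H t * Complex.exp (-(4 * S t)) = H 0 * Complex.exp (-(4 * S 0)) := by
      refine constant_of_has_deriv_right_zero (f := fun t => H t * Complex.exp (-(4 * S t)))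
        (by fun_prop) fun t ht => ?_
      have ht' := Ico_subset_Icc_self ht
      have h1 : HasDerivAt (fun t => H t * Complex.exp (-(4 * S t))) 0 t := by
        refine ((hHd t).fun_mul (((hSd t).const_mul 4).fun_neg.cexp)).congr_deriv ?_
        linear_combination (-Complex.exp (-(4 * S t))) * hwe t ht'
      exact h1.hasDerivWithinAt
    intro t ht
    have h1 := hG t ht
    rw [hS0, mul_zero, neg_zero, Complex.exp_zero, mul_one, ← h0] at h1
    show (E₀ * Complex.exp (S t)) ^ 4 = H t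
    rw [mul_pow, ← h1, ← Complex.exp_nat_mul, mul_assoc, ← Complex.exp_add]
    have : -(4 * S t) + ((4 : ℕ) : ℂ) * S t = 0 := by
      push_cast
      ring
    rw [this, Complex.exp_zero, mul_one]

lemma hasDerivAt_f (q : ℂ) : HasDerivAt f (f' q) q := by
  unfold f
  refine (((hasDerivAt_pow 2 q).const_sub 4).fun_mul
    (((hasDerivAt_id' q).const_mul 2).add_const 5)).congr_deriv ?_
  unfold f'
  push_cast
  ring

/-- the second expression of the form follows from the first away from the branch points -/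
lemma AffinePath.mk' {s : ℂ} {r Y h : ℝ → ℂ} (hr : ContDiff ℝ 1 r) (hY : ContDiff ℝ 1 Y)
    (hh : Continuous h) (hcv : ∀ t ∈ Icc (0 : ℝ) 1, Y t ^ 4 = f (r t ^ 2 + s))
    (hf : ∀ t ∈ Icc (0 : ℝ) 1, r t * deriv r t = Y t ^ 3 * h t)
    (hne : ∀ t ∈ Ico (0 : ℝ) 1, Y t ≠ 0) : AffinePath s r Y h := by
  refine ⟨hr, hY, hh, hcv, hf, ?_⟩
  have hrd : ∀ t, HasDerivAt r (deriv r t) t := fun t =>
    (hr.differentiable one_ne_zero t).hasDerivAt
  have hYd : ∀ t, HasDerivAt Y (deriv Y t) t := fun t =>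
    (hY.differentiable one_ne_zero t).hasDerivAt
  have hrc : Continuous r := hr.continuous
  have hY' : Continuous (deriv Y) := hY.continuous_deriv le_rfl
  have h1 : ∀ t ∈ Ico (0 : ℝ) 1, 2 * deriv Y t = f' (r t ^ 2 + s) * h t := by
    intro t ht
    have ht' := Ico_subset_Icc_self ht
    have d1 : HasDerivAt (fun t => Y t ^ 4 - f (r t ^ 2 + s)) _ t :=
      ((hYd t).fun_pow 4).fun_sub
        ((hasDerivAt_f (r t ^ 2 + s)).comp_of_eq (h₂ := f) t (((hrd t).fun_pow 2).add_const s) rfl)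
    have h2 := Pool.Agent.R946.AP.deriv_eq_zero_of_Icc ht' d1 fun x hx => sub_eq_zero.2 (hcv x hx)
    push_cast at h2
    have h3 := hf t ht'
    have h4 : Y t ^ 3 ≠ 0 := pow_ne_zero 3 (hne t ht)
    apply mul_left_cancel₀ h4
    linear_combination (1 / 2) * h2 + f' (r t ^ 2 + s) * h3
  have hclosed : IsClosed {t : ℝ | 2 * deriv Y t = f' (r t ^ 2 + s) * h t} := by
    refine isClosed_eq (by fun_prop) ?_
    unfold f'
    fun_prop
  intro t ht
  have h2 : closure (Ico (0 : ℝ) 1) ⊆ {t : ℝ | 2 * deriv Y t = f' (r t ^ 2 + s) * h t} :=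
    closure_minimal h1 hclosed
  rw [closure_Ico zero_ne_one] at h2
  exact h2 ht

lemma AffinePath.rot {s : ℂ} {r Y h : ℝ → ℂ} (hp : AffinePath s r Y h) :
    AffinePath s r (fun t => I * Y t) (fun t => I * h t) := by
  refine ⟨hp.contDiff_r, contDiff_const.mul hp.contDiff_Y, continuous_const.mul hp.continuous_h,
    ?_, ?_, ?_⟩
  · intro t ht
    rw [mul_pow, Complex.I_pow_four, one_mul]
    exact hp.curve t ht
  · intro t ht
    rw [hp.form_r t ht]
    linear_combination (-(Y t ^ 3 * h t)) * Complex.I_pow_four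
  · intro t ht
    have h1 : deriv (fun t => I * Y t) t = I * deriv Y t :=
      deriv_const_mul _ (hp.contDiff_Y.differentiable one_ne_zero t)
    rw [h1]
    linear_combination I * hp.form_Y t ht

lemma AffinePath.rev {s : ℂ} {r Y h : ℝ → ℂ} (hp : AffinePath s r Y h) :
    AffinePath s (fun t => r (1 - t)) (fun t => Y (1 - t)) (fun t => -h (1 - t)) := by
  have hm : ∀ t ∈ Icc (0 : ℝ) 1, 1 - t ∈ Icc (0 : ℝ) 1 := fun t ht =>
    ⟨by linarith [ht.2], by linarith [ht.1]⟩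
  have hsub : ContDiff ℝ 1 fun t : ℝ => 1 - t := contDiff_const.sub contDiff_id
  have hcs : Continuous fun t : ℝ => 1 - t := by fun_prop
  refine ⟨hp.contDiff_r.comp hsub, hp.contDiff_Y.comp hsub, (hp.continuous_h.comp hcs).neg,
    fun t ht => hp.curve _ (hm t ht), ?_, ?_⟩
  · intro t ht
    rw [deriv_comp_const_sub r 1 t]
    linear_combination -hp.form_r _ (hm t ht)
  · intro t ht
    rw [deriv_comp_const_sub Y 1 t]
    linear_combination -hp.form_Y _ (hm t ht)

/-- from a zero to a branch point and back, with a quarter turn -/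
lemma path_of_arc {s Y₀ : ℂ} {r Y h : ℝ → ℂ} (hp : AffinePath s r Y h) (hr0 : r 0 = 0)
    (hY0 : Y 0 = Y₀) (hY1 : Y 1 = 0) :
    Path s (Pt.affine 0 Y₀) (Pt.affine (r 1) 0) (∫ t in (0 : ℝ)..1, h t)
      (∫ t in (0 : ℝ)..1, ‖h t‖) ∧
    Path s (Pt.affine 0 Y₀) (Pt.affine 0 (I * Y₀)) ((1 - I) * ∫ t in (0 : ℝ)..1, h t)
      (2 * ∫ t in (0 : ℝ)..1, ‖h t‖) := by
  have p1 := Path.affine hp
  rw [hr0, hY0, hY1] at p1
  refine ⟨p1, ?_⟩
  have p2 := Path.affine hp.rot.rev
  simp only [sub_zero, sub_self] at p2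
  rw [hr0, hY0, hY1, mul_zero] at p2
  have p3 := p1.trans p2
  have e1 : ∫ t in (0 : ℝ)..1, -(I * h (1 - t)) = -(I * ∫ t in (0 : ℝ)..1, h t) := by
    rw [intervalIntegral.integral_neg, intervalIntegral.integral_const_mul]
    congr 2
    rw [intervalIntegral.integral_comp_sub_left (fun t => h t) 1]
    simp
  have e2 : ∫ t in (0 : ℝ)..1, ‖-(I * h (1 - t))‖ = ∫ t in (0 : ℝ)..1, ‖h t‖ := by
    have : ∀ t : ℝ, ‖-(I * h (1 - t))‖ = ‖h (1 - t)‖ := fun t => by
      rw [norm_neg, norm_mul, Complex.norm_I, one_mul]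
    simp only [this]
    rw [intervalIntegral.integral_comp_sub_left (fun t => ‖h t‖) 1]
    simp
  rw [e1, e2] at p3
  convert p3 using 1
  · ring
  · ring

/-- the parameter avoiding finitely many points -/
lemma exists_kappa {B : Set ℂ} (hB : B.Finite) (h0 : (0 : ℂ) ∉ B) (h1 : (1 : ℂ) ∉ B) :
    ∃ κ : ℝ, ∀ t ∈ Icc (0 : ℝ) 1,
      (1 - (1 - t) ^ 4 + I * κ * t * (1 - t) ^ 4 : ℂ) ∉ B := by
  have hsub : ∀ z ∈ B, {κ : ℝ | ∃ t ∈ Icc (0 : ℝ) 1,
      (1 - (1 - t) ^ 4 + I * κ * t * (1 - t) ^ 4 : ℂ) = z}.Subsingleton := by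
    rintro z hz κ ⟨t, ht, e⟩ κ' ⟨t', ht', e'⟩
    have key : ∀ (κ t : ℝ), (1 - (1 - t) ^ 4 + I * κ * t * (1 - t) ^ 4 : ℂ) = z →
        1 - (1 - t) ^ 4 = z.re ∧ κ * t * (1 - t) ^ 4 = z.im := by
      intro κ t e
      have e1 : (1 - (1 - t) ^ 4 + I * κ * t * (1 - t) ^ 4 : ℂ) =
          ((1 - (1 - t) ^ 4 : ℝ) : ℂ) + ((κ * t * (1 - t) ^ 4 : ℝ) : ℂ) * I := by
        push_cast
        ring
      rw [e1] at e
      have h1 := congrArg Complex.re e
      have h2 := congrArg Complex.im e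
      simp only [Complex.add_re, Complex.ofReal_re, Complex.mul_re, Complex.I_re, Complex.ofReal_im,
        Complex.I_im, Complex.add_im, Complex.mul_im, mul_zero, mul_one, sub_zero,
        add_zero, zero_add] at h1 h2
      exact ⟨h1, h2⟩
    obtain ⟨a1, a2⟩ := key κ t e
    obtain ⟨b1, b2⟩ := key κ' t' e'
    have h2 : (1 - t) ^ 4 = (1 - t') ^ 4 := by linarith
    have h3 : 1 - t = 1 - t' :=
      (pow_left_inj₀ (by linarith [ht.2]) (by linarith [ht'.2]) (by norm_num)).1 h2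
    have h4 : t = t' := by linarith
    subst h4
    have h5 : (κ - κ') * (t * (1 - t) ^ 4) = 0 := by linear_combination a2 - b2
    rcases mul_eq_zero.1 h5 with h6 | h6
    · linarith
    · exfalso
      rcases mul_eq_zero.1 h6 with h7 | h7
      · subst h7
        apply h0
        have : z = 0 := by rw [← e]; push_cast; ring
        rwa [← this]
      · have h8 : (1 - t) = 0 := pow_eq_zero_iff (by norm_num) |>.1 h7
        have h9 : t = 1 := by linarith
        subst h9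
        apply h1
        have : z = 1 := by rw [← e]; push_cast; ring
        rwa [← this]
  have hfin : (⋃ z ∈ B, {κ : ℝ | ∃ t ∈ Icc (0 : ℝ) 1,
      (1 - (1 - t) ^ 4 + I * κ * t * (1 - t) ^ 4 : ℂ) = z}).Finite :=
    hB.biUnion fun z hz => (hsub z hz).finite
  obtain ⟨κ, hκ⟩ := hfin.infinite_compl.nonempty
  refine ⟨κ, fun t ht hmem => hκ ?_⟩
  rw [mem_iUnion₂]
  exact ⟨_, hmem, t, ht, rfl⟩

lemma hasDerivAt_coe (t : ℝ) : HasDerivAt (fun t : ℝ => (t : ℂ)) 1 t :=
  Complex.ofRealCLM.hasDerivAt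

lemma arc_core {s Y₀ a b d R κ : ℂ} {r : ℝ → ℂ} (hf : ∀ q, f q = -2 * (q - a) * (q - b) * (q - d))
    (hR : R ^ 2 = a - s) (hr0 : r 0 = 0)
    (hrd : ∀ t : ℝ, HasDerivAt r (R * ((1 - t) ^ 3 * (-4 * (κ * t - 1) + (1 - t) * κ))) t)
    (hfac : ∀ t : ℝ, (1 - (t : ℂ)) ^ 4 * ((κ * t - 1) * R) = r t - R)
    (hHne : ∀ t ∈ Icc (0 : ℝ) 1, (κ * t - 1) * R * (r t + R) *
      (-2 * (r t ^ 2 + s - b) * (r t ^ 2 + s - d)) ≠ 0)
    (hY₀ : Y₀ ^ 4 = f s) :
    ∃ E : ℝ → ℂ, E 0 = Y₀ ∧ (∀ t, E t ≠ 0) ∧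
      (∀ t ∈ Icc (0 : ℝ) 1, E t ^ 4 = (κ * t - 1) * R * (r t + R) *
      (-2 * (r t ^ 2 + s - b) * (r t ^ 2 + s - d))) ∧
      AffinePath s r (fun t => (1 - t) * E t)
        (fun t => r t * (R * (-4 * (κ * t - 1) + (1 - t) * κ)) / E t ^ 3) := by
  have hofR : ContDiff ℝ 1 fun t : ℝ => (t : ℂ) := Complex.ofRealCLM.contDiff
  have hrC : ContDiff ℝ 1 r := contDiff_one_of hrd (by fun_prop)
  have hH0 : Y₀ ^ 4 = (fun t : ℝ => (κ * t - 1) * R * (r t + R) *
      (-2 * (r t ^ 2 + s - b) * (r t ^ 2 + s - d))) 0 := by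
    show Y₀ ^ 4 = (κ * ((0 : ℝ) : ℂ) - 1) * R * (r 0 + R) *
      (-2 * (r 0 ^ 2 + s - b) * (r 0 ^ 2 + s - d))
    rw [hY₀, hf, hr0, Complex.ofReal_zero]
    linear_combination (-2 * (s - b) * (s - d)) * hR
  obtain ⟨E, hEC, hE0, hEne, hE4⟩ := exists_root (by fun_prop) hHne hH0
  have hEc : Continuous E := hEC.continuous
  have hrc : Continuous r := hrC.continuous
  have hcv : ∀ t ∈ Icc (0 : ℝ) 1, ((1 - t : ℂ) * E t) ^ 4 = f (r t ^ 2 + s) := by
    intro t ht
    rw [mul_pow, hE4 t ht, hf]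
    linear_combination ((r t + R) * (-2 * (r t ^ 2 + s - b) * (r t ^ 2 + s - d))) * hfac t +
      (2 * (r t ^ 2 + s - b) * (r t ^ 2 + s - d)) * hR
  refine ⟨E, hE0, hEne, hE4, ?_⟩
  refine AffinePath.mk' hrC ?_ ?_ hcv ?_ ?_
  · fun_prop
  · refine Continuous.div (by fun_prop) (by fun_prop) fun t => pow_ne_zero 3 (hEne t)
  · intro t ht
    rw [(hrd t).deriv]
    have h3 : E t ≠ 0 := hEne t
    have key : ∀ X : ℂ, E t ^ 3 * (X / E t ^ 3) = X := fun X => by field_simp
    linear_combination (-(1 - (t : ℂ)) ^ 3) *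
      key (r t * (R * (-4 * (κ * t - 1) + (1 - t) * κ)))
  · intro t ht
    refine mul_ne_zero ?_ (hEne t)
    intro h
    have h1 : ((1 - t : ℝ) : ℂ) = 0 := by
      push_cast
      exact h
    have h2 : 1 - t = 0 := by exact_mod_cast h1
    linarith [ht.2]

/-- arcs from `(0, Y₀)` to a branch point over a root of `f` -/
theorem exists_arc {s Y₀ a b d : ℂ} (hf : ∀ q, f q = -2 * (q - a) * (q - b) * (q - d)) (hab : a ≠ b)
    (had : a ≠ d) (hs : f s ≠ 0) (hY₀ : Y₀ ^ 4 = f s) :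
    ∃ r Y h : ℝ → ℂ, AffinePath s r Y h ∧ r 0 = 0 ∧ Y 0 = Y₀ ∧ r 1 ^ 2 + s = a ∧ Y 1 = 0 := by
  obtain ⟨R, hR⟩ := IsAlgClosed.exists_pow_nat_eq (a - s) (n := 2) (by norm_num)
  have hsa : s - a ≠ 0 := fun h => hs (by rw [hf, h]; ring)
  have hsb : s - b ≠ 0 := fun h => hs (by rw [hf, h]; ring)
  have hsd : s - d ≠ 0 := fun h => hs (by rw [hf, h]; ring)
  have hR0 : R ≠ 0 := by
    intro h
    rw [h] at hR
    apply hsa
    linear_combination hR
  set B : Set ℂ := {z | R * z = -R} ∪ ({z | R ^ 2 * z ^ 2 = b - s} ∪ {z | R ^ 2 * z ^ 2 = d - s})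
    with hBdef
  have hsq : ∀ w : ℂ, {z : ℂ | R ^ 2 * z ^ 2 = w}.Finite := by
    intro w
    by_cases hemp : ∃ z₀, R ^ 2 * z₀ ^ 2 = w
    · obtain ⟨z₀, hz₀⟩ := hemp
      refine ((Set.finite_singleton (-z₀)).insert z₀).subset ?_
      intro z hz
      have hz' : R ^ 2 * z ^ 2 = w := hz
      rw [← hz₀] at hz'
      have h1 := mul_left_cancel₀ (pow_ne_zero 2 hR0) hz'
      rcases sq_eq_sq_iff_eq_or_eq_neg.1 h1 with h2 | h2
      · exact Or.inl h2
      · exact Or.inr h2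
    · refine Set.finite_empty.subset ?_
      intro z hz
      exact hemp ⟨z, hz⟩
  have hBfin : B.Finite := by
    refine Set.Finite.union ?_ ((hsq _).union (hsq _))
    refine (Set.finite_singleton (-1 : ℂ)).subset ?_
    intro z hz
    have hz' : R * z = -R := hz
    show z = -1
    apply mul_left_cancel₀ hR0
    rw [hz']
    ring
  have hB0 : (0 : ℂ) ∉ B := by
    rintro (h | h | h)
    · have h' : R * 0 = -R := h
      exact hR0 (by linear_combination h')
    · have h' : R ^ 2 * 0 ^ 2 = b - s := h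
      exact hsb (by linear_combination h')
    · have h' : R ^ 2 * 0 ^ 2 = d - s := h
      exact hsd (by linear_combination h')
  have hB1 : (1 : ℂ) ∉ B := by
    rintro (h | h | h)
    · have h' : R * 1 = -R := h
      exact hR0 (by linear_combination (1 / 2) * h')
    · have h' : R ^ 2 * 1 ^ 2 = b - s := h
      exact hab (by linear_combination h' - hR)
    · have h' : R ^ 2 * 1 ^ 2 = d - s := h
      exact had (by linear_combination h' - hR)
  obtain ⟨κ, hκ⟩ := exists_kappa hBfin hB0 hB1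
  obtain ⟨r, hr⟩ : ∃ r : ℝ → ℂ, ∀ t : ℝ,
      r t = R * (1 - (1 - (t : ℂ)) ^ 4 + I * κ * t * (1 - (t : ℂ)) ^ 4) := ⟨_, fun t => rfl⟩
  have hrd : ∀ t : ℝ, HasDerivAt r
      (R * ((1 - t) ^ 3 * (-4 * (I * κ * t - 1) + (1 - t) * (I * κ)))) t := by
    intro t
    have h1 : HasDerivAt (fun t : ℝ => (1 - (t : ℂ)) ^ 4) _ t :=
      ((hasDerivAt_coe t).const_sub 1).fun_pow 4
    rw [show r = fun t : ℝ => R * (1 - (1 - (t : ℂ)) ^ 4 + I * κ * t * (1 - (t : ℂ)) ^ 4) from
      funext hr]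
    refine (((h1.const_sub 1).fun_add (((hasDerivAt_coe t).const_mul (I * κ)).fun_mul h1)).const_mul
      R).congr_deriv ?_
    push_cast
    ring
  have hr0 : r 0 = 0 := by
    rw [hr]
    push_cast
    ring
  have hr1 : r 1 = R := by
    rw [hr]
    push_cast
    ring
  obtain ⟨E, hE0, hEne, hE4, hp⟩ := arc_core (κ := I * κ) hf hR hr0 hrd (fun t => by
    rw [hr]
    ring) (fun t ht h => by
    have hk := hκ t ht
    rw [hBdef] at hk
    simp only [mem_union, mem_ofPred_eq, not_or] at hk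
    obtain ⟨k1, k2, k3⟩ := hk
    have hrt := hr t
    have hre : (I * κ * t - 1 : ℂ) ≠ 0 := by
      intro h1
      have h2 := congrArg Complex.re h1
      simp at h2
    rcases mul_eq_zero.1 h with h1 | h1
    · rcases mul_eq_zero.1 h1 with h2 | h2
      · rcases mul_eq_zero.1 h2 with h3 | h3
        · exact hre h3
        · exact hR0 h3
      · apply k1
        rw [← hrt]
        linear_combination h2
    · rcases mul_eq_zero.1 h1 with h2 | h2
      · rcases mul_eq_zero.1 h2 with h3 | h3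
        · norm_num at h3
        · apply k2
          rw [← mul_pow, ← hrt]
          linear_combination h3
      · apply k3
        rw [← mul_pow, ← hrt]
        linear_combination h2) hY₀
  refine ⟨r, _, _, hp, hr0, ?_, ?_, ?_⟩
  · rw [hE0, Complex.ofReal_zero]
    ring
  · rw [hr1, hR]
    ring
  · rw [Complex.ofReal_one]
    ring

end Pool.Agent.R946.AP
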