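import Pool.Agent.R946.AP.Defs

/-!
# The area of `(C_s, ω_s)` does not depend on `s`
-/

set_option autoImplicit false

open Filter Set MeasureTheory
open scoped Topology ENNReal

noncomputable section

namespace Pool.Agent.R946.AP

lemma ae_im_ne : ∀ᵐ z : ℂ, z.im ≠ 0 := by
  have h1 : (volume : Measure ℂ) ((LinearMap.ker Complex.imLm : Submodule ℝ ℂ) : Set ℂ) = 0 := by
    refine Measure.addHaar_submodule volume _ ?_
    intro h
    have h2 : Complex.I ∈ LinearMap.ker Complex.imLm := by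
      rw [h]
      exact Submodule.mem_top
    simp at h2
  rw [ae_iff]
  refine measure_mono_null ?_ h1
  intro z hz
  simpa using hz

lemma ae_re_ne : ∀ᵐ z : ℂ, z.re ≠ 0 := by
  have h1 : (volume : Measure ℂ) ((LinearMap.ker Complex.reLm : Submodule ℝ ℂ) : Set ℂ) = 0 := by
    refine Measure.addHaar_submodule volume _ ?_
    intro h
    have h2 : (1 : ℂ) ∈ LinearMap.ker Complex.reLm := by
      rw [h]
      exact Submodule.mem_top
    simp at h2
  rw [ae_iff]
  refine measure_mono_null ?_ h1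
  intro z hz
  simpa using hz

/-- change of variables `q = r²` on a half plane -/
lemma lintegral_half (g : ℂ → ℝ≥0∞) {S : Set ℂ} (hS : MeasurableSet S)
    (hinj : InjOn (fun r : ℂ => r ^ 2) S)
    (hsurj : ∀ z : ℂ, z.im ≠ 0 → ∃ r ∈ S, r ^ 2 = z) :
    ∫⁻ r in S, ENNReal.ofReal (4 * ‖r‖ ^ 2) * g (r ^ 2) = ∫⁻ z, g z := by
  have hd : ∀ x ∈ S, HasFDerivWithinAt (fun r : ℂ => r ^ 2)
      ((ContinuousLinearMap.smulRight (1 : ℂ →L[ℂ] ℂ) (2 * x)).restrictScalars ℝ) S x := by
    intro x _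
    have h1 : HasDerivAt (fun r : ℂ => r ^ 2) (2 * x) x := by
      simpa using hasDerivAt_pow 2 x
    exact (h1.hasFDerivAt.restrictScalars ℝ).hasFDerivWithinAt
  have key := lintegral_image_eq_lintegral_abs_det_fderiv_mul volume hS hd hinj g
  have hdet : ∀ x : ℂ, |((ContinuousLinearMap.smulRight (1 : ℂ →L[ℂ] ℂ) (2 * x)).restrictScalars
      ℝ).det| = 4 * ‖x‖ ^ 2 := by
    intro x
    have h1 : ((ContinuousLinearMap.smulRight (1 : ℂ →L[ℂ] ℂ) (2 * x)).restrictScalars ℝ).det =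
        4 * ‖x‖ ^ 2 := by
      rw [ContinuousLinearMap.det]
      have h2 : (((ContinuousLinearMap.smulRight (1 : ℂ →L[ℂ] ℂ) (2 * x)).restrictScalars ℝ :
          ℂ →L[ℝ] ℂ) : ℂ →ₗ[ℝ] ℂ) =
          ((ContinuousLinearMap.smulRight (1 : ℂ →L[ℂ] ℂ) (2 * x) : ℂ →ₗ[ℂ] ℂ).restrictScalars ℝ) :=
        rfl
      rw [h2, LinearMap.det_restrictScalars, LinearMap.det_ring, Algebra.norm_complex_apply,
        Complex.normSq_eq_norm_sq]
      simp
      ring
    rw [h1, abs_of_nonneg (by positivity)]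
  simp only [hdet] at key
  rw [← key]
  have hae : ((fun r : ℂ => r ^ 2) '' S : Set ℂ) =ᵐ[volume] univ := by
    rw [ae_eq_univ]
    have h1 := ae_im_ne
    rw [ae_iff] at h1
    refine measure_mono_null ?_ h1
    intro z hz h2
    obtain ⟨r, hr, hrz⟩ := hsurj z h2
    exact hz ⟨r, hr, hrz⟩
  rw [setLIntegral_congr hae, setLIntegral_univ]

lemma lintegral_sq (g : ℂ → ℝ≥0∞) :
    ∫⁻ r : ℂ, ENNReal.ofReal (4 * ‖r‖ ^ 2) * g (r ^ 2) = 2 * ∫⁻ z, g z := by
  have hP : MeasurableSet {r : ℂ | 0 < r.re} :=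
    (isOpen_lt continuous_const Complex.continuous_re).measurableSet
  have hN : MeasurableSet {r : ℂ | r.re < 0} :=
    (isOpen_lt Complex.continuous_re continuous_const).measurableSet
  have hroot : ∀ z : ℂ, z.im ≠ 0 → ∃ r : ℂ, r ^ 2 = z ∧ r.re ≠ 0 := by
    intro z hz
    obtain ⟨r, hr⟩ := IsAlgClosed.exists_pow_nat_eq z (n := 2) (by norm_num)
    refine ⟨r, hr, fun h => hz ?_⟩
    rw [← hr, sq, Complex.mul_im, h]
    ring
  have h1 := lintegral_half g hP (by
    intro x hx y hy hxy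
    have hx' : 0 < x.re := hx
    have hy' : 0 < y.re := hy
    rcases sq_eq_sq_iff_eq_or_eq_neg.1 hxy with h | h
    · exact h
    · exfalso
      rw [h, Complex.neg_re] at hx'
      linarith) (by
    intro z hz
    obtain ⟨r, hr, hre⟩ := hroot z hz
    rcases lt_or_gt_of_ne hre with h | h
    · refine ⟨-r, ?_, by rw [neg_sq]; exact hr⟩
      show 0 < (-r).re
      rw [Complex.neg_re]
      linarith
    · exact ⟨r, h, hr⟩)
  have h2 := lintegral_half g hN (by
    intro x hx y hy hxy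
    have hx' : x.re < 0 := hx
    have hy' : y.re < 0 := hy
    rcases sq_eq_sq_iff_eq_or_eq_neg.1 hxy with h | h
    · exact h
    · exfalso
      rw [h, Complex.neg_re] at hx'
      linarith) (by
    intro z hz
    obtain ⟨r, hr, hre⟩ := hroot z hz
    rcases lt_or_gt_of_ne hre with h | h
    · exact ⟨r, h, hr⟩
    · refine ⟨-r, ?_, by rw [neg_sq]; exact hr⟩
      show (-r).re < 0
      rw [Complex.neg_re]
      linarith)
  have h3 := lintegral_add_compl (μ := (volume : Measure ℂ))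
    (fun r : ℂ => ENNReal.ofReal (4 * ‖r‖ ^ 2) * g (r ^ 2)) hP
  have hae : ({r : ℂ | 0 < r.re}ᶜ : Set ℂ) =ᵐ[volume] {r : ℂ | r.re < 0} := by
    filter_upwards [ae_re_ne] with z hz
    apply propext
    show ¬ (0 < z.re) ↔ z.re < 0
    constructor
    · intro h
      exact lt_of_le_of_ne (not_lt.1 h) hz
    · intro h
      exact not_lt.2 h.le
  rw [← h3, setLIntegral_congr hae, h1, h2, two_mul]

/-- the area does not depend on `s` -/
theorem area_eq (s : ℂ) : area s = area 0 := by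
  have h1 : ∀ s, area s = 2 * ∫⁻ z : ℂ, ENNReal.ofReal (1 / √‖f z‖ ^ 3) := by
    intro s
    have h2 := lintegral_sq fun z => ENNReal.ofReal (1 / √‖f (z + s)‖ ^ 3)
    have h3 : ∫⁻ z : ℂ, ENNReal.ofReal (1 / √‖f (z + s)‖ ^ 3) =
        ∫⁻ z : ℂ, ENNReal.ofReal (1 / √‖f z‖ ^ 3) :=
      lintegral_add_right_eq_self (fun z : ℂ => ENNReal.ofReal (1 / √‖f z‖ ^ 3)) s
    rw [h3] at h2
    rw [← h2]
    unfold area
    congr 1
    funext r
    rw [← ENNReal.ofReal_mul (by positivity)]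
    congr 1
    ring
  rw [h1, h1]

end Pool.Agent.R946.AP
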