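import Mathlib

/-!
# The pairs `(C_s, ω_s)`

`C_s` is the smooth projective curve with affine equation `Y⁴ = f(r² + s)`, where
`f(q) = (4 - q²)(2q + 5)` and `f(s) ≠ 0`, and `ω_s = r dr / Y³ = 2 dY / f'(r² + s)`.
-/

set_option autoImplicit false

open Set MeasureTheory
open scoped ENNReal

noncomputable section

namespace Pool.Agent.R946.AP

/-- The cubic `f(q) = (4 - q²)(2q + 5)`. -/
def f (q : ℂ) : ℂ := (4 - q ^ 2) * (2 * q + 5)

/-- The derivative `f'(q) = 8 - 10q - 6q²` of `f`. -/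
def f' (q : ℂ) : ℂ := 8 - 10 * q - 6 * q ^ 2

/-- A point of `C_s`: an affine point `(r, Y)` of `Y⁴ = f(r² + s)`, or one of the two points at
infinity, labelled by the value `w` there of `Y² / r³`, so `w² = -2`. -/
inductive Pt : Type
  | affine (r Y : ℂ) : Pt
  | infinite (w : ℂ) : Pt

/-- The zeros of `ω_s`: the four points with `r = 0` and the two points at infinity. -/
def IsZero : Pt → Prop
  | Pt.affine r _ => r = 0
  | Pt.infinite _ => True

/-- A continuously differentiable path `t ↦ (r t, Y t)`, `t ∈ [0, 1]`, in the affine part of `C_s`;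
the pull-back of `ω_s = r dr / Y³ = 2 dY / f'(r² + s)` is `h dt`. -/
structure AffinePath (s : ℂ) (r Y h : ℝ → ℂ) : Prop where
  contDiff_r : ContDiff ℝ 1 r
  contDiff_Y : ContDiff ℝ 1 Y
  continuous_h : Continuous h
  curve : ∀ t ∈ Icc (0 : ℝ) 1, Y t ^ 4 = f (r t ^ 2 + s)
  form_r : ∀ t ∈ Icc (0 : ℝ) 1, r t * deriv r t = Y t ^ 3 * h t
  form_Y : ∀ t ∈ Icc (0 : ℝ) 1, 2 * deriv Y t = f' (r t ^ 2 + s) * h t

/-- The point of `C_s` with coordinates `(τ, u)` in the chart `r = τ⁻²`, `Y = u τ⁻³` around the points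
at infinity, `u⁴ = (4τ⁸ - (1 + sτ⁴)²)(2 + (2s + 5)τ⁴)`, where `τ` is a local parameter and `(τ, u)`,
`(-τ, -u)` are the same point. -/
def nearInfinity (τ u : ℂ) : Pt :=
  open Classical in if τ = 0 then Pt.infinite (u ^ 2) else Pt.affine (1 / τ ^ 2) (u / τ ^ 3)

/-- A continuously differentiable path `t ↦ (τ t, u t)`, `t ∈ [0, 1]`, in that chart; the pull-back
of `ω_s = -2 τ⁴ dτ / u³` is `h dt`. -/
structure InfinitePath (s : ℂ) (τ u h : ℝ → ℂ) : Prop where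
  contDiff_τ : ContDiff ℝ 1 τ
  contDiff_u : ContDiff ℝ 1 u
  continuous_h : Continuous h
  curve : ∀ t ∈ Icc (0 : ℝ) 1,
    u t ^ 4 = (4 * τ t ^ 8 - (1 + s * τ t ^ 4) ^ 2) * (2 + (2 * s + 5) * τ t ^ 4)
  ne_zero : ∀ t ∈ Icc (0 : ℝ) 1, u t ≠ 0
  form : ∀ t ∈ Icc (0 : ℝ) 1, u t ^ 3 * h t = -2 * τ t ^ 4 * deriv τ t

/-- `Path s p q I ℓ`: there is a piecewise continuously differentiable path on `C_s` from `p` to `q`
along which `∫ ω_s = I` and `∫ |ω_s| = ℓ`. -/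
inductive Path (s : ℂ) : Pt → Pt → ℂ → ℝ → Prop
  | affine {r Y h : ℝ → ℂ} (hp : AffinePath s r Y h) :
      Path s (Pt.affine (r 0) (Y 0)) (Pt.affine (r 1) (Y 1)) (∫ t in (0 : ℝ)..1, h t)
        (∫ t in (0 : ℝ)..1, ‖h t‖)
  | infinite {τ u h : ℝ → ℂ} (hp : InfinitePath s τ u h) :
      Path s (nearInfinity (τ 0) (u 0)) (nearInfinity (τ 1) (u 1)) (∫ t in (0 : ℝ)..1, h t)
        (∫ t in (0 : ℝ)..1, ‖h t‖)
  | trans {p q m : Pt} {I J : ℂ} {k l : ℝ} :
      Path s p q I k → Path s q m J l → Path s p m (I + J) (k + l)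

/-- `I` is a relative period of `(C_s, ω_s)`: the integral of `ω_s` along a path that is closed or
joins two zeros of `ω_s`. -/
def RelPeriod (s I : ℂ) : Prop :=
  ∃ (p q : Pt) (ℓ : ℝ), Path s p q I ℓ ∧ (p = q ∨ (IsZero p ∧ IsZero q))

/-- The area `∫ |ω_s|²` of `(C_s, ω_s)`, as an integral over the `r`-plane; `C_s` has four sheets
over it, on each of which `|ω_s|² = |r|² |dr|² / |f(r² + s)|^{3/2}`. -/
def area (s : ℂ) : ℝ≥0∞ :=
  ∫⁻ r : ℂ, ENNReal.ofReal (4 * (‖r‖ ^ 2 / √‖f (r ^ 2 + s)‖ ^ 3))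

/-- The weight of a point, relative to a fourth root `Y₀` of `f(s)`: `Y / Y₀` at `(r, Y)`, so a power
of `i` at the four zeros `(0, Y)`, and `0` at infinity. -/
def weight (Y₀ : ℂ) : Pt → ℂ
  | Pt.affine _ Y => Y / Y₀
  | Pt.infinite _ => 0

/-- The field `ℚ(i, √2)`. -/
def K : IntermediateField ℚ ℂ := IntermediateField.adjoin ℚ {Complex.I, ((√2 : ℝ) : ℂ)}

end Pool.Agent.R946.AP
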