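import Pool.Agent.R946.AP.Lift
import Pool.Agent.R946.AP.Defs

/-!
# The two coordinate functions of the map to `E × E`, along a path
-/

set_option autoImplicit false

open Filter Set
open scoped Topology PeriodPair

noncomputable section

namespace Pool.Agent.R946.AP

open H667R3 Pool.Agent.W245.EB
open Complex (I)

/-- the complex number `√2` -/
def ρ : ℂ := ((√2 : ℝ) : ℂ)

lemma ρ_sq : ρ ^ 2 = 2 := by
  unfold ρ
  rw [← Complex.ofReal_pow, Real.sq_sqrt (by norm_num)]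
  norm_num

lemma ρ_ne : ρ ≠ 0 := by
  intro h
  have := ρ_sq
  rw [h] at this
  norm_num at this

/-- a path in one chart from equations without denominators -/
lemma ChartAt.mk' {NX NW D X W g : ℝ → ℂ} {NX' NW' D' : ℂ} {x : ℝ}
    (hX : X = fun x => NX x / D x) (hW : W = fun x => NW x / D x)
    (hNX : HasDerivAt NX NX' x) (hNW : HasDerivAt NW NW' x) (hD : HasDerivAt D D' x)
    (hD0 : D x ≠ 0)
    (h1 : NX' * D x - NX x * D' = NW x * g x * D x)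
    (h2 : NW' * D x - NW x * D' = (6 * NX x ^ 2 - 2 * D x ^ 2) * g x) : ChartAt X W g x := by
  subst hX hW
  constructor
  · refine (hNX.fun_div hD hD0).congr_deriv ?_
    rw [h1]
    field_simp
  · refine (hNW.fun_div hD hD0).congr_deriv ?_
    rw [h2]
    field_simp

section

variable {Q Y h : ℝ → ℂ} {t : ℝ}

/-- the local data of a path: `q' = 2 Y³ h`, `2 Y' = f'(q) h`, `Y⁴ = f(q)` -/
structure PathAt (Q Y h : ℝ → ℂ) (t : ℝ) : Prop where
  hQ : HasDerivAt Q (2 * Y t ^ 3 * h t) t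
  hY : HasDerivAt Y (f' (Q t) * h t / 2) t
  curve : Y t ^ 4 = f (Q t)

lemma PathAt.hY2 (p : PathAt Q Y h t) : HasDerivAt (fun t => Y t ^ 2) (Y t * (f' (Q t) * h t)) t := by
  refine (p.hY.fun_pow 2).congr_deriv ?_
  push_cast
  ring

lemma chartA1 (p : PathAt Q Y h t) (hD : 2 * Q t + 5 ≠ 0) :
    ChartAt (fun t => Y t ^ 2 / (2 * Q t + 5)) (fun t => 2 * I * Y t * (Q t + 1) / (2 * Q t + 5))
      (fun t => I * (Q t + 4) * h t) t := by
  have hc := p.curve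
  unfold f at hc
  refine ChartAt.mk' rfl rfl p.hY2 ((p.hY.const_mul (2 * I)).fun_mul (p.hQ.add_const 1))
    ((p.hQ.const_mul 2).add_const 5) hD ?_ ?_
  · unfold f'
    linear_combination (-4 * Y t * h t) * hc -
      (2 * Y t * h t * (2 * Q t + 5) * (Q t + 1) * (Q t + 4)) * Complex.I_sq
  · unfold f'
    linear_combination (I * h t * (12 - 6 * (Q t + 4))) * hc

lemma chartA2 (p : PathAt Q Y h t) (hD : 2 * Q t + 5 ≠ 0) :
    ChartAt (fun t => Y t ^ 2 / (2 * (2 * Q t + 5)))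
      (fun t => -(I * ρ) * Y t * (Q t + 4) / (2 * (2 * Q t + 5)))
      (fun t => -(I * ρ) * (Q t + 1) * h t) t := by
  have hc := p.curve
  unfold f at hc
  refine ChartAt.mk' rfl rfl p.hY2 ((p.hY.const_mul (-(I * ρ))).fun_mul (p.hQ.add_const 4))
    (((p.hQ.const_mul 2).add_const 5).const_mul 2) (mul_ne_zero two_ne_zero hD) ?_ ?_
  · unfold f'
    linear_combination (-8 * Y t * h t) * hc -
      (4 * Y t * h t * (2 * Q t + 5) * (Q t + 1) * (Q t + 4)) * Complex.I_sq -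
      (2 * I ^ 2 * Y t * h t * (2 * Q t + 5) * (Q t + 1) * (Q t + 4)) * ρ_sq
  · unfold f'
    linear_combination (-(I * ρ) * h t * (-12 - 6 * (Q t + 1))) * hc

lemma chartB1 (p : PathAt Q Y h t) (hD : 4 - Q t ^ 2 ≠ 0) :
    ChartAt (fun t => -Y t ^ 2 / (4 - Q t ^ 2)) (fun t => 2 * I * Y t * (Q t + 1) / (4 - Q t ^ 2))
      (fun t => I * (Q t + 4) * h t) t := by
  have hc := p.curve
  unfold f at hc
  refine ChartAt.mk' rfl rfl p.hY2.fun_neg
    ((p.hY.const_mul (2 * I)).fun_mul (p.hQ.add_const 1))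
    ((p.hQ.fun_pow 2).const_sub 4) hD ?_ ?_
  · unfold f'
    push_cast
    linear_combination (-4 * Q t * Y t * h t) * hc -
      (2 * Y t * h t * (4 - Q t ^ 2) * (Q t + 1) * (Q t + 4)) * Complex.I_sq
  · unfold f'
    push_cast
    linear_combination (I * h t * (4 * (4 - Q t ^ 2) + 8 * Q t * (Q t + 1) - 6 * (Q t + 4))) * hc

lemma chartB2 (p : PathAt Q Y h t) (hD : 4 - Q t ^ 2 ≠ 0) :
    ChartAt (fun t => -2 * Y t ^ 2 / (4 - Q t ^ 2))
      (fun t => -2 * (I * ρ) * Y t * (Q t + 4) / (4 - Q t ^ 2))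
      (fun t => -(I * ρ) * (Q t + 1) * h t) t := by
  have hc := p.curve
  unfold f at hc
  refine ChartAt.mk' rfl rfl (p.hY2.const_mul (-2))
    ((p.hY.const_mul (-2 * (I * ρ))).fun_mul (p.hQ.add_const 4))
    ((p.hQ.fun_pow 2).const_sub 4) hD ?_ ?_
  · unfold f'
    push_cast
    linear_combination (-8 * Q t * Y t * h t) * hc -
      (4 * Y t * h t * (4 - Q t ^ 2) * (Q t + 1) * (Q t + 4)) * Complex.I_sq -
      (2 * I ^ 2 * Y t * h t * (4 - Q t ^ 2) * (Q t + 1) * (Q t + 4)) * ρ_sq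
  · unfold f'
    push_cast
    linear_combination (-(I * ρ) * h t *
      (4 * (4 - Q t ^ 2) + 8 * Q t * (Q t + 4) - 24 * (Q t + 1))) * hc

end

section infinity

variable {s : ℂ} {T U : ℝ → ℂ} {t : ℝ} {T' U' : ℂ}

/-- the common denominator in the chart at infinity -/
def DI (s T : ℂ) : ℂ := (1 + s * T ^ 4) ^ 2 - 4 * T ^ 8

/-- local data of a path in the chart at infinity -/
structure InfAt (s : ℂ) (T U : ℝ → ℂ) (T' : ℂ) (U' : ℂ) (t : ℝ) : Prop where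
  hT : HasDerivAt T T' t
  hU : HasDerivAt U U' t
  ne : U t ≠ 0
  curve : U t ^ 4 = (4 * T t ^ 8 - (1 + s * T t ^ 4) ^ 2) * (2 + (2 * s + 5) * T t ^ 4)
  rel : 4 * U t ^ 3 * U' = (32 * T t ^ 7 - 8 * s * T t ^ 3 * (1 + s * T t ^ 4)) *
    (2 + (2 * s + 5) * T t ^ 4) * T' + (4 * T t ^ 8 - (1 + s * T t ^ 4) ^ 2) *
    (4 * (2 * s + 5) * T t ^ 3) * T'

lemma InfAt.DI_ne (p : InfAt s T U T' U' t) : DI s (T t) ≠ 0 := by
  intro h
  apply p.ne
  have h1 := p.curve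
  unfold DI at h
  have h2 : U t ^ 4 = 0 := by
    rw [h1]
    linear_combination (-(2 + (2 * s + 5) * T t ^ 4)) * h
  exact pow_eq_zero_iff (four_ne_zero) |>.1 h2

lemma InfAt.hD (p : InfAt s T U T' U' t) : HasDerivAt (fun t => DI s (T t))
    ((8 * s * T t ^ 3 * (1 + s * T t ^ 4) - 32 * T t ^ 7) * T') t := by
  unfold DI
  refine ((((p.hT.fun_pow 4).const_mul s).const_add 1).fun_pow 2 |>.fun_sub
    ((p.hT.fun_pow 8).const_mul 4)).congr_deriv ?_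
  push_cast
  ring

lemma chartI1 {g : ℝ → ℂ} (p : InfAt s T U T' U' t)
    (hg : g t * U t ^ 3 = -2 * I * (1 + (s + 4) * T t ^ 4) * T') :
    ChartAt (fun t => U t ^ 2 * T t ^ 2 / DI s (T t))
      (fun t => -2 * I * U t * T t * (1 + (s + 1) * T t ^ 4) / DI s (T t)) g t := by
  have hc := p.curve
  have hr := p.rel
  have hu3 : U t ^ 3 ≠ 0 := pow_ne_zero 3 p.ne
  refine ChartAt.mk' rfl rfl ((p.hU.fun_pow 2).fun_mul (p.hT.fun_pow 2))
    ((((p.hU.const_mul (-2 * I)).fun_mul p.hT)).fun_mul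
      (((p.hT.fun_pow 4).const_mul (s + 1)).const_add 1)) p.hD p.DI_ne ?_ ?_
  · apply mul_left_cancel₀ hu3
    unfold DI
    push_cast
    linear_combination (U t * T t ^ 2 * ((1 + s * T t ^ 4) ^ 2 - 4 * T t ^ 8) / 2) * hr +
      (2 * U t * T t * T' * ((1 + s * T t ^ 4) ^ 2 - 4 * T t ^ 8) - U t * T t ^ 2 *
        ((8 * s * T t ^ 3 * (1 + s * T t ^ 4) - 32 * T t ^ 7) * T')) * hc -
      (4 * U t * T t * T' * ((1 + s * T t ^ 4) ^ 2 - 4 * T t ^ 8) * (1 + (s + 1) * T t ^ 4) *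
        (1 + (s + 4) * T t ^ 4)) * Complex.I_sq + 
      (2 * I * U t * T t * (1 + (s + 1) * T t ^ 4) * ((1 + s * T t ^ 4) ^ 2 - 4 * T t ^ 8)) * hg
  · apply mul_left_cancel₀ hu3
    unfold DI
    push_cast
    linear_combination (-2 * I * T t * (1 + (s + 1) * T t ^ 4) *
        ((1 + s * T t ^ 4) ^ 2 - 4 * T t ^ 8) / 4) * hr +
      (-2 * I * (T' * (1 + 5 * (s + 1) * T t ^ 4) * ((1 + s * T t ^ 4) ^ 2 - 4 * T t ^ 8) -
        T t * (1 + (s + 1) * T t ^ 4) *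
        ((8 * s * T t ^ 3 * (1 + s * T t ^ 4) - 32 * T t ^ 7) * T')) -
        (6 * T t ^ 4) * (-2 * I) * (1 + (s + 4) * T t ^ 4) * T') * hc -
      (6 * (U t ^ 2 * T t ^ 2) ^ 2 - 2 * ((1 + s * T t ^ 4) ^ 2 - 4 * T t ^ 8) ^ 2) * hg

lemma chartI2 {g : ℝ → ℂ} (p : InfAt s T U T' U' t)
    (hg : g t * U t ^ 3 = 2 * (I * ρ) * (1 + (s + 1) * T t ^ 4) * T') :
    ChartAt (fun t => 2 * (U t ^ 2 * T t ^ 2) / DI s (T t))
      (fun t => 2 * (I * ρ) * U t * T t * (1 + (s + 4) * T t ^ 4) / DI s (T t)) g t := by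
  have hc := p.curve
  have hr := p.rel
  have hu3 : U t ^ 3 ≠ 0 := pow_ne_zero 3 p.ne
  refine ChartAt.mk' rfl rfl (((p.hU.fun_pow 2).fun_mul (p.hT.fun_pow 2)).const_mul 2)
    ((((p.hU.const_mul (2 * (I * ρ))).fun_mul p.hT)).fun_mul
      (((p.hT.fun_pow 4).const_mul (s + 4)).const_add 1)) p.hD p.DI_ne ?_ ?_
  · apply mul_left_cancel₀ hu3
    unfold DI
    push_cast
    linear_combination (2 * (U t * T t ^ 2 * ((1 + s * T t ^ 4) ^ 2 - 4 * T t ^ 8) / 2)) * hr +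
      2 * (2 * U t * T t * T' * ((1 + s * T t ^ 4) ^ 2 - 4 * T t ^ 8) - U t * T t ^ 2 *
        ((8 * s * T t ^ 3 * (1 + s * T t ^ 4) - 32 * T t ^ 7) * T')) * hc -
      (8 * U t * T t * T' * ((1 + s * T t ^ 4) ^ 2 - 4 * T t ^ 8) * (1 + (s + 1) * T t ^ 4) *
        (1 + (s + 4) * T t ^ 4)) * Complex.I_sq - 
      (4 * I ^ 2 * U t * T t * T' * ((1 + s * T t ^ 4) ^ 2 - 4 * T t ^ 8) *
        (1 + (s + 1) * T t ^ 4) * (1 + (s + 4) * T t ^ 4)) * ρ_sq -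
      (2 * (I * ρ) * U t * T t * (1 + (s + 4) * T t ^ 4) *
        ((1 + s * T t ^ 4) ^ 2 - 4 * T t ^ 8)) * hg
  · apply mul_left_cancel₀ hu3
    unfold DI
    push_cast
    linear_combination (2 * (I * ρ) * T t * (1 + (s + 4) * T t ^ 4) *
        ((1 + s * T t ^ 4) ^ 2 - 4 * T t ^ 8) / 4) * hr +
      (2 * (I * ρ) * (T' * (1 + 5 * (s + 4) * T t ^ 4) * ((1 + s * T t ^ 4) ^ 2 - 4 * T t ^ 8) -
        T t * (1 + (s + 4) * T t ^ 4) *
        ((8 * s * T t ^ 3 * (1 + s * T t ^ 4) - 32 * T t ^ 7) * T')) -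
        (24 * T t ^ 4) * (2 * (I * ρ)) * (1 + (s + 1) * T t ^ 4) * T') * hc -
      (6 * (2 * (U t ^ 2 * T t ^ 2)) ^ 2 - 2 * ((1 + s * T t ^ 4) ^ 2 - 4 * T t ^ 8) ^ 2) * hg

end infinity

end Pool.Agent.R946.AP
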