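import Pool.Agent.R946.AP.Arc

/-!
# Distinct zeros collide at the boundary of the family
-/

set_option autoImplicit false

open Filter Set MeasureTheory
open scoped Topology

noncomputable section

namespace Pool.Agent.R946.AP

open Complex (I)

lemma integral_norm_le {h : ℝ → ℂ} {ε : ℝ} (hh : Continuous h)
    (hb : ∀ t ∈ Icc (0 : ℝ) 1, ‖h t‖ ≤ ε) : ∫ t in (0 : ℝ)..1, ‖h t‖ ≤ ε := by
  have h1 : ∫ t in (0 : ℝ)..1, ‖h t‖ ≤ ∫ t in (0 : ℝ)..1, ε :=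
    intervalIntegral.integral_mono_on zero_le_one (hh.norm.intervalIntegrable _ _)
      (continuous_const.intervalIntegrable _ _) hb
  simpa using h1

lemma norm_le_of_pow {x y : ℝ} (hy : 0 ≤ y) (h : x ^ 4 ≤ y ^ 4) : x ≤ y :=
  le_of_pow_le_pow_left₀ (by norm_num) hy h

/-- near a root of `f` two zeros are joined by a short path -/
theorem short_root {a b d : ℂ} (hf : ∀ q, f q = -2 * (q - a) * (q - b) * (q - d)) (hab : a ≠ b)
    (had : a ≠ d) {ε : ℝ} (hε : 0 < ε) : ∃ δ > 0, ∀ s : ℂ, f s ≠ 0 → ‖s - a‖ < δ →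
      ∃ (p q : Pt) (J : ℂ) (ℓ : ℝ), p ≠ q ∧ IsZero p ∧ IsZero q ∧ Path s p q J ℓ ∧ ℓ < ε := by
  set mb : ℝ := ‖a - b‖ / 2 with hmb
  set md : ℝ := ‖a - d‖ / 2 with hmd
  have hmb0 : 0 < mb := by
    rw [hmb]
    exact half_pos (norm_pos_iff.2 (sub_ne_zero.2 hab))
  have hmd0 : 0 < md := by
    rw [hmd]
    exact half_pos (norm_pos_iff.2 (sub_ne_zero.2 had))
  set m : ℝ := 2 * mb * md with hm
  have hm0 : 0 < m := by positivity
  refine ⟨min (min mb md) ((ε / 4) ^ 4 * m ^ 3 / 256), by positivity, ?_⟩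
  intro s hs hsa
  have hδ1 : ‖s - a‖ < mb := hsa.trans_le ((min_le_left _ _).trans (min_le_left _ _))
  have hδ2 : ‖s - a‖ < md := hsa.trans_le ((min_le_left _ _).trans (min_le_right _ _))
  have hδ3 : ‖s - a‖ < (ε / 4) ^ 4 * m ^ 3 / 256 := hsa.trans_le (min_le_right _ _)
  obtain ⟨Y₀, hY₀⟩ := IsAlgClosed.exists_pow_nat_eq (f s) (n := 4) (by norm_num)
  have hY₀0 : Y₀ ≠ 0 := by
    intro h
    apply hs
    rw [← hY₀, h]
    norm_num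
  obtain ⟨R, hR⟩ := IsAlgClosed.exists_pow_nat_eq (a - s) (n := 2) (by norm_num)
  have hR2 : ‖R‖ ^ 2 = ‖s - a‖ := by
    rw [← norm_pow, hR, norm_sub_rev]
  have hR0 : 0 < ‖R‖ := by
    rw [norm_pos_iff]
    intro h
    rw [h] at hR
    apply hs
    rw [hf]
    have : s - a = 0 := by linear_combination hR
    rw [this]
    ring
  obtain ⟨r, hr⟩ : ∃ r : ℝ → ℂ, ∀ t : ℝ, r t = R * (1 - (1 - (t : ℂ)) ^ 4) := ⟨_, fun t => rfl⟩
  have hrd : ∀ t : ℝ, HasDerivAt r (R * ((1 - t) ^ 3 * (-4 * (0 * t - 1) + (1 - t) * 0))) t := by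
    intro t
    have h1 : HasDerivAt (fun t : ℝ => (1 - (t : ℂ)) ^ 4) _ t :=
      ((hasDerivAt_coe t).const_sub 1).fun_pow 4
    rw [show r = fun t : ℝ => R * (1 - (1 - (t : ℂ)) ^ 4) from funext hr]
    refine ((h1.const_sub 1).const_mul R).congr_deriv ?_
    push_cast
    ring
  have hr0 : r 0 = 0 := by
    rw [hr]
    push_cast
    ring
  -- bounds
  have hz : ∀ t ∈ Icc (0 : ℝ) 1, 0 ≤ 1 - (1 - t) ^ 4 ∧ 1 - (1 - t) ^ 4 ≤ 1 := by
    intro t ht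
    have h1 : 0 ≤ 1 - t := by linarith [ht.2]
    have h2 : 1 - t ≤ 1 := by linarith [ht.1]
    have h3 : (1 - t) ^ 4 ≤ 1 := pow_le_one₀ h1 h2
    have h4 : 0 ≤ (1 - t) ^ 4 := by positivity
    exact ⟨by linarith, by linarith⟩
  have hrn : ∀ t ∈ Icc (0 : ℝ) 1, ‖r t‖ ≤ ‖R‖ ∧ ‖R‖ ≤ ‖r t + R‖ ∧
      mb ≤ ‖r t ^ 2 + s - b‖ ∧ md ≤ ‖r t ^ 2 + s - d‖ := by
    intro t ht
    obtain ⟨h1, h2⟩ := hz t ht
    set z : ℝ := 1 - (1 - t) ^ 4 with hzdef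
    have e1 : r t = R * (z : ℂ) := by
      rw [hr, hzdef]
      push_cast
      ring
    have e2 : r t + R = R * ((z + 1 : ℝ) : ℂ) := by
      rw [e1]
      push_cast
      ring
    have e3 : ‖r t ^ 2 + s - a‖ ≤ ‖s - a‖ := by
      have : r t ^ 2 + s - a = (s - a) * ((1 - z ^ 2 : ℝ) : ℂ) := by
        rw [e1]
        push_cast
        linear_combination (z : ℂ) ^ 2 * hR
      rw [this, norm_mul, Complex.norm_real, Real.norm_eq_abs]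
      have h3 : |1 - z ^ 2| ≤ 1 := by
        rw [abs_le]
        constructor
        · nlinarith
        · nlinarith
      calc ‖s - a‖ * |1 - z ^ 2| ≤ ‖s - a‖ * 1 := by gcongr
        _ = ‖s - a‖ := mul_one _
    refine ⟨?_, ?_, ?_, ?_⟩
    · rw [e1, norm_mul, Complex.norm_real, Real.norm_eq_abs, abs_of_nonneg h1]
      nlinarith [hR0.le]
    · rw [e2, norm_mul, Complex.norm_real, Real.norm_eq_abs, abs_of_nonneg (by linarith)]
      nlinarith [hR0.le]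
    · have h4 : ‖a - b‖ ≤ ‖r t ^ 2 + s - b‖ + ‖r t ^ 2 + s - a‖ := by
        have : a - b = (r t ^ 2 + s - b) - (r t ^ 2 + s - a) := by ring
        rw [this]
        exact norm_sub_le _ _
      have h5 : ‖a - b‖ = 2 * mb := by rw [hmb]; ring
      linarith
    · have h4 : ‖a - d‖ ≤ ‖r t ^ 2 + s - d‖ + ‖r t ^ 2 + s - a‖ := by
        have : a - d = (r t ^ 2 + s - d) - (r t ^ 2 + s - a) := by ring
        rw [this]
        exact norm_sub_le _ _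
      have h5 : ‖a - d‖ = 2 * md := by rw [hmd]; ring
      linarith
  have hHlow : ∀ t ∈ Icc (0 : ℝ) 1, m * ‖R‖ ^ 2 ≤ ‖(0 * (t : ℂ) - 1) * R * (r t + R) *
      (-2 * (r t ^ 2 + s - b) * (r t ^ 2 + s - d))‖ := by
    intro t ht
    obtain ⟨h1, h2, h3, h4⟩ := hrn t ht
    have e1 : ‖(0 * (t : ℂ) - 1) * R * (r t + R) *
      (-2 * (r t ^ 2 + s - b) * (r t ^ 2 + s - d))‖ =
        ‖R‖ * ‖r t + R‖ * (2 * ‖r t ^ 2 + s - b‖ * ‖r t ^ 2 + s - d‖) := by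
      rw [norm_mul, norm_mul, norm_mul, norm_mul, norm_mul, zero_mul, zero_sub, norm_neg, norm_one,
        one_mul, norm_neg, RCLike.norm_ofNat]
    rw [e1]
    calc m * ‖R‖ ^ 2 = ‖R‖ * ‖R‖ * (2 * mb * md) := by rw [hm]; ring
      _ ≤ ‖R‖ * ‖r t + R‖ * (2 * ‖r t ^ 2 + s - b‖ * ‖r t ^ 2 + s - d‖) := by gcongr
  obtain ⟨E, hE0, hEne, hE4, hp⟩ := arc_core (κ := 0) hf hR hr0 hrd (fun t => by
    rw [hr]
    ring) (fun t ht => by
    rw [← norm_pos_iff]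
    refine lt_of_lt_of_le ?_ (hHlow t ht)
    positivity) hY₀
  have hbound : ∀ t ∈ Icc (0 : ℝ) 1,
      ‖r t * (R * (-4 * (0 * (t : ℂ) - 1) + (1 - t) * 0)) / E t ^ 3‖ ≤ ε / 4 := by
    intro t ht
    obtain ⟨h1, -, -, -⟩ := hrn t ht
    have h2 := hHlow t ht
    rw [← hE4 t ht, norm_pow] at h2
    have hE : 0 < ‖E t‖ := norm_pos_iff.2 (hEne t)
    refine norm_le_of_pow (by positivity) ?_
    have e1 : r t * (R * (-4 * (0 * (t : ℂ) - 1) + (1 - t) * 0)) = 4 * (r t * R) := by ring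
    rw [e1, norm_div, norm_mul, norm_mul, norm_pow, RCLike.norm_ofNat, div_pow,
      div_le_iff₀ (by positivity)]
    have h3 : (m * ‖R‖ ^ 2) ^ 3 ≤ (‖E t‖ ^ 3) ^ 4 := by
      calc (m * ‖R‖ ^ 2) ^ 3 ≤ (‖E t‖ ^ 4) ^ 3 := by gcongr
        _ = (‖E t‖ ^ 3) ^ 4 := by ring
    calc (4 * (‖r t‖ * ‖R‖)) ^ 4 ≤ (4 * (‖R‖ * ‖R‖)) ^ 4 := by gcongr
      _ = 256 * ‖R‖ ^ 2 * (‖R‖ ^ 2) ^ 3 := by ring
      _ ≤ ((ε / 4) ^ 4 * m ^ 3) * (‖R‖ ^ 2) ^ 3 := by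
          have : 256 * ‖R‖ ^ 2 ≤ (ε / 4) ^ 4 * m ^ 3 := by
            rw [hR2]
            linarith
          gcongr
      _ = (ε / 4) ^ 4 * (m * ‖R‖ ^ 2) ^ 3 := by ring
      _ ≤ (ε / 4) ^ 4 * (‖E t‖ ^ 3) ^ 4 := by gcongr
  have hY0' : (fun t : ℝ => (1 - (t : ℂ)) * E t) 0 = Y₀ := by
    show (1 - ((0 : ℝ) : ℂ)) * E 0 = Y₀
    rw [hE0, Complex.ofReal_zero]
    ring
  have hY1' : (fun t : ℝ => (1 - (t : ℂ)) * E t) 1 = 0 := by
    show (1 - ((1 : ℝ) : ℂ)) * E 1 = 0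
    rw [Complex.ofReal_one]
    ring
  obtain ⟨-, hpath⟩ := path_of_arc hp hr0 hY0' hY1'
  refine ⟨_, _, _, _, ?_, isZero_zero _, isZero_zero _, hpath, ?_⟩
  · intro h
    have h1 : Y₀ = I * Y₀ := (Pt.affine.inj h).2
    have h2 : (1 - I) * Y₀ = 0 := by linear_combination h1
    rcases mul_eq_zero.1 h2 with h3 | h3
    · have := congrArg Complex.re h3
      simp at this
    · exact hY₀0 h3
  · have := integral_norm_le hp.continuous_h hbound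
    linarith

/-- near infinity a zero with `r = 0` and a zero at infinity are joined by a short path -/
theorem short_infinity {ε : ℝ} (hε : 0 < ε) : ∃ M : ℝ, ∀ s : ℂ, M < ‖s‖ →
      ∃ (p q : Pt) (J : ℂ) (ℓ : ℝ), p ≠ q ∧ IsZero p ∧ IsZero q ∧ Path s p q J ℓ ∧ ℓ < ε := by
  refine ⟨max 10 (max (16 / ε) (8 * (4 / ε) ^ 4)), ?_⟩
  intro s hsM
  have hs10 : 10 < ‖s‖ := (le_max_left _ _).trans_lt hsM
  have hs1 : 16 / ε < ‖s‖ := ((le_max_left _ _).trans (le_max_right _ _)).trans_lt hsM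
  have hs2 : 8 * (4 / ε) ^ 4 < ‖s‖ := ((le_max_right _ _).trans (le_max_right _ _)).trans_lt hsM
  have hs0 : s ≠ 0 := by
    intro h
    rw [h, norm_zero] at hs10
    linarith
  obtain ⟨T, hT⟩ := IsAlgClosed.exists_pow_nat_eq (s⁻¹) (n := 4) (by norm_num)
  have hTs : T ^ 4 * s = 1 := by
    rw [hT]
    exact inv_mul_cancel₀ hs0
  have hT0 : T ≠ 0 := by
    intro h
    rw [h] at hTs
    norm_num at hTs
  have hTn : ‖T‖ ^ 4 * ‖s‖ = 1 := by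
    rw [← norm_pow, ← norm_mul, hTs, norm_one]
  have hT1 : ‖T‖ ≤ 1 := by
    by_contra hcon
    have h1 := not_le.1 hcon
    have h2 : 1 < ‖T‖ ^ 4 := one_lt_pow₀ h1 (by norm_num)
    nlinarith
  have hofR : ContDiff ℝ 1 fun t : ℝ => (t : ℂ) := Complex.ofRealCLM.contDiff
  -- the piece at infinity
  have hPC : ContDiff ℝ 1 fun t : ℝ => (4 * ((t : ℂ) * T) ^ 8 - (1 + s * ((t : ℂ) * T) ^ 4) ^ 2) *
      (2 + (2 * s + 5) * ((t : ℂ) * T) ^ 4) := by fun_prop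
  have hPlow : ∀ t ∈ Icc (0 : ℝ) 1, 1 / 2 ≤ ‖(4 * ((t : ℂ) * T) ^ 8 -
      (1 + s * ((t : ℂ) * T) ^ 4) ^ 2) * (2 + (2 * s + 5) * ((t : ℂ) * T) ^ 4)‖ := by
    intro t ht
    have hTp : ‖T ^ 4‖ ≤ 1 / 10 := by
      rw [norm_pow]
      have : ‖T‖ ^ 4 * 10 ≤ ‖T‖ ^ 4 * ‖s‖ := by gcongr
      linarith
    have ht4 : t ^ 4 ≤ 1 := pow_le_one₀ ht.1 ht.2
    have ht4' : 0 ≤ t ^ 4 := by have := ht.1; positivity
    have e1 : 4 * ((t : ℂ) * T) ^ 8 - (1 + s * ((t : ℂ) * T) ^ 4) ^ 2 =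
        4 * ((t ^ 8 : ℝ) : ℂ) * (T ^ 4) ^ 2 - (((1 + t ^ 4) ^ 2 : ℝ) : ℂ) := by
      push_cast
      linear_combination (-(t : ℂ) ^ 4 * (2 + (t : ℂ) ^ 4 * (1 + s * T ^ 4))) * hTs
    have e2 : 2 + (2 * s + 5) * ((t : ℂ) * T) ^ 4 =
        ((2 + 2 * t ^ 4 : ℝ) : ℂ) + 5 * ((t ^ 4 : ℝ) : ℂ) * T ^ 4 := by
      push_cast
      linear_combination (2 * (t : ℂ) ^ 4) * hTs
    have h1 : (1 / 2 : ℝ) ≤ ‖4 * ((t : ℂ) * T) ^ 8 - (1 + s * ((t : ℂ) * T) ^ 4) ^ 2‖ := by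
      rw [e1]
      have h2 : ‖(((1 + t ^ 4) ^ 2 : ℝ) : ℂ)‖ ≤ ‖4 * ((t ^ 8 : ℝ) : ℂ) * (T ^ 4) ^ 2 -
          (((1 + t ^ 4) ^ 2 : ℝ) : ℂ)‖ + ‖4 * ((t ^ 8 : ℝ) : ℂ) * (T ^ 4) ^ 2‖ := by
        have := norm_sub_le (4 * ((t ^ 8 : ℝ) : ℂ) * (T ^ 4) ^ 2)
          (4 * ((t ^ 8 : ℝ) : ℂ) * (T ^ 4) ^ 2 - (((1 + t ^ 4) ^ 2 : ℝ) : ℂ))
        rw [sub_sub_cancel] at this
        linarith
      have h3 : ‖4 * ((t ^ 8 : ℝ) : ℂ) * (T ^ 4) ^ 2‖ ≤ 4 * 1 * (1 / 10) ^ 2 := by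
        rw [norm_mul, norm_mul, norm_pow, RCLike.norm_ofNat, Complex.norm_real, Real.norm_eq_abs,
          abs_of_nonneg (by have := ht.1; positivity)]
        have : t ^ 8 ≤ 1 := pow_le_one₀ ht.1 ht.2
        gcongr
      have h4 : ‖(((1 + t ^ 4) ^ 2 : ℝ) : ℂ)‖ = (1 + t ^ 4) ^ 2 := by
        rw [Complex.norm_real, Real.norm_eq_abs, abs_of_nonneg (by positivity)]
      rw [h4] at h2
      nlinarith
    have h2 : (1 : ℝ) ≤ ‖2 + (2 * s + 5) * ((t : ℂ) * T) ^ 4‖ := by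
      rw [e2]
      have h3 : ‖((2 + 2 * t ^ 4 : ℝ) : ℂ)‖ ≤ ‖((2 + 2 * t ^ 4 : ℝ) : ℂ) +
          5 * ((t ^ 4 : ℝ) : ℂ) * T ^ 4‖ + ‖5 * ((t ^ 4 : ℝ) : ℂ) * T ^ 4‖ := by
        have := norm_sub_le (((2 + 2 * t ^ 4 : ℝ) : ℂ) + 5 * ((t ^ 4 : ℝ) : ℂ) * T ^ 4)
          (5 * ((t ^ 4 : ℝ) : ℂ) * T ^ 4)
        rwa [add_sub_cancel_right] at this
      have h4 : ‖5 * ((t ^ 4 : ℝ) : ℂ) * T ^ 4‖ ≤ 5 * 1 * (1 / 10) := by
        rw [norm_mul, norm_mul, RCLike.norm_ofNat, Complex.norm_real, Real.norm_eq_abs,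
          abs_of_nonneg ht4']
        gcongr
      have h5 : ‖((2 + 2 * t ^ 4 : ℝ) : ℂ)‖ = 2 + 2 * t ^ 4 := by
        rw [Complex.norm_real, Real.norm_eq_abs, abs_of_nonneg (by positivity)]
      rw [h5] at h3
      linarith
    rw [norm_mul]
    calc (1 / 2 : ℝ) = 1 / 2 * 1 := by norm_num
      _ ≤ _ := by gcongr
  obtain ⟨u₀, hu₀⟩ := IsAlgClosed.exists_pow_nat_eq ((fun t : ℝ => (4 * ((t : ℂ) * T) ^ 8 -
    (1 + s * ((t : ℂ) * T) ^ 4) ^ 2) * (2 + (2 * s + 5) * ((t : ℂ) * T) ^ 4)) 0) (n := 4) (by norm_num)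
  obtain ⟨u, huC, -, hune, hu4⟩ := exists_root hPC (fun t ht => by
    rw [← norm_pos_iff]
    have := hPlow t ht
    linarith) hu₀
  have huc : Continuous u := huC.continuous
  have hinf : InfinitePath s (fun t => t * T) u (fun t => -2 * (t * T) ^ 4 * T / u t ^ 3) := by
    refine ⟨by fun_prop, huC, ?_, hu4, fun t _ => hune t, ?_⟩
    · exact Continuous.div (by fun_prop) (by fun_prop) fun t => pow_ne_zero 3 (hune t)
    · intro t ht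
      have h1 : HasDerivAt (fun t : ℝ => (t : ℂ) * T) (1 * T) t := (hasDerivAt_coe t).mul_const T
      rw [h1.deriv]
      have h2 := hune t
      field_simp
  have hb1 : ∀ t ∈ Icc (0 : ℝ) 1, ‖-2 * ((t : ℂ) * T) ^ 4 * T / u t ^ 3‖ ≤ ε / 4 := by
    intro t ht
    have h1 := hPlow t ht
    rw [← hu4 t ht, norm_pow] at h1
    have hu0 : 0 < ‖u t‖ := norm_pos_iff.2 (hune t)
    have h2 : (1 / 2 : ℝ) ≤ ‖u t‖ ^ 3 := by
      by_contra hcon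
      have h3 := not_le.1 hcon
      by_cases h4 : ‖u t‖ ≤ 1
      · have h5 : ‖u t‖ ^ 4 ≤ ‖u t‖ ^ 3 := pow_le_pow_of_le_one hu0.le h4 (by norm_num)
        linarith
      · have h5 : 1 < ‖u t‖ ^ 3 := one_lt_pow₀ (not_le.1 h4) (by norm_num)
        linarith
    have ht4 : t ^ 4 ≤ 1 := pow_le_one₀ ht.1 ht.2
    have ht0 := ht.1
    have e1 : ‖-2 * ((t : ℂ) * T) ^ 4 * T‖ = 2 * (t ^ 4 * ‖T‖ ^ 4) * ‖T‖ := by
      rw [norm_mul, norm_mul, norm_pow, norm_mul, norm_neg, RCLike.norm_ofNat, Complex.norm_real,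
        Real.norm_eq_abs, abs_of_nonneg ht0, mul_pow]
    rw [norm_div, norm_pow, e1, div_le_iff₀ (by positivity)]
    have h3 : ‖T‖ ^ 4 ≤ ε / 16 := by
      have h4 : 16 / ε * ‖T‖ ^ 4 ≤ ‖s‖ * ‖T‖ ^ 4 := by gcongr
      have h5 : ‖s‖ * ‖T‖ ^ 4 = 1 := by linarith
      rw [h5, div_mul_eq_mul_div, div_le_one hε] at h4
      linarith
    calc 2 * (t ^ 4 * ‖T‖ ^ 4) * ‖T‖ ≤ 2 * (1 * (ε / 16)) * 1 := by gcongr
      _ = ε / 4 * (1 / 2) := by ring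
      _ ≤ ε / 4 * ‖u t‖ ^ 3 := by gcongr
  -- the affine piece
  have hcv1 := hu4 1 (right_mem_Icc.2 zero_le_one)
  have hcv1' : u 1 ^ 4 = (4 * T ^ 8 - (1 + s * T ^ 4) ^ 2) * (2 + (2 * s + 5) * T ^ 4) := by
    rw [hcv1]
    push_cast
    ring
  have hY₁ : (u 1 / T ^ 3) ^ 4 = f ((1 / T ^ 2) ^ 2 + s) := by
    have h1 := onCurve_nearInfinity hcv1'
    unfold nearInfinity at h1
    rw [if_neg hT0] at h1
    exact h1
  have hR : (1 / T ^ 2) ^ 2 = s := by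
    field_simp
    linear_combination -hTs
  obtain ⟨r, hr⟩ : ∃ r : ℝ → ℂ, ∀ t : ℝ, r t = (1 - (t : ℂ)) * (1 / T ^ 2) := ⟨_, fun t => rfl⟩
  have hrd : ∀ t : ℝ, HasDerivAt r (-(1 / T ^ 2)) t := by
    intro t
    rw [show r = fun t : ℝ => (1 - (t : ℂ)) * (1 / T ^ 2) from funext hr]
    refine (((hasDerivAt_coe t).const_sub 1).mul_const _).congr_deriv ?_
    ring
  have hrC : ContDiff ℝ 1 r := contDiff_one_of hrd (by fun_prop)
  have hrc : Continuous r := hrC.continuous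
  have hr0 : r 0 = 1 / T ^ 2 := by
    rw [hr, Complex.ofReal_zero]
    ring
  have hr1 : r 1 = 0 := by
    rw [hr, Complex.ofReal_one]
    ring
  have hflow : ∀ t ∈ Icc (0 : ℝ) 1, ‖s‖ ^ 3 / 2 ≤ ‖f (r t ^ 2 + s)‖ := by
    intro t ht
    have e1 : r t ^ 2 + s = s * ((1 + (1 - t) ^ 2 : ℝ) : ℂ) := by
      rw [hr, mul_pow, hR]
      push_cast
      ring
    have e2 : ‖s‖ ≤ ‖r t ^ 2 + s‖ := by
      rw [e1, norm_mul, Complex.norm_real, Real.norm_eq_abs, abs_of_nonneg (by positivity)]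
      nlinarith [sq_nonneg (1 - t), norm_nonneg s]
    set q := r t ^ 2 + s with hq
    unfold f
    rw [norm_mul]
    have h1 : ‖q‖ ^ 2 - 4 ≤ ‖4 - q ^ 2‖ := by
      have := norm_sub_norm_le (q ^ 2) 4
      rw [norm_pow, RCLike.norm_ofNat, norm_sub_rev] at this
      exact this
    have h2 : 2 * ‖q‖ - 5 ≤ ‖2 * q + 5‖ := by
      have := norm_sub_norm_le (2 * q) (-5)
      rw [norm_mul, norm_neg, RCLike.norm_ofNat, RCLike.norm_ofNat, sub_neg_eq_add] at this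
      exact this
    have h3 : ‖s‖ ^ 2 / 2 ≤ ‖4 - q ^ 2‖ := by nlinarith
    have h4 : ‖s‖ ≤ ‖2 * q + 5‖ := by linarith
    calc ‖s‖ ^ 3 / 2 = ‖s‖ ^ 2 / 2 * ‖s‖ := by ring
      _ ≤ _ := by gcongr
  have hfC : ContDiff ℝ 1 fun t : ℝ => f (r t ^ 2 + s) := by
    unfold f
    fun_prop
  obtain ⟨Y, hYC, hY0, hYne, hY4⟩ := exists_root hfC (fun t ht => by
    rw [← norm_pos_iff]
    have := hflow t ht
    have h2 : 0 < ‖s‖ ^ 3 / 2 := by positivity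
    linarith) (E₀ := u 1 / T ^ 3) (by
    show _ = f (r 0 ^ 2 + s)
    rw [hY₁, hr0])
  have hYc : Continuous Y := hYC.continuous
  have haff : AffinePath s r Y (fun t => -(r t * (1 / T ^ 2)) / Y t ^ 3) := by
    refine AffinePath.mk' hrC hYC ?_ hY4 ?_ fun t _ => hYne t
    · exact Continuous.div (by fun_prop) (by fun_prop) fun t => pow_ne_zero 3 (hYne t)
    · intro t ht
      rw [(hrd t).deriv]
      have h2 := hYne t
      field_simp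
  have hb2 : ∀ t ∈ Icc (0 : ℝ) 1, ‖-(r t * (1 / T ^ 2)) / Y t ^ 3‖ ≤ ε / 4 := by
    intro t ht
    have hY : 0 < ‖Y t‖ := norm_pos_iff.2 (hYne t)
    have h1 := hflow t ht
    rw [← hY4 t ht, norm_pow] at h1
    have e1 : ‖r t * (1 / T ^ 2)‖ ≤ ‖s‖ := by
      have : r t * (1 / T ^ 2) = ((1 - t : ℝ) : ℂ) * s := by
        rw [hr]
        push_cast
        linear_combination (1 - (t : ℂ)) * hR
      rw [this, norm_mul, Complex.norm_real, Real.norm_eq_abs, abs_of_nonneg (by linarith [ht.2])]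
      nlinarith [ht.1, norm_nonneg s]
    refine norm_le_of_pow (by positivity) ?_
    rw [norm_div, norm_neg, norm_pow, div_pow, div_le_iff₀ (by positivity)]
    have hspos : 0 < ‖s‖ := by linarith
    have h3 : (‖s‖ ^ 3 / 2) ^ 3 ≤ (‖Y t‖ ^ 3) ^ 4 := by
      calc (‖s‖ ^ 3 / 2) ^ 3 ≤ (‖Y t‖ ^ 4) ^ 3 := by gcongr
        _ = (‖Y t‖ ^ 3) ^ 4 := by ring
    have h4 : 8 ≤ (ε / 4) ^ 4 * ‖s‖ := by
      have h5 : 8 * (4 / ε) ^ 4 * (ε / 4) ^ 4 = 8 := by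
        field_simp
      nlinarith [pow_pos (by positivity : (0 : ℝ) < ε / 4) 4]
    calc ‖r t * (1 / T ^ 2)‖ ^ 4 ≤ ‖s‖ ^ 4 := by gcongr
      _ = 1 * ‖s‖ ^ 4 := by ring
      _ ≤ ‖s‖ ^ 4 * ‖s‖ ^ 4 := by
          have : (1 : ℝ) ≤ ‖s‖ ^ 4 := one_le_pow₀ (by linarith)
          gcongr
      _ = 8 * (‖s‖ ^ 8 / 8) := by ring
      _ ≤ ((ε / 4) ^ 4 * ‖s‖) * (‖s‖ ^ 8 / 8) := by gcongr
      _ = (ε / 4) ^ 4 * (‖s‖ ^ 3 / 2) ^ 3 := by ring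
      _ ≤ (ε / 4) ^ 4 * (‖Y t‖ ^ 3) ^ 4 := by gcongr
  -- the two pieces together
  have P₁ := Path.infinite hinf
  have P₂ := Path.affine haff
  have e0 : nearInfinity (((0 : ℝ) : ℂ) * T) (u 0) = Pt.infinite (u 0 ^ 2) := by
    unfold nearInfinity
    rw [if_pos (by rw [Complex.ofReal_zero, zero_mul])]
  have e1 : nearInfinity (((1 : ℝ) : ℂ) * T) (u 1) = Pt.affine (1 / T ^ 2) (u 1 / T ^ 3) := by
    rw [Complex.ofReal_one, one_mul]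
    unfold nearInfinity
    rw [if_neg hT0]
  rw [hr0, hY0, hr1] at P₂
  rw [e0, e1] at P₁
  refine ⟨_, _, _, _, ?_, ?_, isZero_zero (Y 1), P₁.trans P₂, ?_⟩
  · intro h
    exact Pt.noConfusion h
  · trivial
  · have i1 := integral_norm_le hinf.continuous_h hb1
    have i2 := integral_norm_le haff.continuous_h hb2
    linarith

/-- outside compact sets of parameters two zeros are joined by short paths -/
theorem short_paths {ε : ℝ} (hε : 0 < ε) : ∃ T : Set ℂ, IsCompact T ∧ (∀ s ∈ T, f s ≠ 0) ∧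
    ∀ s, f s ≠ 0 → s ∉ T →
      ∃ (p q : Pt) (J : ℂ) (ℓ : ℝ), p ≠ q ∧ IsZero p ∧ IsZero q ∧ Path s p q J ℓ ∧ ℓ < ε := by
  have hf1 : ∀ q, f q = -2 * (q - 2) * (q - -2) * (q - -5 / 2) := fun q => by
    unfold f
    ring
  have hf2 : ∀ q, f q = -2 * (q - -2) * (q - 2) * (q - -5 / 2) := fun q => by
    unfold f
    ring
  have hf3 : ∀ q, f q = -2 * (q - -5 / 2) * (q - 2) * (q - -2) := fun q => by
    unfold f
    ring
  obtain ⟨δ₁, hδ₁, h₁⟩ := short_root hf1 (by norm_num) (by norm_num) hε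
  obtain ⟨δ₂, hδ₂, h₂⟩ := short_root hf2 (by norm_num) (by norm_num) hε
  obtain ⟨δ₃, hδ₃, h₃⟩ := short_root hf3 (by norm_num) (by norm_num) hε
  obtain ⟨M, hM⟩ := short_infinity hε
  refine ⟨Metric.closedBall 0 M ∩ ({s | δ₁ ≤ ‖s - 2‖} ∩ ({s | δ₂ ≤ ‖s - -2‖} ∩
    {s | δ₃ ≤ ‖s - -5 / 2‖})), ?_, ?_, ?_⟩
  · refine (isCompact_closedBall 0 M).inter_right ?_
    refine (isClosed_le (by fun_prop) (by fun_prop)).inter
      ((isClosed_le (by fun_prop) (by fun_prop)).inter (isClosed_le (by fun_prop) (by fun_prop)))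
  · rintro s ⟨-, k1, k2, k3⟩ h
    have k1' : δ₁ ≤ ‖s - 2‖ := k1
    have k2' : δ₂ ≤ ‖s - -2‖ := k2
    have k3' : δ₃ ≤ ‖s - -5 / 2‖ := k3
    rw [hf1] at h
    rcases mul_eq_zero.1 h with h | h
    · rcases mul_eq_zero.1 h with h | h
      · rcases mul_eq_zero.1 h with h | h
        · norm_num at h
        · rw [h, norm_zero] at k1'
          linarith
      · rw [h, norm_zero] at k2'
        linarith
    · rw [h, norm_zero] at k3'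
      linarith
  · intro s hs hsT
    by_cases k1 : ‖s - 2‖ < δ₁
    · exact h₁ s hs k1
    by_cases k2 : ‖s - -2‖ < δ₂
    · exact h₂ s hs k2
    by_cases k3 : ‖s - -5 / 2‖ < δ₃
    · exact h₃ s hs k3
    by_cases k4 : M < ‖s‖
    · exact hM s k4
    · exfalso
      apply hsT
      refine ⟨?_, not_lt.1 k1, not_lt.1 k2, not_lt.1 k3⟩
      rw [mem_closedBall_zero_iff]
      exact not_lt.1 k4

end Pool.Agent.R946.AP
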