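import Pool.Agent.R946.AP.Lin

/-!
# Torsion points of `y² = x³ - x` at `2`, and the transcendence argument
-/

set_option autoImplicit false

open Filter Set MeasureTheory
open scoped Topology PeriodPair

noncomputable section

namespace Pool.Agent.R946.AP

open H667R3 Pool.Agent.W245.EB
open Complex (I)

/-- a valuation of `ℂ` at which `2` is not a unit -/
lemma exists_val : ∃ V : ValuationSubring ℂ, V.valuation 2 < 1 := by
  set A : Subring ℂ := (Int.castRingHom ℂ).range with hA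
  set J : Ideal A := Ideal.span {(2 : A)} with hJ
  have hJ1 : J ≠ ⊤ := by
    intro h
    have h1 : (1 : A) ∈ J := by
      rw [h]
      exact Submodule.mem_top
    rw [hJ, Ideal.mem_span_singleton] at h1
    obtain ⟨⟨x, n, hn⟩, hx⟩ := h1
    have h2 : (1 : ℂ) = 2 * x := congrArg Subtype.val hx
    rw [← hn] at h2
    have h3 : (1 : ℤ) = 2 * n := by
      have h4 : (Int.castRingHom ℂ) n = (n : ℂ) := rfl
      rw [h4] at h2
      exact_mod_cast h2
    omega
  obtain ⟨V, -, hV⟩ := Ideal.image_subset_nonunits_valuationSubring J hJ1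
  refine ⟨V, ?_⟩
  have h2 : (2 : ℂ) ∈ V.nonunits := hV ⟨2, Ideal.subset_span rfl, rfl⟩
  exact h2

section

variable {c : ℂ} {hc : c ≠ 0}

/-- duplication on `y² = x³ - x` -/
lemma wp_two_sq (hg2 : (sq c hc).g₂ = 4) {z : ℂ} (hz : 2 * z ∉ (sq c hc).lattice) :
    ℘[sq c hc] (2 * z) * (4 * (℘[sq c hc] z ^ 3 - ℘[sq c hc] z)) = (℘[sq c hc] z ^ 2 + 1) ^ 2 := by
  have hz0 := two_mul_notMem_of (sq c hc) hz
  have h1 := wp_two (sq c hc) hz
  have h2 := wp_sq_eq hg2 hz0
  have h3 := wp'_ne_zero (sq c hc) hz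
  rw [h1, hg2]
  generalize ℘[sq c hc] z = x at *
  generalize ℘'[sq c hc] z = y at *
  have h4 : 4 * (x ^ 3 - x) = y ^ 2 := by linear_combination -h2
  rw [h4]
  field_simp
  linear_combination (-32 * x) * h2

variable {V : ValuationSubring ℂ}

lemma val_grow (hg2 : (sq c hc).g₂ = 4) (hV : V.valuation 2 < 1) {z : ℂ}
    (hz : z ∉ (sq c hc).lattice) (h : 1 < V.valuation (℘[sq c hc] z)) :
    2 * z ∉ (sq c hc).lattice ∧ V.valuation (℘[sq c hc] z) < V.valuation (℘[sq c hc] (2 * z)) := by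
  have h2 := wp_sq_eq hg2 hz
  have hx0 : ℘[sq c hc] z ≠ 0 := by
    intro h0
    rw [h0, map_zero] at h
    exact absurd h (not_lt.2 zero_le_one)
  have hz2 : 2 * z ∉ (sq c hc).lattice := by
    intro h3
    have h4 := wp'_half_eq_zero (sq c hc) (w := 2 * z) h3
    rw [show 2 * z / 2 = z by ring] at h4
    rw [h4] at h2
    have h5 : ℘[sq c hc] z ^ 2 = 1 := by
      apply mul_left_cancel₀ hx0
      linear_combination (-1 / 4 : ℂ) * h2
    have h6 : V.valuation (℘[sq c hc] z) ^ 2 = 1 := by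
      rw [← map_pow, h5, map_one]
    have h7 : 1 < V.valuation (℘[sq c hc] z) ^ 2 := one_lt_pow₀ h two_ne_zero
    rw [h6] at h7
    exact lt_irrefl _ h7
  refine ⟨hz2, ?_⟩
  have h3 := congrArg V.valuation (wp_two_sq hg2 hz2)
  have h8 : 1 < V.valuation (℘[sq c hc] z ^ 2) := by
    rw [map_pow]
    exact one_lt_pow₀ h two_ne_zero
  have e1 : V.valuation (℘[sq c hc] z ^ 2 + 1) = V.valuation (℘[sq c hc] z) ^ 2 := by
    rw [Valuation.map_add_eq_of_lt_left, map_pow]
    rw [map_one]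
    exact h8
  have e1' : V.valuation (℘[sq c hc] z ^ 2 - 1) = V.valuation (℘[sq c hc] z) ^ 2 := by
    rw [Valuation.map_sub_eq_of_lt_left, map_pow]
    rw [map_one]
    exact h8
  have e2 : V.valuation (℘[sq c hc] z ^ 3 - ℘[sq c hc] z) = V.valuation (℘[sq c hc] z) ^ 3 := by
    rw [show ℘[sq c hc] z ^ 3 - ℘[sq c hc] z = ℘[sq c hc] z * (℘[sq c hc] z ^ 2 - 1) by ring,
      map_mul, e1', ← pow_succ']
  rw [map_mul, map_mul, e2, map_pow, e1] at h3
  have hv0 : V.valuation (℘[sq c hc] z) ≠ 0 := (V.valuation.ne_zero_iff).2 hx0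
  have h4 : V.valuation (℘[sq c hc] (2 * z)) * V.valuation 4 = V.valuation (℘[sq c hc] z) := by
    have h5 : V.valuation (℘[sq c hc] z) ^ 3 ≠ 0 := pow_ne_zero 3 hv0
    apply mul_right_cancel₀ h5
    rw [mul_assoc, h3, ← pow_mul, ← pow_succ']
  have h5 : V.valuation 4 < 1 := by
    rw [show (4 : ℂ) = 2 ^ 2 by norm_num, map_pow]
    exact pow_lt_one₀ zero_le hV two_ne_zero
  by_contra h6
  have h6' := not_lt.1 h6
  have h7 : V.valuation (℘[sq c hc] z) < V.valuation (℘[sq c hc] z) := by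
    calc V.valuation (℘[sq c hc] z) = V.valuation (℘[sq c hc] (2 * z)) * V.valuation 4 := h4.symm
      _ ≤ V.valuation (℘[sq c hc] z) * V.valuation 4 := mul_le_mul_left h6' _
      _ < V.valuation (℘[sq c hc] z) * 1 := by
          exact mul_lt_mul_of_pos_left h5 (zero_lt_iff.2 hv0)
      _ = V.valuation (℘[sq c hc] z) := mul_one _
  exact lt_irrefl _ h7

/-- a torsion point is never big at `2` -/
lemma val_torsion_le (hg2 : (sq c hc).g₂ = 4) (hV : V.valuation 2 < 1) {z : ℂ}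
    (hz : z ∉ (sq c hc).lattice) {N : ℕ} (hN : 0 < N) (hNz : (N : ℂ) * z ∈ (sq c hc).lattice) :
    V.valuation (℘[sq c hc] z) ≤ 1 := by
  by_contra hcon
  have h := not_le.1 hcon
  have key : ∀ n : ℕ, 2 ^ n * z ∉ (sq c hc).lattice ∧ 1 < V.valuation (℘[sq c hc] (2 ^ n * z)) := by
    intro n
    induction n with
    | zero => simpa using And.intro hz h
    | succ n ih =>
      obtain ⟨h1, h2⟩ := val_grow hg2 hV ih.1 ih.2
      rw [show 2 ^ (n + 1) * z = 2 * (2 ^ n * z) by ring]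
      exact ⟨h1, ih.2.trans h2⟩
  have hmono : StrictMono fun n : ℕ => V.valuation (℘[sq c hc] (2 ^ n * z)) := by
    refine strictMono_nat_of_lt_succ fun n => ?_
    have h1 := (val_grow hg2 hV (key n).1 (key n).2).2
    rwa [show 2 * (2 ^ n * z) = 2 ^ (n + 1) * z by ring] at h1
  have : NeZero N := ⟨hN.ne'⟩
  obtain ⟨n, m, hnm, he⟩ := Finite.exists_ne_map_eq_of_infinite fun n : ℕ => (2 : ZMod N) ^ n
  have hval : V.valuation (℘[sq c hc] (2 ^ n * z)) = V.valuation (℘[sq c hc] (2 ^ m * z)) := by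
    have h1 : ((2 ^ n - 2 ^ m : ℤ) : ZMod N) = 0 := by
      push_cast
      exact sub_eq_zero.2 he
    rw [ZMod.intCast_zmod_eq_zero_iff_dvd] at h1
    obtain ⟨k, hk⟩ := h1
    have h2 : (2 ^ n : ℂ) * z = 2 ^ m * z + k * (N * z) := by
      have h3 : ((2 ^ n - 2 ^ m : ℤ) : ℂ) = ((N * k : ℤ) : ℂ) := by rw [hk]
      push_cast at h3
      linear_combination z * h3
    have h4 : (k : ℂ) * (N * z) ∈ (sq c hc).lattice := by
      have := (sq c hc).lattice.smul_mem k hNz
      rwa [zsmul_eq_mul] at this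
    rw [h2, wp_add_lattice _ h4]
  exact hnm (hmono.injective hval)

/-- the `x`-coordinate of a torsion point other than `0` and `(0, 0)` is a unit at `2` -/
lemma val_torsion (hg2 : (sq c hc).g₂ = 4) (hV : V.valuation 2 < 1) {z : ℂ}
    (hz : z ∉ (sq c hc).lattice) (hz0 : ℘[sq c hc] z ≠ 0) {N : ℕ} (hN : 0 < N)
    (hNz : (N : ℂ) * z ∈ (sq c hc).lattice) : V.valuation (℘[sq c hc] z) = 1 := by
  refine le_antisymm (val_torsion_le hg2 hV hz hN hNz) ?_
  have hz' : z + TT c ∉ (sq c hc).lattice := fun h => hz0 ((eq_TT_iff hz).2 h)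
  have hN2 : ((2 * N : ℕ) : ℂ) * (z + TT c) ∈ (sq c hc).lattice := by
    have h1 := nsmul_mem hNz 2
    have h2 := nsmul_mem (two_TT_mem (c := c) (hc := hc)) N
    rw [nsmul_eq_mul] at h1 h2
    have h3 := add_mem h1 h2
    convert h3 using 1
    push_cast
    ring
  have h1 := val_torsion_le hg2 hV hz' (Nat.mul_pos two_pos hN) hN2
  rw [wp_add_TT hg2 hz hz', map_div₀, Valuation.map_neg, map_one, one_div] at h1
  have hv0 : V.valuation (℘[sq c hc] z) ≠ 0 := (V.valuation.ne_zero_iff).2 hz0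
  rwa [inv_le_one₀ (zero_lt_iff.2 hv0)] at h1

/-- two torsion points whose `x`-coordinates differ by a factor two -/
lemma no_torsion (hg2 : (sq c hc).g₂ = 4) {x a b : ℂ} (hx : x ≠ 0)
    (ha : a ∉ (sq c hc).lattice) (hax : ℘[sq c hc] a = x)
    (hb : b ∉ (sq c hc).lattice) (hbx : ℘[sq c hc] b = x / 2) {N M : ℕ} (hN : 0 < N)
    (hNa : (N : ℂ) * a ∈ (sq c hc).lattice) (hM : 0 < M)
    (hMb : (M : ℂ) * b ∈ (sq c hc).lattice) : False := by
  obtain ⟨V, hV⟩ := exists_val
  have h1 := val_torsion hg2 hV ha (by rw [hax]; exact hx) hN hNa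
  have h2 := val_torsion hg2 hV hb (by rw [hbx]; exact div_ne_zero hx two_ne_zero) hM hMb
  rw [hax] at h1
  rw [hbx, map_div₀, h1, one_div] at h2
  have h3 : V.valuation 2 = 1 := by
    rwa [inv_eq_one] at h2
  rw [h3] at hV
  exact lt_irrefl _ hV

end

end Pool.Agent.R946.AP
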