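import Pool.Agent.R946.AP.Shift

/-!
# Lifting of paths on an elliptic curve, in one or two charts
-/

set_option autoImplicit false

open Filter Set
open scoped Topology PeriodPair

noncomputable section

namespace Pool.Agent.R946.AP

open H667R3 Pool.Agent.W245.EB
open Complex (I)

section

variable {c : ℂ} {hc : c ≠ 0}

/-- a path in one chart, seen through its derivatives -/
structure ChartAt (X W g : ℝ → ℂ) (t : ℝ) : Prop where
  hX : HasDerivAt X (W t * g t) t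
  hW : HasDerivAt W ((6 * X t ^ 2 - 2) * g t) t

lemma logA_closed {X W z : ℝ → ℂ} {t : ℝ} {F : Filter ℝ} [F.NeBot] (hF : F ≤ 𝓝 t)
    (hX : ContinuousAt X t) (hW : ContinuousAt W t) (hz : ContinuousAt z t)
    (h : ∀ᶠ x in F, LogA c hc (X x) (W x) (z x)) : LogA c hc (X t) (W t) (z t) := by
  have hX' : Tendsto X F (𝓝 (X t)) := hX.tendsto.mono_left hF
  have hW' : Tendsto W F (𝓝 (W t)) := hW.tendsto.mono_left hF
  have hz' : Tendsto z F (𝓝 (z t)) := hz.tendsto.mono_left hF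
  have h1 : z t ∉ (sq c hc).lattice := by
    refine notMem_of_tendsto (sq c hc) hz' (h.mono fun x hx => hx.1) (v := X t) ?_
    exact hX'.congr' (h.mono fun x hx => hx.2.1.symm)
  refine ⟨h1, ?_, ?_⟩
  · have h2 := ((continuousAt_wp (sq c hc) h1).tendsto.comp hz')
    exact tendsto_nhds_unique h2 (hX'.congr' (h.mono fun x hx => hx.2.1.symm))
  · have h2 := ((continuousAt_wp' (sq c hc) h1).tendsto.comp hz')
    exact tendsto_nhds_unique h2 (hW'.congr' (h.mono fun x hx => hx.2.2.symm))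

lemma logA_open (hg2 : (sq c hc).g₂ = 4) {X W g z D : ℝ → ℂ} {t y : ℝ} (ht : t ∈ Ico (0 : ℝ) 1)
    (hy : t < y) (hD : Continuous D) (hDt : D t ≠ 0)
    (hch : ∀ x ∈ Icc (0 : ℝ) 1, D x ≠ 0 → ChartAt X W g x) (hg : Continuous g)
    (hz : ∀ x, HasDerivAt z (g x) x) (h0 : LogA c hc (X t) (W t) (z t)) :
    ∃ x ∈ Ioc t y, x ≤ 1 ∧ D x ≠ 0 ∧ LogA c hc (X x) (W x) (z x) := by
  have hzc : Continuous z := continuous_iff_continuousAt.2 fun x => (hz x).continuousAt
  have h1 : ∀ᶠ x in 𝓝 t, D x ≠ 0 ∧ z x ∉ (sq c hc).lattice := by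
    have a1 : ∀ᶠ x in 𝓝 t, D x ≠ 0 := hD.continuousAt.eventually_ne hDt
    have a2 : ∀ᶠ x in 𝓝 t, z x ∉ (sq c hc).lattice := by
      have h6 : IsOpen (z ⁻¹' ((sq c hc).lattice : Set ℂ)ᶜ) :=
        (isOpen_compl (sq c hc)).preimage hzc
      exact h6.mem_nhds h0.1
    exact a1.and a2
  obtain ⟨ε, hε, hb⟩ := Metric.eventually_nhds_iff.1 h1
  set b : ℝ := min (min y 1) (t + ε / 2) with hbdef
  have hb1 : b ≤ y := (min_le_left _ _).trans (min_le_left _ _)
  have hb2 : b ≤ 1 := (min_le_left _ _).trans (min_le_right _ _)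
  have hb3 : b ≤ t + ε / 2 := min_le_right _ _
  have htb : t < b := by
    rw [hbdef]
    simp only [lt_min_iff]
    exact ⟨⟨hy, ht.2⟩, by linarith⟩
  have hin : ∀ x ∈ Icc t b, x ∈ Icc (0 : ℝ) 1 ∧ D x ≠ 0 ∧ z x ∉ (sq c hc).lattice := by
    intro x hx
    have h2 : dist x t < ε := by
      rw [Real.dist_eq, abs_lt]
      constructor
      · linarith [hx.1]
      · linarith [hx.2]
    exact ⟨⟨ht.1.trans hx.1, hx.2.trans hb2⟩, (hb h2).1, (hb h2).2⟩
  have key := ode_local (sq c hc) (X := X) (W := W) (z := z) (z' := g) (a := t) (b := b)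
    (fun x hx => (hch x (hin x hx).1 (hin x hx).2.1).hX)
    (fun x hx => by
      rw [hg2]
      have := (hch x (hin x hx).1 (hin x hx).2.1).hW
      refine this.congr_deriv ?_
      norm_num)
    (fun x _ => hz x) hg.continuousOn (fun x hx => (hin x hx).2.2) h0.2.1.symm h0.2.2.symm
  refine ⟨b, ⟨htb, hb1⟩, hb2, ?_, ?_⟩
  · exact (hin b ⟨htb.le, le_rfl⟩).2.1
  · have := key b ⟨htb.le, le_rfl⟩
    exact ⟨(hin b ⟨htb.le, le_rfl⟩).2.2, this.1.symm, this.2.symm⟩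

/-- lifting of a path covered by two charts -/
theorem lift_two (hg2 : (sq c hc).g₂ = 4) {XA WA XB WB DA DB g z : ℝ → ℂ}
    (hDA : Continuous DA) (hDB : Continuous DB)
    (hcov : ∀ t ∈ Icc (0 : ℝ) 1, DA t ≠ 0 ∨ DB t ≠ 0)
    (hA : ∀ t ∈ Icc (0 : ℝ) 1, DA t ≠ 0 → ChartAt XA WA g t)
    (hB : ∀ t ∈ Icc (0 : ℝ) 1, DB t ≠ 0 → ChartAt XB WB g t)
    (hov : ∀ t ∈ Icc (0 : ℝ) 1, DA t ≠ 0 → DB t ≠ 0 → XA t * XB t = -1 ∧ WB t * XA t ^ 2 = WA t)
    (hg : Continuous g) (hz : ∀ x, HasDerivAt z (g x) x)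
    (h0 : (DA 0 ≠ 0 → LogA c hc (XA 0) (WA 0) (z 0)) ∧
      (DB 0 ≠ 0 → LogA c hc (XB 0) (WB 0) (z 0 + TT c))) :
    ∀ t ∈ Icc (0 : ℝ) 1, (DA t ≠ 0 → LogA c hc (XA t) (WA t) (z t)) ∧
      (DB t ≠ 0 → LogA c hc (XB t) (WB t) (z t + TT c)) := by
  have hzc : Continuous z := continuous_iff_continuousAt.2 fun x => (hz x).continuousAt
  have fromA : ∀ t ∈ Icc (0 : ℝ) 1, DA t ≠ 0 → LogA c hc (XA t) (WA t) (z t) →
      (DA t ≠ 0 → LogA c hc (XA t) (WA t) (z t)) ∧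
      (DB t ≠ 0 → LogA c hc (XB t) (WB t) (z t + TT c)) := by
    intro t ht hDt h
    refine ⟨fun _ => h, fun hDB' => ?_⟩
    obtain ⟨h1, h2⟩ := hov t ht hDt hDB'
    have h3 : XA t ≠ 0 := by
      intro h4
      rw [h4] at h1
      norm_num at h1
    have h4 := h.shift hg2 h3
    have e1 : XB t = -1 / XA t := by
      rw [eq_div_iff h3, mul_comm]
      exact h1
    have e2 : WB t = WA t / XA t ^ 2 := by
      rw [eq_div_iff (pow_ne_zero 2 h3)]
      exact h2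
    rw [e1, e2]
    exact h4
  have fromB : ∀ t ∈ Icc (0 : ℝ) 1, DB t ≠ 0 → LogA c hc (XB t) (WB t) (z t + TT c) →
      (DA t ≠ 0 → LogA c hc (XA t) (WA t) (z t)) ∧
      (DB t ≠ 0 → LogA c hc (XB t) (WB t) (z t + TT c)) := by
    intro t ht hDt h
    refine ⟨fun hDA' => ?_, fun _ => h⟩
    obtain ⟨h1, h2⟩ := hov t ht hDA' hDt
    have h3 : XB t ≠ 0 := by
      intro h4
      rw [h4] at h1
      norm_num at h1
    have h3' : XA t ≠ 0 := by
      intro h4
      rw [h4] at h1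
      norm_num at h1
    have h4 := h.shift' hg2 h3
    have e1 : XA t = -1 / XB t := by
      rw [eq_div_iff h3]
      exact h1
    have e2 : WA t = WB t / XB t ^ 2 := by
      rw [eq_div_iff (pow_ne_zero 2 h3), ← h2]
      have : XA t ^ 2 * XB t ^ 2 = 1 := by
        rw [← mul_pow, h1]
        norm_num
      rw [mul_assoc, this, mul_one]
    rw [e1, e2]
    exact h4
  set P : ℝ → Prop := fun t => (DA t ≠ 0 → LogA c hc (XA t) (WA t) (z t)) ∧
      (DB t ≠ 0 → LogA c hc (XB t) (WB t) (z t + TT c)) with hP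
  have hclosed : IsClosed ({t | P t} ∩ Icc (0 : ℝ) 1) := by
    rw [← closure_subset_iff_isClosed]
    intro t ht
    have htI : t ∈ Icc (0 : ℝ) 1 := by
      have : closure ({t | P t} ∩ Icc (0 : ℝ) 1) ⊆ Icc (0 : ℝ) 1 :=
        closure_minimal inter_subset_right isClosed_Icc
      exact this ht
    refine ⟨?_, htI⟩
    have hne : (𝓝[{t | P t} ∩ Icc (0 : ℝ) 1] t).NeBot := mem_closure_iff_nhdsWithin_neBot.1 ht
    have hle : 𝓝[{t | P t} ∩ Icc (0 : ℝ) 1] t ≤ 𝓝 t := nhdsWithin_le_nhds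
    have hev : ∀ᶠ x in 𝓝[{t | P t} ∩ Icc (0 : ℝ) 1] t, P x :=
      (self_mem_nhdsWithin : {t | P t} ∩ Icc (0 : ℝ) 1 ∈ 𝓝[{t | P t} ∩ Icc (0 : ℝ) 1] t) |>
        mem_of_superset <| fun x hx => hx.1
    rcases hcov t htI with hD | hD
    · have hDev : ∀ᶠ x in 𝓝[{t | P t} ∩ Icc (0 : ℝ) 1] t, DA x ≠ 0 :=
        (hDA.continuousAt.eventually_ne hD).filter_mono hle
      refine fromA t htI hD (logA_closed hle (hA t htI hD).hX.continuousAt
        (hA t htI hD).hW.continuousAt hzc.continuousAt ?_)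
      filter_upwards [hev, hDev] with x hx hx'
      exact hx.1 hx'
    · have hDev : ∀ᶠ x in 𝓝[{t | P t} ∩ Icc (0 : ℝ) 1] t, DB x ≠ 0 :=
        (hDB.continuousAt.eventually_ne hD).filter_mono hle
      refine fromB t htI hD (logA_closed (z := fun t => z t + TT c) hle
        (hB t htI hD).hX.continuousAt
        (hB t htI hD).hW.continuousAt (hzc.add continuous_const).continuousAt ?_)
      filter_upwards [hev, hDev] with x hx hx'
      exact hx.2 hx'
  have hsub : Icc (0 : ℝ) 1 ⊆ {t | P t} := by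
    refine IsClosed.Icc_subset_of_forall_exists_gt hclosed h0 ?_
    rintro t ⟨ht, htI⟩ y hy
    have htI' := Ico_subset_Icc_self htI
    rcases hcov t htI' with hD | hD
    · obtain ⟨x, hx, hx1, hx2, hx3⟩ := logA_open hg2 htI hy hDA hD hA hg hz (ht.1 hD)
      exact ⟨x, fromA x ⟨(htI.1.trans hx.1.le), hx1⟩ hx2 hx3, hx⟩
    · obtain ⟨x, hx, hx1, hx2, hx3⟩ := logA_open (z := fun t => z t + TT c) hg2 htI hy hDB hD hB hg
        (fun x => (hz x).add_const _) (ht.2 hD)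
      exact ⟨x, fromB x ⟨(htI.1.trans hx.1.le), hx1⟩ hx2 hx3, hx⟩
  exact fun t ht => hsub ht

/-- lifting of a path in one chart -/
theorem lift_one (hg2 : (sq c hc).g₂ = 4) {X W g z : ℝ → ℂ}
    (hA : ∀ t ∈ Icc (0 : ℝ) 1, ChartAt X W g t)
    (hg : Continuous g) (hz : ∀ x, HasDerivAt z (g x) x)
    (h0 : LogA c hc (X 0) (W 0) (z 0)) :
    ∀ t ∈ Icc (0 : ℝ) 1, LogA c hc (X t) (W t) (z t) := by
  intro t ht
  have := lift_two hg2 (XA := X) (WA := W) (XB := X) (WB := W) (DA := fun _ => 1)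
    (DB := fun _ => 0) (g := g) (z := z) continuous_const continuous_const
    (fun t _ => Or.inl one_ne_zero) (fun t ht _ => hA t ht) (fun t _ h => absurd rfl h)
    (fun t _ _ h => absurd rfl h) hg hz ⟨fun _ => h0, fun h => absurd rfl h⟩ t ht
  exact this.1 one_ne_zero

end

end Pool.Agent.R946.AP
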