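import Pool.Agent.R946.AP.Logs

/-!
# The relative periods are linear forms in two numbers
-/

set_option autoImplicit false

open Filter Set MeasureTheory
open scoped Topology PeriodPair

noncomputable section

namespace Pool.Agent.R946.AP

open H667R3 Pool.Agent.W245.EB
open Complex (I)

section

variable {c : ℂ} {hc : c ≠ 0} {s : ℂ}

lemma pow_four_eq {Y Y₀ : ℂ} (h : Y ^ 4 = Y₀ ^ 4) : Y = Y₀ ∨ Y = I * Y₀ ∨ Y = -Y₀ ∨ Y = -(I * Y₀) := by
  have h1 : (Y - Y₀) * (Y - I * Y₀) * (Y + Y₀) * (Y + I * Y₀) = 0 := by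
    linear_combination h - (Y ^ 2 * Y₀ ^ 2 - Y₀ ^ 4) * Complex.I_sq
  rcases mul_eq_zero.1 h1 with h2 | h2
  · rcases mul_eq_zero.1 h2 with h3 | h3
    · rcases mul_eq_zero.1 h3 with h4 | h4
      · exact Or.inl (sub_eq_zero.1 h4)
      · exact Or.inr (Or.inl (sub_eq_zero.1 h4))
    · exact Or.inr (Or.inr (Or.inl (eq_neg_of_add_eq_zero_left h3)))
  · exact Or.inr (Or.inr (Or.inr (eq_neg_of_add_eq_zero_left h2)))

/-- the logarithms of a zero are multiples of those of `(0, Y₀)` -/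
lemma logPt_weight {Y₀ a b : ℂ} (hY₀ : Y₀ ≠ 0) (hY : Y₀ ^ 4 = f s)
    (h0 : LogPt c hc s (Pt.affine 0 Y₀) a b) {p : Pt} (hp : OnCurve s p) (hz : IsZero p) :
    LogPt c hc s p (weight Y₀ p * a) (weight Y₀ p * b) := by
  cases p with
  | infinite w =>
    show (0 : ℂ) * a ∈ _ ∧ (0 : ℂ) * b ∈ _
    rw [zero_mul, zero_mul]
    exact ⟨zero_mem _, zero_mem _⟩
  | affine r Y =>
    have hr : r = 0 := hz
    subst hr
    have hp' : Y ^ 4 = f (0 ^ 2 + s) := hp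
    have h4 : Y ^ 4 = Y₀ ^ 4 := by
      rw [hp', hY]
      congr 1
      ring
    show LogPt c hc s (Pt.affine 0 Y) (Y / Y₀ * a) (Y / Y₀ * b)
    have h1 := h0.I_mul
    have h2 := h1.I_mul
    have h3 := h2.I_mul
    rcases pow_four_eq h4 with h | h | h | h
    · rw [h, div_self hY₀, one_mul, one_mul]
      exact h0
    · rw [h, mul_div_cancel_right₀ _ hY₀]
      exact h1
    · have e : ∀ x : ℂ, I * (I * x) = -x := fun x => by
        linear_combination x * Complex.I_mul_I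
      rw [e, e, e] at h2
      rw [h, neg_div, div_self hY₀, neg_one_mul, neg_one_mul]
      exact h2
    · have e : ∀ x : ℂ, I * (I * (I * x)) = -(I * x) := fun x => by
        linear_combination (I * x) * Complex.I_mul_I
      rw [e, e, e] at h3
      rw [h, neg_div, mul_div_cancel_right₀ _ hY₀, neg_mul, neg_mul]
      exact h3

lemma I_mem_K : I ∈ K := IntermediateField.subset_adjoin _ _ (by simp)

lemma ρ_mem_K : ρ ∈ K := IntermediateField.subset_adjoin _ _ (by unfold ρ; simp)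

lemma int_mem_K (n : ℤ) : (n : ℂ) ∈ K := intCast_mem K n

lemma lattice_mem_K {l₁ l₂ : ℂ} (h₁ : l₁ ∈ (sq c hc).lattice) (h₂ : l₂ ∈ (sq c hc).lattice) :
    ∃ α ∈ K, 1 / (3 * I) * (l₁ + l₂ / ρ) = α * c := by
  rw [mem_sq] at h₁ h₂
  obtain ⟨m, n, rfl⟩ := h₁
  obtain ⟨m', n', rfl⟩ := h₂
  refine ⟨1 / (3 * I) * ((m + n * I) + (m' + n' * I) / ρ), ?_, by ring⟩
  have hI := I_mem_K
  have hρ := ρ_mem_K
  refine mul_mem (div_mem (one_mem K) (mul_mem (ofNat_mem K 3) hI)) (add_mem (add_mem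
    (int_mem_K _) (mul_mem (int_mem_K _) hI)) (div_mem (add_mem
    (int_mem_K _) (mul_mem (int_mem_K _) hI)) hρ))

/-- the relative periods lie in `K c + K U` -/
theorem linear_of (hg2 : (sq c hc).g₂ = 4) {Y₀ : ℂ} (hY₀ : Y₀ ≠ 0) (hY : Y₀ ^ 4 = f s)
    {a b : ℂ} (h0 : LogPt c hc s (Pt.affine 0 Y₀) a b) {p q : Pt} {J : ℂ} {ℓ : ℝ}
    (hp : Path s p q J ℓ) (hz : p = q ∨ (IsZero p ∧ IsZero q)) :
    ∃ α ∈ K, J = α * c + (weight Y₀ q - weight Y₀ p) * (1 / (3 * I) * (a + b / ρ)) := by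
  obtain ⟨hop, hoq⟩ := hp.onCurve
  rcases hz with rfl | ⟨hzp, hzq⟩
  · obtain ⟨z₁, z₂, h1⟩ := exists_LogPt hg2 hop
    obtain ⟨z₁', z₂', h2, e⟩ := lift_path hg2 hp h1
    obtain ⟨m1, m2⟩ := h2.sub_mem h1
    obtain ⟨α, hα, e'⟩ := lattice_mem_K m1 m2
    refine ⟨α, hα, ?_⟩
    rw [e, e']
    ring
  · have h1 := logPt_weight hY₀ hY h0 hop hzp
    have h2 := logPt_weight hY₀ hY h0 hoq hzq
    obtain ⟨z₁', z₂', h3, e⟩ := lift_path hg2 hp h1
    obtain ⟨m1, m2⟩ := h3.sub_mem h2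
    obtain ⟨α, hα, e'⟩ := lattice_mem_K m1 m2
    refine ⟨α, hα, ?_⟩
    rw [e, ← e']
    ring

end

end Pool.Agent.R946.AP
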