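import Pool.Agent.R946.AP.Charts

/-!
# Logarithms along paths
-/

set_option autoImplicit false

open Filter Set MeasureTheory
open scoped Topology PeriodPair

noncomputable section

namespace Pool.Agent.R946.AP

open H667R3 Pool.Agent.W245.EB
open Complex (I)

/-- logarithms `(z₁, z₂)` of the image of a point in `E × E` -/
def LogPt (c : ℂ) (hc : c ≠ 0) (s : ℂ) : Pt → ℂ → ℂ → Prop
  | Pt.affine r Y, z₁, z₂ =>
    ((2 * (r ^ 2 + s) + 5 ≠ 0 → LogA c hc (Y ^ 2 / (2 * (r ^ 2 + s) + 5))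
        (2 * I * Y * ((r ^ 2 + s) + 1) / (2 * (r ^ 2 + s) + 5)) z₁) ∧
      (4 - (r ^ 2 + s) ^ 2 ≠ 0 → LogA c hc (-Y ^ 2 / (4 - (r ^ 2 + s) ^ 2))
        (2 * I * Y * ((r ^ 2 + s) + 1) / (4 - (r ^ 2 + s) ^ 2)) (z₁ + TT c))) ∧
    ((2 * (r ^ 2 + s) + 5 ≠ 0 → LogA c hc (Y ^ 2 / (2 * (2 * (r ^ 2 + s) + 5)))
        (-(I * ρ) * Y * ((r ^ 2 + s) + 4) / (2 * (2 * (r ^ 2 + s) + 5))) z₂) ∧
      (4 - (r ^ 2 + s) ^ 2 ≠ 0 → LogA c hc (-2 * Y ^ 2 / (4 - (r ^ 2 + s) ^ 2))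
        (-2 * (I * ρ) * Y * ((r ^ 2 + s) + 4) / (4 - (r ^ 2 + s) ^ 2)) (z₂ + TT c)))
  | Pt.infinite _, z₁, z₂ => z₁ ∈ (sq c hc).lattice ∧ z₂ ∈ (sq c hc).lattice

/-- points of the curve -/
def OnCurve (s : ℂ) : Pt → Prop
  | Pt.affine r Y => Y ^ 4 = f (r ^ 2 + s)
  | Pt.infinite w => w ^ 2 = -2

section

variable {c : ℂ} {hc : c ≠ 0} {s : ℂ}

lemma cover (q : ℂ) : 2 * q + 5 ≠ 0 ∨ 4 - q ^ 2 ≠ 0 := by
  by_contra h
  push Not at h
  obtain ⟨h1, h2⟩ := h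
  have h3 : (9 : ℂ) = 0 := by linear_combination -(2 * q - 5) * h1 - 4 * h2
  norm_num at h3

lemma ov1 {Y q : ℂ} (h : Y ^ 4 = f q) (hA : 2 * q + 5 ≠ 0) (hB : 4 - q ^ 2 ≠ 0) :
    (Y ^ 2 / (2 * q + 5)) * (-Y ^ 2 / (4 - q ^ 2)) = -1 ∧
    (2 * I * Y * (q + 1) / (4 - q ^ 2)) * (Y ^ 2 / (2 * q + 5)) ^ 2 =
      2 * I * Y * (q + 1) / (2 * q + 5) := by
  unfold f at h
  constructor
  · rw [div_mul_div_comm, div_eq_iff (mul_ne_zero hA hB)]
    linear_combination -h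
  · rw [div_pow, div_mul_div_comm, div_eq_div_iff (mul_ne_zero hB (pow_ne_zero 2 hA)) hA]
    linear_combination (2 * I * Y * (q + 1) * (2 * q + 5)) * h

lemma ov2 {Y q : ℂ} (h : Y ^ 4 = f q) (hA : 2 * q + 5 ≠ 0) (hB : 4 - q ^ 2 ≠ 0) :
    (Y ^ 2 / (2 * (2 * q + 5))) * (-2 * Y ^ 2 / (4 - q ^ 2)) = -1 ∧
    (-2 * (I * ρ) * Y * (q + 4) / (4 - q ^ 2)) * (Y ^ 2 / (2 * (2 * q + 5))) ^ 2 =
      -(I * ρ) * Y * (q + 4) / (2 * (2 * q + 5)) := by
  unfold f at h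
  have hA' : 2 * (2 * q + 5) ≠ 0 := mul_ne_zero two_ne_zero hA
  constructor
  · rw [div_mul_div_comm, div_eq_iff (mul_ne_zero hA' hB)]
    linear_combination -2 * h
  · rw [div_pow, div_mul_div_comm, div_eq_div_iff (mul_ne_zero hB (pow_ne_zero 2 hA')) hA']
    linear_combination (-4 * (I * ρ) * Y * (q + 4) * (2 * q + 5)) * h

/-- the two charts agree -/
lemma ofB (hg2 : (sq c hc).g₂ = 4) {XA WA XB WB z : ℂ} (h : LogA c hc XB WB (z + TT c))
    (h1 : XA * XB = -1) (h2 : WB * XA ^ 2 = WA) : LogA c hc XA WA z := by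
  have h3 : XB ≠ 0 := by
    intro h4
    rw [h4] at h1
    norm_num at h1
  have h4 := h.shift' hg2 h3
  have e1 : XA = -1 / XB := by
    rw [eq_div_iff h3]
    exact h1
  have e2 : WA = WB / XB ^ 2 := by
    rw [eq_div_iff (pow_ne_zero 2 h3), ← h2]
    have : XA ^ 2 * XB ^ 2 = 1 := by
      rw [← mul_pow, h1]
      norm_num
    rw [mul_assoc, this, mul_one]
  rw [e1, e2]
  exact h4

lemma ofA (hg2 : (sq c hc).g₂ = 4) {XA WA XB WB z : ℂ} (h : LogA c hc XA WA z)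
    (h1 : XA * XB = -1) (h2 : WB * XA ^ 2 = WA) : LogA c hc XB WB (z + TT c) := by
  have h3 : XA ≠ 0 := by
    intro h4
    rw [h4] at h1
    norm_num at h1
  have h4 := h.shift hg2 h3
  have e1 : XB = -1 / XA := by
    rw [eq_div_iff h3, mul_comm]
    exact h1
  have e2 : WB = WA / XA ^ 2 := by
    rw [eq_div_iff (pow_ne_zero 2 h3)]
    exact h2
  rw [e1, e2]
  exact h4

lemma exists_LogA' (hg2 : (sq c hc).g₂ = 4) {NX NW D : ℂ} (hD : D ≠ 0)
    (h : NW ^ 2 * D = 4 * NX ^ 3 - 4 * NX * D ^ 2) : ∃ z, LogA c hc (NX / D) (NW / D) z := by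
  refine exists_LogA hg2 ?_
  field_simp
  linear_combination h

/-- existence of logarithms of a point -/
lemma exists_LogPt (hg2 : (sq c hc).g₂ = 4) {p : Pt} (hp : OnCurve s p) :
    ∃ z₁ z₂, LogPt c hc s p z₁ z₂ := by
  cases p with
  | infinite w => exact ⟨0, 0, zero_mem _, zero_mem _⟩
  | affine r Y =>
    have hp' : Y ^ 4 = f (r ^ 2 + s) := hp
    show ∃ z₁ z₂, (_ ∧ _) ∧ (_ ∧ _)
    generalize r ^ 2 + s = q at hp'
    have hpf := hp'
    unfold f at hpf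
    by_cases hA : 2 * q + 5 ≠ 0
    · have hA2 : 2 * (2 * q + 5) ≠ 0 := mul_ne_zero two_ne_zero hA
      obtain ⟨z₁, h₁⟩ := exists_LogA' (c := c) (hc := hc) hg2 (NX := Y ^ 2)
        (NW := 2 * I * Y * (q + 1)) hA
        (by linear_combination (-4 * Y ^ 2) * hpf +
              (4 * Y ^ 2 * (q + 1) ^ 2 * (2 * q + 5)) * Complex.I_sq)
      obtain ⟨z₂, h₂⟩ := exists_LogA' (c := c) (hc := hc) hg2 (NX := Y ^ 2)
        (NW := -(I * ρ) * Y * (q + 4)) hA2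
        (by linear_combination (-4 * Y ^ 2) * hpf +
              (2 * Y ^ 2 * (q + 4) ^ 2 * (2 * (2 * q + 5))) * Complex.I_sq +
              (I ^ 2 * Y ^ 2 * (q + 4) ^ 2 * (2 * (2 * q + 5))) * ρ_sq)
      exact ⟨z₁, z₂, ⟨fun _ => h₁, fun hB => ofA hg2 h₁ (ov1 hp' hA hB).1 (ov1 hp' hA hB).2⟩,
        ⟨fun _ => h₂, fun hB => ofA hg2 h₂ (ov2 hp' hA hB).1 (ov2 hp' hA hB).2⟩⟩
    · have hB : 4 - q ^ 2 ≠ 0 := (cover q).resolve_left hA
      obtain ⟨z₁, h₁⟩ := exists_LogA' (c := c) (hc := hc) hg2 (NX := -Y ^ 2)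
        (NW := 2 * I * Y * (q + 1)) hB
        (by linear_combination (4 * Y ^ 2) * hpf +
              (4 * Y ^ 2 * (q + 1) ^ 2 * (4 - q ^ 2)) * Complex.I_sq)
      obtain ⟨z₂, h₂⟩ := exists_LogA' (c := c) (hc := hc) hg2 (NX := -2 * Y ^ 2)
        (NW := -2 * (I * ρ) * Y * (q + 4)) hB
        (by linear_combination (32 * Y ^ 2) * hpf +
              (8 * Y ^ 2 * (q + 4) ^ 2 * (4 - q ^ 2)) * Complex.I_sq +
              (4 * I ^ 2 * Y ^ 2 * (q + 4) ^ 2 * (4 - q ^ 2)) * ρ_sq)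
      refine ⟨z₁ - TT c, z₂ - TT c, ⟨fun h => absurd h hA, fun _ => ?_⟩,
        ⟨fun h => absurd h hA, fun _ => ?_⟩⟩
      · rw [sub_add_cancel]
        exact h₁
      · rw [sub_add_cancel]
        exact h₂

/-- logarithms are unique modulo the lattice -/
lemma LogPt.sub_mem {p : Pt} {z₁ z₂ z₁' z₂' : ℂ} (h : LogPt c hc s p z₁ z₂)
    (h' : LogPt c hc s p z₁' z₂') : z₁ - z₁' ∈ (sq c hc).lattice ∧ z₂ - z₂' ∈ (sq c hc).lattice := by
  cases p with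
  | infinite w => exact ⟨Submodule.sub_mem _ h.1 h'.1, Submodule.sub_mem _ h.2 h'.2⟩
  | affine r Y =>
    obtain ⟨⟨a1, a2⟩, a3, a4⟩ := h
    obtain ⟨⟨b1, b2⟩, b3, b4⟩ := h'
    rcases cover (r ^ 2 + s) with hA | hB
    · exact ⟨(a1 hA).sub_mem (b1 hA), (a3 hA).sub_mem (b3 hA)⟩
    · have h1 := (a2 hB).sub_mem (b2 hB)
      have h2 := (a4 hB).sub_mem (b4 hB)
      rw [add_sub_add_right_eq_sub] at h1 h2
      exact ⟨h1, h2⟩

/-- adding a lattice vector -/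
lemma LogPt.add {p : Pt} {z₁ z₂ l₁ l₂ : ℂ} (h : LogPt c hc s p z₁ z₂)
    (h₁ : l₁ ∈ (sq c hc).lattice) (h₂ : l₂ ∈ (sq c hc).lattice) :
    LogPt c hc s p (z₁ + l₁) (z₂ + l₂) := by
  cases p with
  | infinite w => exact ⟨add_mem h.1 h₁, add_mem h.2 h₂⟩
  | affine r Y =>
    obtain ⟨⟨a1, a2⟩, a3, a4⟩ := h
    refine ⟨⟨fun hA => (a1 hA).add h₁, fun hB => ?_⟩, ⟨fun hA => (a3 hA).add h₂, fun hB => ?_⟩⟩
    · rw [add_right_comm z₁]
      exact (a2 hB).add h₁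
    · rw [add_right_comm z₂]
      exact (a4 hB).add h₂

/-- the automorphism `Y ↦ iY` -/
lemma LogPt.I_mul {r Y z₁ z₂ : ℂ} (h : LogPt c hc s (Pt.affine r Y) z₁ z₂) :
    LogPt c hc s (Pt.affine r (I * Y)) (I * z₁) (I * z₂) := by
  obtain ⟨⟨a1, a2⟩, a3, a4⟩ := h
  have key : ∀ z : ℂ, I * (z + TT c) + c = I * z + TT c := fun z => by
    rw [mul_add, I_TT]
    ring
  refine ⟨⟨fun hA => ?_, fun hB => ?_⟩, ⟨fun hA => ?_, fun hB => ?_⟩⟩
  · have h1 := (a1 hA).I_mul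
    convert h1 using 1
    · rw [mul_pow, Complex.I_sq]; ring
    · ring
  · have h1 := ((a2 hB).I_mul).add c_mem
    rw [key] at h1
    convert h1 using 1
    · rw [mul_pow, Complex.I_sq]; ring
    · ring
  · have h1 := (a3 hA).I_mul
    convert h1 using 1
    · rw [mul_pow, Complex.I_sq]; ring
    · ring
  · have h1 := ((a4 hB).I_mul).add c_mem
    rw [key] at h1
    convert h1 using 1
    · rw [mul_pow, Complex.I_sq]; ring
    · ring

lemma hasDerivAt_integral_of_continuous {g : ℝ → ℂ} (hg : Continuous g) (a : ℂ) (x : ℝ) :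
    HasDerivAt (fun t => a + ∫ y in (0 : ℝ)..t, g y) (g x) x :=
  (intervalIntegral.integral_hasDerivAt_right (hg.intervalIntegrable _ _)
    (hg.stronglyMeasurableAtFilter _ _) hg.continuousAt).const_add a

/-- logarithms along a path in the affine part -/
theorem lift_affine (hg2 : (sq c hc).g₂ = 4) {r Y h : ℝ → ℂ} (hp : AffinePath s r Y h) {z₁ z₂ : ℂ}
    (h0 : LogPt c hc s (Pt.affine (r 0) (Y 0)) z₁ z₂) :
    ∃ z₁' z₂', LogPt c hc s (Pt.affine (r 1) (Y 1)) z₁' z₂' ∧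
      ∫ t in (0 : ℝ)..1, h t = 1 / (3 * I) * ((z₁' - z₁) + (z₂' - z₂) / ρ) := by
  set Q : ℝ → ℂ := fun t => r t ^ 2 + s with hQdef
  have hrd : ∀ t, HasDerivAt r (deriv r t) t := fun t =>
    (hp.contDiff_r.differentiable one_ne_zero t).hasDerivAt
  have hYd : ∀ t, HasDerivAt Y (deriv Y t) t := fun t =>
    (hp.contDiff_Y.differentiable one_ne_zero t).hasDerivAt
  have hrc : Continuous r := hp.contDiff_r.continuous
  have hQc : Continuous Q := by fun_prop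
  have hhc := hp.continuous_h
  have hpath : ∀ t ∈ Icc (0 : ℝ) 1, PathAt Q Y h t := by
    intro t ht
    refine ⟨?_, ?_, hp.curve t ht⟩
    · refine (((hrd t).fun_pow 2).add_const s).congr_deriv ?_
      push_cast
      linear_combination 2 * hp.form_r t ht
    · refine (hYd t).congr_deriv ?_
      linear_combination (1 / 2) * hp.form_Y t ht
  obtain ⟨h01, h02⟩ := h0
  have l1 := lift_two hg2 (XA := fun t => Y t ^ 2 / (2 * Q t + 5))
    (WA := fun t => 2 * I * Y t * (Q t + 1) / (2 * Q t + 5))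
    (XB := fun t => -Y t ^ 2 / (4 - Q t ^ 2)) (WB := fun t => 2 * I * Y t * (Q t + 1) / (4 - Q t ^ 2))
    (DA := fun t => 2 * Q t + 5) (DB := fun t => 4 - Q t ^ 2) (g := fun t => I * (Q t + 4) * h t)
    (z := fun t => z₁ + ∫ y in (0 : ℝ)..t, I * (Q y + 4) * h y) (by fun_prop) (by fun_prop)
    (fun t _ => cover (Q t)) (fun t ht hD => chartA1 (hpath t ht) hD)
    (fun t ht hD => chartB1 (hpath t ht) hD)
    (fun t ht hA hB => ov1 (hpath t ht).curve hA hB) (by fun_prop)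
    (fun x => hasDerivAt_integral_of_continuous (by fun_prop) z₁ x)
    (by simpa using h01) 1 (right_mem_Icc.2 zero_le_one)
  have l2 := lift_two hg2 (XA := fun t => Y t ^ 2 / (2 * (2 * Q t + 5)))
    (WA := fun t => -(I * ρ) * Y t * (Q t + 4) / (2 * (2 * Q t + 5)))
    (XB := fun t => -2 * Y t ^ 2 / (4 - Q t ^ 2))
    (WB := fun t => -2 * (I * ρ) * Y t * (Q t + 4) / (4 - Q t ^ 2))
    (DA := fun t => 2 * Q t + 5) (DB := fun t => 4 - Q t ^ 2)
    (g := fun t => -(I * ρ) * (Q t + 1) * h t)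
    (z := fun t => z₂ + ∫ y in (0 : ℝ)..t, -(I * ρ) * (Q y + 1) * h y) (by fun_prop) (by fun_prop)
    (fun t _ => cover (Q t)) (fun t ht hD => chartA2 (hpath t ht) hD)
    (fun t ht hD => chartB2 (hpath t ht) hD)
    (fun t ht hA hB => ov2 (hpath t ht).curve hA hB) (by fun_prop)
    (fun x => hasDerivAt_integral_of_continuous (by fun_prop) z₂ x)
    (by simpa using h02) 1 (right_mem_Icc.2 zero_le_one)
  refine ⟨_, _, ⟨l1, l2⟩, ?_⟩
  have i1 : IntervalIntegrable (fun y => I * (Q y + 4) * h y) volume 0 1 :=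
    (by fun_prop : Continuous fun y => I * (Q y + 4) * h y).intervalIntegrable _ _
  have i2 : IntervalIntegrable (fun y => -(I * ρ) * (Q y + 1) * h y) volume 0 1 :=
    (by fun_prop : Continuous fun y => -(I * ρ) * (Q y + 1) * h y).intervalIntegrable _ _
  have hρ := ρ_ne
  rw [add_sub_cancel_left, add_sub_cancel_left, ← intervalIntegral.integral_div,
    ← intervalIntegral.integral_add i1 (i2.div_const ρ), ← intervalIntegral.integral_const_mul]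
  refine intervalIntegral.integral_congr fun y _ => ?_
  show h y = 1 / (3 * I) * (I * (Q y + 4) * h y + -(I * ρ) * (Q y + 1) * h y / ρ)
  have hI := Complex.I_ne_zero
  field_simp
  ring

lemma logA_zero_iff {z : ℂ} : LogA c hc 0 0 (z + TT c) ↔ z ∈ (sq c hc).lattice := by
  have hm := two_TT_mem (c := c) (hc := hc)
  constructor
  · rintro ⟨h1, h2, -⟩
    have h3 := (eq_TT_iff h1).1 h2
    have h4 := Submodule.sub_mem _ h3 hm
    rwa [show z + TT c + TT c - 2 * TT c = z by ring] at h4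
  · intro h
    rw [add_comm]
    refine ⟨fun h1 => TT_notMem ((add_mem_lattice_iff _ h).1 h1), ?_, ?_⟩
    · rw [wp_add_lattice _ h, wp_TT]
    · rw [wp'_add_lattice _ h, wp'_TT]

lemma DI_ne_of {τ u : ℂ} (hu : u ≠ 0)
    (hcv : u ^ 4 = (4 * τ ^ 8 - (1 + s * τ ^ 4) ^ 2) * (2 + (2 * s + 5) * τ ^ 4)) :
    DI s τ ≠ 0 := by
  intro h
  apply hu
  unfold DI at h
  have h2 : u ^ 4 = 0 := by
    rw [hcv]
    linear_combination (-(2 + (2 * s + 5) * τ ^ 4)) * h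
  exact pow_eq_zero_iff (four_ne_zero) |>.1 h2

lemma onCurve_nearInfinity {τ u : ℂ}
    (hcv : u ^ 4 = (4 * τ ^ 8 - (1 + s * τ ^ 4) ^ 2) * (2 + (2 * s + 5) * τ ^ 4)) :
    OnCurve s (nearInfinity τ u) := by
  unfold nearInfinity
  split_ifs with h
  · show (u ^ 2) ^ 2 = -2
    rw [h] at hcv
    linear_combination hcv
  · show (u / τ ^ 3) ^ 4 = f ((1 / τ ^ 2) ^ 2 + s)
    unfold f
    field_simp
    linear_combination hcv

/-- logarithms in the chart at infinity -/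
lemma logPt_nearInfinity (hg2 : (sq c hc).g₂ = 4) {τ u z₁ z₂ : ℂ} (hu : u ≠ 0)
    (hcv : u ^ 4 = (4 * τ ^ 8 - (1 + s * τ ^ 4) ^ 2) * (2 + (2 * s + 5) * τ ^ 4)) :
    LogPt c hc s (nearInfinity τ u) z₁ z₂ ↔
      LogA c hc (u ^ 2 * τ ^ 2 / DI s τ) (-2 * I * u * τ * (1 + (s + 1) * τ ^ 4) / DI s τ)
        (z₁ + TT c) ∧
      LogA c hc (2 * (u ^ 2 * τ ^ 2) / DI s τ) (2 * (I * ρ) * u * τ * (1 + (s + 4) * τ ^ 4) / DI s τ)
        (z₂ + TT c) := by
  have hon := onCurve_nearInfinity hcv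
  have hD := DI_ne_of hu hcv
  unfold nearInfinity at hon ⊢
  split_ifs at hon ⊢ with h
  · subst h
    have e1 : u ^ 2 * 0 ^ 2 / DI s 0 = 0 := by simp
    have e2 : -2 * I * u * 0 * (1 + (s + 1) * 0 ^ 4) / DI s 0 = 0 := by simp
    have e3 : 2 * (u ^ 2 * 0 ^ 2) / DI s 0 = 0 := by simp
    have e4 : 2 * (I * ρ) * u * 0 * (1 + (s + 4) * 0 ^ 4) / DI s 0 = 0 := by simp
    rw [e1, e2, e3, e4, logA_zero_iff, logA_zero_iff]
    rfl
  · have hcv' : (u / τ ^ 3) ^ 4 = f ((1 / τ ^ 2) ^ 2 + s) := hon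
    have hτ8 : τ ^ 8 ≠ 0 := pow_ne_zero 8 h
    have eD : 4 - ((1 / τ ^ 2) ^ 2 + s) ^ 2 = -DI s τ / τ ^ 8 := by
      unfold DI
      field_simp
      ring
    have hB : 4 - ((1 / τ ^ 2) ^ 2 + s) ^ 2 ≠ 0 := by
      rw [eD]
      exact div_ne_zero (neg_ne_zero.2 hD) hτ8
    have e1 : -(u / τ ^ 3) ^ 2 / (4 - ((1 / τ ^ 2) ^ 2 + s) ^ 2) = u ^ 2 * τ ^ 2 / DI s τ := by
      rw [eD]
      field_simp
    have e2 : 2 * I * (u / τ ^ 3) * (((1 / τ ^ 2) ^ 2 + s) + 1) / (4 - ((1 / τ ^ 2) ^ 2 + s) ^ 2) =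
        -2 * I * u * τ * (1 + (s + 1) * τ ^ 4) / DI s τ := by
      rw [eD]
      field_simp
      ring
    have e3 : -2 * (u / τ ^ 3) ^ 2 / (4 - ((1 / τ ^ 2) ^ 2 + s) ^ 2) =
        2 * (u ^ 2 * τ ^ 2) / DI s τ := by
      rw [eD]
      field_simp
    have e4 : -2 * (I * ρ) * (u / τ ^ 3) * (((1 / τ ^ 2) ^ 2 + s) + 4) /
        (4 - ((1 / τ ^ 2) ^ 2 + s) ^ 2) =
        2 * (I * ρ) * u * τ * (1 + (s + 4) * τ ^ 4) / DI s τ := by
      rw [eD]
      field_simp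
      ring
    constructor
    · rintro ⟨⟨-, a2⟩, -, a4⟩
      have b2 := a2 hB
      have b4 := a4 hB
      rw [e1, e2] at b2
      rw [e3, e4] at b4
      exact ⟨b2, b4⟩
    · rintro ⟨b2, b4⟩
      rw [← e1, ← e2] at b2
      rw [← e3, ← e4] at b4
      exact ⟨⟨fun hA => ofB hg2 b2 (ov1 hcv' hA hB).1 (ov1 hcv' hA hB).2, fun _ => b2⟩,
        ⟨fun hA => ofB hg2 b4 (ov2 hcv' hA hB).1 (ov2 hcv' hA hB).2, fun _ => b4⟩⟩

lemma deriv_eq_zero_of_Icc {F : ℝ → ℂ} {F' : ℂ} {t : ℝ} (ht : t ∈ Icc (0 : ℝ) 1)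
    (hF : HasDerivAt F F' t) (h : ∀ x ∈ Icc (0 : ℝ) 1, F x = 0) : F' = 0 := by
  have h1 : HasDerivWithinAt F F' (Icc 0 1) t := hF.hasDerivWithinAt
  have h2 : HasDerivWithinAt F 0 (Icc 0 1) t :=
    (hasDerivWithinAt_const t (Icc 0 1) (0 : ℂ)).congr h (h t ht)
  exact (uniqueDiffOn_Icc one_pos t ht).eq_deriv _ h1 h2

/-- logarithms along a path in the chart at infinity -/
theorem lift_infinite (hg2 : (sq c hc).g₂ = 4) {τ u h : ℝ → ℂ} (hp : InfinitePath s τ u h)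
    {z₁ z₂ : ℂ} (h0 : LogPt c hc s (nearInfinity (τ 0) (u 0)) z₁ z₂) :
    ∃ z₁' z₂', LogPt c hc s (nearInfinity (τ 1) (u 1)) z₁' z₂' ∧
      ∫ t in (0 : ℝ)..1, h t = 1 / (3 * I) * ((z₁' - z₁) + (z₂' - z₂) / ρ) := by
  have hτd : ∀ t, HasDerivAt τ (deriv τ t) t := fun t =>
    (hp.contDiff_τ.differentiable one_ne_zero t).hasDerivAt
  have hud : ∀ t, HasDerivAt u (deriv u t) t := fun t =>
    (hp.contDiff_u.differentiable one_ne_zero t).hasDerivAt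
  have hτc : Continuous τ := hp.contDiff_τ.continuous
  have huc : Continuous u := hp.contDiff_u.continuous
  have hτ' : Continuous (deriv τ) := hp.contDiff_τ.continuous_deriv le_rfl
  have hinfat : ∀ t ∈ Icc (0 : ℝ) 1, InfAt s τ u (deriv τ t) (deriv u t) t := by
    intro t ht
    refine ⟨hτd t, hud t, hp.ne_zero t ht, hp.curve t ht, ?_⟩
    have h1 : HasDerivAt (fun t => u t ^ 4 - (4 * τ t ^ 8 - (1 + s * τ t ^ 4) ^ 2) *
        (2 + (2 * s + 5) * τ t ^ 4)) _ t :=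
      ((hud t).fun_pow 4).fun_sub (((((hτd t).fun_pow 8).const_mul 4).fun_sub
        ((((hτd t).fun_pow 4).const_mul s).const_add 1 |>.fun_pow 2)).fun_mul
        ((((hτd t).fun_pow 4).const_mul (2 * s + 5)).const_add 2))
    have h2 := deriv_eq_zero_of_Icc ht h1 fun x hx => sub_eq_zero.2 (hp.curve x hx)
    push_cast at h2
    linear_combination h2
  -- the densities, extended continuously
  have hcl : Continuous fun t : ℝ => max 0 (min t 1) := by fun_prop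
  have hclm : ∀ t : ℝ, max 0 (min t 1) ∈ Icc (0 : ℝ) 1 := fun t =>
    ⟨le_max_left _ _, max_le zero_le_one (min_le_right _ _)⟩
  have hcle : ∀ t ∈ Icc (0 : ℝ) 1, max 0 (min t 1) = t := fun t ht => by
    rw [min_eq_left ht.2, max_eq_right ht.1]
  set G₁ : ℝ → ℂ := fun t => -2 * I * (1 + (s + 4) * τ t ^ 4) * deriv τ t / u t ^ 3 with hG₁
  set G₂ : ℝ → ℂ := fun t => 2 * (I * ρ) * (1 + (s + 1) * τ t ^ 4) * deriv τ t / u t ^ 3 with hG₂
  have hG₁c : ContinuousOn G₁ (Icc 0 1) := by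
    refine ContinuousOn.div (by fun_prop) (by fun_prop) fun t ht => pow_ne_zero 3 (hp.ne_zero t ht)
  have hG₂c : ContinuousOn G₂ (Icc 0 1) := by
    refine ContinuousOn.div (by fun_prop) (by fun_prop) fun t ht => pow_ne_zero 3 (hp.ne_zero t ht)
  set g₁ : ℝ → ℂ := fun t => G₁ (max 0 (min t 1)) with hg₁
  set g₂ : ℝ → ℂ := fun t => G₂ (max 0 (min t 1)) with hg₂
  have hg₁c : Continuous g₁ := hG₁c.comp_continuous hcl hclm
  have hg₂c : Continuous g₂ := hG₂c.comp_continuous hcl hclm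
  have hg₁e : ∀ t ∈ Icc (0 : ℝ) 1, g₁ t * u t ^ 3 = -2 * I * (1 + (s + 4) * τ t ^ 4) * deriv τ t := by
    intro t ht
    show G₁ (max 0 (min t 1)) * u t ^ 3 = _
    rw [hcle t ht]
    exact div_mul_cancel₀ _ (pow_ne_zero 3 (hp.ne_zero t ht))
  have hg₂e : ∀ t ∈ Icc (0 : ℝ) 1,
      g₂ t * u t ^ 3 = 2 * (I * ρ) * (1 + (s + 1) * τ t ^ 4) * deriv τ t := by
    intro t ht
    show G₂ (max 0 (min t 1)) * u t ^ 3 = _
    rw [hcle t ht]
    exact div_mul_cancel₀ _ (pow_ne_zero 3 (hp.ne_zero t ht))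
  have h00 : (0 : ℝ) ∈ Icc (0 : ℝ) 1 := left_mem_Icc.2 zero_le_one
  have h11 : (1 : ℝ) ∈ Icc (0 : ℝ) 1 := right_mem_Icc.2 zero_le_one
  rw [logPt_nearInfinity hg2 (hp.ne_zero 0 h00) (hp.curve 0 h00)] at h0
  have l1 := lift_one hg2 (X := fun t => u t ^ 2 * τ t ^ 2 / DI s (τ t))
    (W := fun t => -2 * I * u t * τ t * (1 + (s + 1) * τ t ^ 4) / DI s (τ t)) (g := g₁)
    (z := fun t => (z₁ + TT c) + ∫ y in (0 : ℝ)..t, g₁ y)
    (fun t ht => chartI1 (hinfat t ht) (hg₁e t ht)) hg₁c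
    (fun x => hasDerivAt_integral_of_continuous hg₁c (z₁ + TT c) x)
    (by simpa using h0.1) 1 h11
  have l2 := lift_one hg2 (X := fun t => 2 * (u t ^ 2 * τ t ^ 2) / DI s (τ t))
    (W := fun t => 2 * (I * ρ) * u t * τ t * (1 + (s + 4) * τ t ^ 4) / DI s (τ t)) (g := g₂)
    (z := fun t => (z₂ + TT c) + ∫ y in (0 : ℝ)..t, g₂ y)
    (fun t ht => chartI2 (hinfat t ht) (hg₂e t ht)) hg₂c
    (fun x => hasDerivAt_integral_of_continuous hg₂c (z₂ + TT c) x)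
    (by simpa using h0.2) 1 h11
  refine ⟨z₁ + ∫ y in (0 : ℝ)..1, g₁ y, z₂ + ∫ y in (0 : ℝ)..1, g₂ y, ?_, ?_⟩
  · rw [logPt_nearInfinity hg2 (hp.ne_zero 1 h11) (hp.curve 1 h11)]
    refine ⟨?_, ?_⟩
    · rw [add_right_comm]
      exact l1
    · rw [add_right_comm]
      exact l2
  · have i1 : IntervalIntegrable g₁ volume 0 1 := hg₁c.intervalIntegrable _ _
    have i2 : IntervalIntegrable g₂ volume 0 1 := hg₂c.intervalIntegrable _ _
    have hρ := ρ_ne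
    rw [add_sub_cancel_left, add_sub_cancel_left, ← intervalIntegral.integral_div,
      ← intervalIntegral.integral_add i1 (i2.div_const ρ), ← intervalIntegral.integral_const_mul]
    refine intervalIntegral.integral_congr fun y hy => ?_
    have hy' : y ∈ Icc (0 : ℝ) 1 := by rwa [uIcc_of_le zero_le_one] at hy
    show h y = 1 / (3 * I) * (g₁ y + g₂ y / ρ)
    have hI := Complex.I_ne_zero
    have hu3 : u y ^ 3 ≠ 0 := pow_ne_zero 3 (hp.ne_zero y hy')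
    have e1 := hg₁e y hy'
    have e2 := hg₂e y hy'
    have e3 := hp.form y hy'
    have e4 : h y * (3 * I * ρ * u y ^ 3) = (ρ * g₁ y + g₂ y) * u y ^ 3 := by
      linear_combination (3 * I * ρ) * e3 - ρ * e1 - e2
    have e5 : h y * (3 * I * ρ) = ρ * g₁ y + g₂ y := by
      apply mul_right_cancel₀ hu3
      linear_combination e4
    field_simp
    linear_combination e5

/-- logarithms along a path -/
theorem lift_path (hg2 : (sq c hc).g₂ = 4) {p q : Pt} {J : ℂ} {ℓ : ℝ} (hp : Path s p q J ℓ)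
    {z₁ z₂ : ℂ} (h0 : LogPt c hc s p z₁ z₂) :
    ∃ z₁' z₂', LogPt c hc s q z₁' z₂' ∧ J = 1 / (3 * I) * ((z₁' - z₁) + (z₂' - z₂) / ρ) := by
  induction hp generalizing z₁ z₂ with
  | affine hp => exact lift_affine hg2 hp h0
  | infinite hp => exact lift_infinite hg2 hp h0
  | trans h1 h2 ih1 ih2 =>
    obtain ⟨w₁, w₂, hw, e⟩ := ih1 h0
    obtain ⟨w₁', w₂', hw', e'⟩ := ih2 hw
    refine ⟨w₁', w₂', hw', ?_⟩
    rw [e, e']
    ring

/-- end points lie on the curve -/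
lemma Path.onCurve {p q : Pt} {J : ℂ} {ℓ : ℝ} (hp : Path s p q J ℓ) : OnCurve s p ∧ OnCurve s q := by
  induction hp with
  | affine hp => exact ⟨hp.curve 0 (left_mem_Icc.2 zero_le_one),
      hp.curve 1 (right_mem_Icc.2 zero_le_one)⟩
  | infinite hp => exact ⟨onCurve_nearInfinity (hp.curve 0 (left_mem_Icc.2 zero_le_one)),
      onCurve_nearInfinity (hp.curve 1 (right_mem_Icc.2 zero_le_one))⟩
  | trans h1 h2 ih1 ih2 => exact ⟨ih1.1, ih2.2⟩

end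

end Pool.Agent.R946.AP
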