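import Pool.Agent.R946.AP.Star
import Pool.Agent.R946.AP.Arc

/-!
# No arithmetic point
-/

set_option autoImplicit false

open Filter Set MeasureTheory
open scoped Topology PeriodPair

noncomputable section

namespace Pool.Agent.R946.AP

open H667R3 Pool.Agent.W245.EB
open Complex (I)

section

variable {c : ℂ} {hc : c ≠ 0} {s : ℂ}

lemma f_factor₁ (q : ℂ) : f q = -2 * (q - 2) * (q - -2) * (q - -5 / 2) := by
  unfold f
  ring

lemma f_factor₂ (q : ℂ) : f q = -2 * (q - -5 / 2) * (q - 2) * (q - -2) := by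
  unfold f
  ring

lemma logPt_branch_two {R z₁ z₂ : ℂ} (hR : R ^ 2 + s = 2)
    (h : LogPt c hc s (Pt.affine R 0) z₁ z₂) :
    z₁ + TT c ∈ (sq c hc).lattice ∧ z₂ + TT c ∈ (sq c hc).lattice := by
  obtain ⟨⟨a1, -⟩, a3, -⟩ := h
  rw [hR] at a1 a3
  have b1 := a1 (by norm_num)
  have b3 := a3 (by norm_num)
  exact ⟨(eq_TT_iff b1.1).1 (by rw [b1.2.1]; norm_num),
    (eq_TT_iff b3.1).1 (by rw [b3.2.1]; norm_num)⟩

lemma logPt_branch_five {R z₁ z₂ : ℂ} (hR : R ^ 2 + s = -5 / 2)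
    (h : LogPt c hc s (Pt.affine R 0) z₁ z₂) :
    z₁ ∈ (sq c hc).lattice ∧ z₂ ∈ (sq c hc).lattice := by
  obtain ⟨⟨-, a2⟩, -, a4⟩ := h
  rw [hR] at a2 a4
  have b2 := a2 (by norm_num)
  have b4 := a4 (by norm_num)
  have hm := two_TT_mem (c := c) (hc := hc)
  have h1 := (eq_TT_iff b2.1).1 (by rw [b2.2.1]; norm_num)
  have h2 := (eq_TT_iff b4.1).1 (by rw [b4.2.1]; norm_num)
  have h3 := Submodule.sub_mem _ h1 hm
  have h4 := Submodule.sub_mem _ h2 hm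
  rw [show z₁ + TT c + TT c - 2 * TT c = z₁ by ring] at h3
  rw [show z₂ + TT c + TT c - 2 * TT c = z₂ by ring] at h4
  exact ⟨h3, h4⟩

/-- an algebraic multiple of the period, for lattice points and their translates -/
lemma mem_alg_mul {l : ℂ} (h : l ∈ (sq c hc).lattice) : ∃ α, IsAlgebraic ℚ α ∧ l = α * c := by
  rw [mem_sq] at h
  obtain ⟨m, n, rfl⟩ := h
  refine ⟨m + n * I, ?_, rfl⟩
  rw [← mem_QB]
  exact add_mem (intCast_mem _ _) (mul_mem (intCast_mem _ _) (mem_QB.2 alg_I))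

theorem not_arith (hs : f s ≠ 0) (halg : IsAlgebraic ℚ s) :
    ¬ ∃ c₀ : ℂ, ∀ J : ℂ, RelPeriod s J → ∃ α : ℂ, IsAlgebraic ℚ α ∧ J = α * c₀ := by
  rintro ⟨c₀, hall⟩
  obtain ⟨c, hc, hg2⟩ := exists_sq_g₂ 4 (by norm_num)
  obtain ⟨Y₀, hY₀⟩ := IsAlgClosed.exists_pow_nat_eq (f s) (n := 4) (by norm_num)
  have hY₀0 : Y₀ ≠ 0 := by
    intro h
    apply hs
    rw [← hY₀, h]
    norm_num
  have hon : OnCurve s (Pt.affine 0 Y₀) := by
    show Y₀ ^ 4 = f (0 ^ 2 + s)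
    rw [hY₀]
    congr 1
    ring
  obtain ⟨a, b, hab⟩ := exists_LogPt (c := c) (hc := hc) hg2 hon
  -- the two arcs
  obtain ⟨r₁, Y₁, h₁, p₁, e1, e2, e3, e4⟩ := exists_arc f_factor₁ (by norm_num) (by norm_num) hs hY₀
  obtain ⟨r₃, Y₃, h₃, p₃, g1, g2, g3, g4⟩ := exists_arc f_factor₂ (by norm_num) (by norm_num) hs hY₀
  obtain ⟨P₁, Q₁⟩ := path_of_arc p₁ e1 e2 e4
  obtain ⟨P₃, Q₃⟩ := path_of_arc p₃ g1 g2 g4
  set V₁ := ∫ t in (0 : ℝ)..1, h₁ t with hV₁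
  set V₃ := ∫ t in (0 : ℝ)..1, h₃ t with hV₃
  obtain ⟨z₁, z₂, hz, eV₁⟩ := lift_path hg2 P₁ hab
  obtain ⟨w₁, w₂, hw, eV₃⟩ := lift_path hg2 P₃ hab
  obtain ⟨mz₁, mz₂⟩ := logPt_branch_two e3 hz
  obtain ⟨mw₁, mw₂⟩ := logPt_branch_five g3 hw
  obtain ⟨α₁, hα₁, k₁⟩ := hall _ ⟨_, _, _, Q₁, Or.inr ⟨isZero_zero _, isZero_zero _⟩⟩
  obtain ⟨α₃, hα₃, k₃⟩ := hall _ ⟨_, _, _, Q₃, Or.inr ⟨isZero_zero _, isZero_zero _⟩⟩
  have hρ := ρ_ne
  have hI := Complex.I_ne_zero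
  have h1I : (1 - I : ℂ) ≠ 0 := by
    intro h
    have := congrArg Complex.re h
    simp at this
  -- the difference of the two arcs
  obtain ⟨m, n, hmn⟩ := mem_sq.1 (Submodule.sub_mem _ mz₁ mw₁)
  obtain ⟨m', n', hmn'⟩ := mem_sq.1 (Submodule.sub_mem _ mz₂ mw₂)
  have hTT : TT c = (1 + I) / 2 * c := by unfold TT; ring
  set δ : ℂ := ((2 * m - 1) + (2 * n - 1) * I) / 2 + ((2 * m' - 1) + (2 * n' - 1) * I) / 2 / ρ
    with hδ
  have hδe : (z₁ - w₁) + (z₂ - w₂) / ρ = δ * c := by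
    rw [hδ]
    have e5 : z₁ - w₁ = ((2 * m - 1) + (2 * n - 1) * I) / 2 * c := by
      linear_combination -hmn - hTT
    have e6 : z₂ - w₂ = ((2 * m' - 1) + (2 * n' - 1) * I) / 2 * c := by
      linear_combination -hmn' - hTT
    rw [e5, e6]
    ring
  have hδ0 : δ ≠ 0 := by
    intro h
    have h5 : ((-(2 * m' - 1) : ℤ) : ℂ) + ((-(2 * n' - 1) : ℤ) : ℂ) * I =
        ρ * (((2 * m - 1 : ℤ) : ℂ) + ((2 * n - 1 : ℤ) : ℂ) * I) := by
      rw [hδ] at h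
      field_simp at h
      push_cast
      linear_combination -h
    have h6 := (sqrt_two_notMem h5).2
    have h7 := congrArg Complex.re h6
    simp at h7
    have h8 : (2 * m - 1 : ℤ) = 0 := by
      have h9 : ((2 * m - 1 : ℤ) : ℝ) = ((0 : ℤ) : ℝ) := by
        push_cast
        exact h7
      exact Int.cast_injective h9
    omega
  have hδalg : IsAlgebraic ℚ δ := by
    have hIQ := mem_QB.2 alg_I
    have hρQ := mem_QB.2 alg_ρ
    rw [← mem_QB, hδ]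
    refine add_mem (div_mem (add_mem (sub_mem (mul_mem (ofNat_mem _ 2) (intCast_mem _ _))
      (one_mem _)) (mul_mem (sub_mem (mul_mem (ofNat_mem _ 2) (intCast_mem _ _))
      (one_mem _)) hIQ)) (ofNat_mem _ 2)) (div_mem (div_mem (add_mem (sub_mem (mul_mem
      (ofNat_mem _ 2) (intCast_mem _ _)) (one_mem _)) (mul_mem (sub_mem (mul_mem (ofNat_mem _ 2)
      (intCast_mem _ _)) (one_mem _)) hIQ)) (ofNat_mem _ 2)) hρQ)
  have hdiff : 3 * I * (V₁ - V₃) = δ * c := by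
    rw [← hδe, eV₁, eV₃]
    field_simp
    ring
  have hα : (α₁ - α₃) * c₀ * (3 * I) = (1 - I) * (δ * c) := by
    rw [← hdiff]
    linear_combination (-3 * I) * k₁ + (3 * I) * k₃
  have hne : α₁ - α₃ ≠ 0 := by
    intro h
    rw [h, zero_mul, zero_mul] at hα
    rcases mul_eq_zero.1 hα.symm with h5 | h5
    · exact h1I h5
    · rcases mul_eq_zero.1 h5 with h6 | h6
      · exact hδ0 h6
      · exact hc h6
  -- the arc is an algebraic multiple of the period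
  have hV₁c : 3 * I * V₁ = (α₁ * δ / (α₁ - α₃)) * c := by
    rw [div_mul_eq_mul_div, eq_div_iff hne]
    apply mul_left_cancel₀ h1I
    linear_combination (3 * I * (α₁ - α₃)) * k₁ + α₁ * hα
  -- hence so is `a + b / √2`
  obtain ⟨β₁, hβ₁, l₁⟩ := mem_alg_mul mz₁
  obtain ⟨β₂, hβ₂, l₂⟩ := mem_alg_mul mz₂
  have hfin : a + b / ρ = ((β₁ - (1 + I) / 2) + (β₂ - (1 + I) / 2) / ρ - α₁ * δ / (α₁ - α₃)) * c := by
    have e5 : 3 * I * V₁ = (z₁ - a) + (z₂ - b) / ρ := by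
      rw [eV₁]
      field_simp
    have e6 : z₁ = (β₁ - (1 + I) / 2) * c := by linear_combination l₁ - hTT
    have e7 : z₂ = (β₂ - (1 + I) / 2) * c := by linear_combination l₂ - hTT
    rw [sub_mul, ← hV₁c, e5, e6, e7]
    ring
  have hγ : IsAlgebraic ℚ ((β₁ - (1 + I) / 2) + (β₂ - (1 + I) / 2) / ρ - α₁ * δ / (α₁ - α₃)) := by
    rw [← mem_QB]
    have q1 := mem_QB.2 alg_I
    have q2 := mem_QB.2 alg_ρ
    have q3 := mem_QB.2 hβ₁
    have q4 := mem_QB.2 hβ₂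
    have q5 := mem_QB.2 hα₁
    have q6 := mem_QB.2 hα₃
    have q7 := mem_QB.2 hδalg
    have q8 : (1 + I) / 2 ∈ QB := div_mem (add_mem (one_mem _) q1) (ofNat_mem _ 2)
    exact sub_mem (add_mem (sub_mem q3 q8) (div_mem (sub_mem q4 q8) q2))
      (div_mem (mul_mem q5 q7) (sub_mem q5 q6))
  -- the `x`-coordinates
  obtain ⟨⟨b1, -⟩, b3, -⟩ := hab
  have h5 : 2 * ((0 : ℂ) ^ 2 + s) + 5 ≠ 0 := by
    intro h
    apply hs
    unfold f
    linear_combination (4 - s ^ 2) * h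
  have c1 := b1 h5
  have c3 := b3 h5
  have hYalg : Y₀ ∈ QB := by
    rw [mem_QB]
    have h6 : IsAlgebraic ℚ (Y₀ ^ 4) := by
      rw [hY₀, ← mem_QB]
      unfold f
      have q1 := mem_QB.2 halg
      exact mul_mem (sub_mem (ofNat_mem _ 4) (pow_mem q1 2)) (add_mem (mul_mem (ofNat_mem _ 2) q1)
        (ofNat_mem _ 5))
    exact h6.of_pow (by norm_num)
  refine star hg2 (x := Y₀ ^ 2 / (2 * ((0 : ℂ) ^ 2 + s) + 5)) ?_ ?_ c1.1 c1.2.1 c3.1 ?_ hγ hfin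
  · exact div_ne_zero (pow_ne_zero 2 hY₀0) h5
  · rw [← mem_QB]
    exact div_mem (pow_mem hYalg 2) (add_mem (mul_mem (ofNat_mem _ 2) (add_mem
      (pow_mem (zero_mem _) 2) (mem_QB.2 halg))) (ofNat_mem _ 5))
  · rw [c3.2.1]
    field_simp

/-- the relative periods along the family lie on a line defined over `ℚ(i, √2)` -/
theorem linear_family : ∃ Ω : ℂ, Ω ≠ 0 ∧ ∀ s Y₀ : ℂ, Y₀ ^ 4 = f s → Y₀ ≠ 0 → ∃ U : ℂ,
    ∀ (p q : Pt) (J : ℂ) (ℓ : ℝ), Path s p q J ℓ → (p = q ∨ (IsZero p ∧ IsZero q)) →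
      ∃ α ∈ K, J = α * Ω + (weight Y₀ q - weight Y₀ p) * U := by
  obtain ⟨c, hc, hg2⟩ := exists_sq_g₂ 4 (by norm_num)
  refine ⟨c, hc, fun s Y₀ hY₀ hne => ?_⟩
  have hon : OnCurve s (Pt.affine 0 Y₀) := by
    show Y₀ ^ 4 = f (0 ^ 2 + s)
    rw [hY₀]
    congr 1
    ring
  obtain ⟨a, b, hab⟩ := exists_LogPt (c := c) (hc := hc) hg2 hon
  exact ⟨1 / (3 * I) * (a + b / ρ), fun p q J ℓ hp hz => linear_of hg2 hne hY₀ hab hp hz⟩

end

end Pool.Agent.R946.AP
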