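import Mathlib
import Pool.Agent.W245.EB.Red

/-!
# Lifting of paths on an elliptic curve to the plane
-/

set_option autoImplicit false

open Filter Set
open scoped Topology PeriodPair

noncomputable section

namespace Pool.Agent.R946.AP

open H667R3 Pool.Agent.W245.EB

theorem hasDerivAt_wp'_all (L : PeriodPair) {z : ℂ} (hz : z ∉ L.lattice) :
    HasDerivAt ℘'[L] (6 * ℘[L] z ^ 2 - L.g₂ / 2) z := by
  have hd : DifferentiableAt ℂ ℘'[L] z :=
    (L.differentiableOn_derivWeierstrassP z hz).differentiableAt ((isOpen_compl L).mem_nhds hz)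
  have han : AnalyticAt ℂ ℘'[L] z := L.analyticOnNhd_derivWeierstrassP z hz
  have han2 : AnalyticAt ℂ ℘[L] z := L.analyticOnNhd_weierstrassP z hz
  have hc1 : ContinuousAt (deriv ℘'[L]) z := han.deriv.continuousAt
  have hc2 : ContinuousAt (fun u => 6 * ℘[L] u ^ 2 - L.g₂ / 2) z :=
    ((han2.pow 2).continuousAt.const_mul 6).sub continuousAt_const
  have hev : ∀ᶠ u in 𝓝[≠] z, deriv ℘'[L] u = 6 * ℘[L] u ^ 2 - L.g₂ / 2 := by
    have h1 : ∀ᶠ u in 𝓝[≠] z, 2 * u ∉ L.lattice := by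
      have h2 : ((L.lattice : Set ℂ) \ {2 * z})ᶜ ∈ 𝓝 (2 * z) :=
        L.compl_lattice_sdiff_singleton_mem_nhds (2 * z)
      have h3 : Tendsto (fun u : ℂ => 2 * u) (𝓝 z) (𝓝 (2 * z)) :=
        (by fun_prop : Continuous fun u : ℂ => 2 * u).tendsto z
      have h4 := h3.eventually h2
      filter_upwards [h4.filter_mono nhdsWithin_le_nhds, self_mem_nhdsWithin] with u hu hu'
      intro h5
      apply hu
      refine ⟨h5, ?_⟩
      intro h6
      have h7 : 2 * u = 2 * z := h6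
      exact hu' (mul_left_cancel₀ two_ne_zero h7)
    filter_upwards [h1] with u hu
    exact (hasDerivAt_wp' L hu).deriv
  have h5 : Tendsto (deriv ℘'[L]) (𝓝[≠] z) (𝓝 (deriv ℘'[L] z)) :=
    hc1.tendsto.mono_left nhdsWithin_le_nhds
  have h6 : Tendsto (deriv ℘'[L]) (𝓝[≠] z) (𝓝 (6 * ℘[L] z ^ 2 - L.g₂ / 2)) :=
    (hc2.tendsto.mono_left nhdsWithin_le_nhds).congr' (hev.mono fun u hu => hu.symm)
  rw [← tendsto_nhds_unique h5 h6]
  exact hd.hasDerivAt

/-- poles of `℘` -/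
theorem tendsto_wp (L : PeriodPair) {l : ℂ} (hl : l ∈ L.lattice) :
    Tendsto (fun z => ‖℘[L] z‖) (𝓝[≠] l) atTop := by
  have hord := L.order_weierstrassP l hl
  have h2 : Tendsto ℘[L] (𝓝[≠] l) (Bornology.cobounded ℂ) := by
    apply tendsto_cobounded_of_meromorphicOrderAt_neg
    rw [hord]
    decide
  exact tendsto_norm_atTop_iff_cobounded.mpr h2

/-- `℘` cannot stay bounded along a sequence outside the lattice with limit in the lattice -/
theorem notMem_of_tendsto (L : PeriodPair) {ι : Type*} {F : Filter ι} [F.NeBot] {z : ι → ℂ} {l v : ℂ}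
    (hz : Tendsto z F (𝓝 l)) (hzl : ∀ᶠ t in F, z t ∉ L.lattice)
    (hv : Tendsto (fun t => ℘[L] (z t)) F (𝓝 v)) : l ∉ L.lattice := by
  intro hl
  have h1 : Tendsto z F (𝓝[≠] l) := by
    rw [tendsto_nhdsWithin_iff]
    refine ⟨hz, hzl.mono fun t ht h => ht ?_⟩
    rw [mem_singleton_iff] at h
    rw [h]
    exact hl
  have h2 := (tendsto_wp L hl).comp h1
  have h3 := hv.norm
  exact not_tendsto_nhds_of_tendsto_atTop h2 _ h3

theorem continuousAt_wp (L : PeriodPair) {z : ℂ} (hz : z ∉ L.lattice) : ContinuousAt ℘[L] z :=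
  (hasDerivAt_weierstrassP L hz).continuousAt

theorem continuousAt_wp' (L : PeriodPair) {z : ℂ} (hz : z ∉ L.lattice) : ContinuousAt ℘'[L] z :=
  (hasDerivAt_wp'_all L hz).continuousAt

/-- uniqueness for the differential equation of `℘` -/
theorem ode_local (L : PeriodPair) {X W z z' : ℝ → ℂ} {a b : ℝ}
    (hX : ∀ t ∈ Icc a b, HasDerivAt X (W t * z' t) t)
    (hW : ∀ t ∈ Icc a b, HasDerivAt W ((6 * X t ^ 2 - L.g₂ / 2) * z' t) t)
    (hz : ∀ t ∈ Icc a b, HasDerivAt z (z' t) t) (hz' : ContinuousOn z' (Icc a b))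
    (hzl : ∀ t ∈ Icc a b, z t ∉ L.lattice) (h0 : X a = ℘[L] (z a)) (h0' : W a = ℘'[L] (z a)) :
    ∀ t ∈ Icc a b, X t = ℘[L] (z t) ∧ W t = ℘'[L] (z t) := by
  have hp : ∀ t ∈ Icc a b, HasDerivAt (fun t => ℘[L] (z t)) (℘'[L] (z t) * z' t) t := fun t ht =>
    (hasDerivAt_weierstrassP L (hzl t ht)).comp t (hz t ht)
  have hp' : ∀ t ∈ Icc a b, HasDerivAt (fun t => ℘'[L] (z t))
      ((6 * ℘[L] (z t) ^ 2 - L.g₂ / 2) * z' t) t := fun t ht =>
    (hasDerivAt_wp'_all L (hzl t ht)).comp t (hz t ht)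
  have hXc : ContinuousOn X (Icc a b) := fun t ht => (hX t ht).continuousAt.continuousWithinAt
  have hpc : ContinuousOn (fun t => ℘[L] (z t)) (Icc a b) := fun t ht =>
    (hp t ht).continuousAt.continuousWithinAt
  obtain ⟨M, hM⟩ := isCompact_Icc.exists_bound_of_continuousOn hz'
  obtain ⟨N, hN⟩ := isCompact_Icc.exists_bound_of_continuousOn (hXc.add hpc)
  set K : ℝ := |M| * (1 + 6 * |N|) with hK
  have key := eq_zero_of_abs_deriv_le_mul_abs_self_of_eq_zero_right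
    (f := fun t => ((X t - ℘[L] (z t), W t - ℘'[L] (z t)) : ℂ × ℂ))
    (f' := fun t => ((W t * z' t - ℘'[L] (z t) * z' t, (6 * X t ^ 2 - L.g₂ / 2) * z' t -
      (6 * ℘[L] (z t) ^ 2 - L.g₂ / 2) * z' t) : ℂ × ℂ)) (K := K) (a := a) (b := b) ?_ ?_ ?_ ?_
  · intro t ht
    have h1 := key t ht
    rw [Prod.mk_eq_zero] at h1
    exact ⟨sub_eq_zero.1 h1.1, sub_eq_zero.1 h1.2⟩
  · intro t ht
    exact (((hX t ht).sub (hp t ht)).prodMk ((hW t ht).sub (hp' t ht))).continuousAt.continuousWithinAt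
  · intro t ht
    have ht' := Ico_subset_Icc_self ht
    exact (((hX t ht').sub (hp t ht')).prodMk ((hW t ht').sub (hp' t ht'))).hasDerivWithinAt
  · show ((X a - ℘[L] (z a), W a - ℘'[L] (z a)) : ℂ × ℂ) = 0
    rw [h0, h0', sub_self, sub_self]
    rfl
  · intro t ht
    have ht' := Ico_subset_Icc_self ht
    have hM' : ‖z' t‖ ≤ |M| := (hM t ht').trans (le_abs_self M)
    have hN' : ‖X t + ℘[L] (z t)‖ ≤ |N| := (hN t ht').trans (le_abs_self N)
    set A := X t - ℘[L] (z t) with hA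
    set B := W t - ℘'[L] (z t) with hB
    have e1 : W t * z' t - ℘'[L] (z t) * z' t = B * z' t := by rw [hB]; ring
    have e2 : (6 * X t ^ 2 - L.g₂ / 2) * z' t - (6 * ℘[L] (z t) ^ 2 - L.g₂ / 2) * z' t =
        6 * (X t + ℘[L] (z t)) * A * z' t := by rw [hA]; ring
    rw [e1, e2]
    have hn : ‖((A, B) : ℂ × ℂ)‖ = max ‖A‖ ‖B‖ := rfl
    have hn2 : ‖((B * z' t, 6 * (X t + ℘[L] (z t)) * A * z' t) : ℂ × ℂ)‖ =
        max ‖B * z' t‖ ‖6 * (X t + ℘[L] (z t)) * A * z' t‖ := rfl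
    rw [hn, hn2]
    have hA0 : ‖A‖ ≤ max ‖A‖ ‖B‖ := le_max_left _ _
    have hB0 : ‖B‖ ≤ max ‖A‖ ‖B‖ := le_max_right _ _
    have hm0 : 0 ≤ max ‖A‖ ‖B‖ := (norm_nonneg A).trans hA0
    refine max_le ?_ ?_
    · rw [norm_mul]
      calc ‖B‖ * ‖z' t‖ ≤ max ‖A‖ ‖B‖ * |M| :=
            mul_le_mul hB0 hM' (norm_nonneg _) hm0
        _ ≤ K * max ‖A‖ ‖B‖ := by
            rw [hK]
            have : 0 ≤ |M| * (6 * |N|) * max ‖A‖ ‖B‖ := by positivity
            nlinarith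
    · rw [norm_mul, norm_mul, norm_mul]
      have h6 : ‖(6 : ℂ)‖ = 6 := by norm_num
      rw [h6]
      calc 6 * ‖X t + ℘[L] (z t)‖ * ‖A‖ * ‖z' t‖ ≤ 6 * |N| * max ‖A‖ ‖B‖ * |M| := by gcongr
        _ ≤ K * max ‖A‖ ‖B‖ := by
            rw [hK]
            have : 0 ≤ |M| * max ‖A‖ ‖B‖ := by positivity
            nlinarith

end Pool.Agent.R946.AP
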