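import Pool.Agent.R946.AP.Ode

/-!
# The square lattice with `g₂ = 4` and the translation by the point `(0, 0)`
-/

set_option autoImplicit false

open Filter Set
open scoped Topology PeriodPair

noncomputable section

namespace Pool.Agent.R946.AP

open H667R3 Pool.Agent.W245.EB
open Complex (I)

section

variable {c : ℂ} {hc : c ≠ 0}

/-- the half period fixed by `i` -/
def TT (c : ℂ) : ℂ := (1 + I) * c / 2

lemma TT_notMem : TT c ∉ (sq c hc).lattice := by
  have h := half_add_half_notMem (sq c hc)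
  rw [sq_ω₁, sq_ω₂] at h
  have e : TT c = c / 2 + I * c / 2 := by unfold TT; ring
  rw [e]
  exact h

lemma two_TT_mem : 2 * TT c ∈ (sq c hc).lattice := by
  rw [mem_sq]
  refine ⟨1, 1, ?_⟩
  unfold TT
  push_cast
  ring

lemma I_TT : I * TT c = TT c - c := by
  unfold TT
  linear_combination (c / 2) * Complex.I_mul_I

lemma c_mem : c ∈ (sq c hc).lattice := by
  rw [mem_sq]
  exact ⟨1, 0, by push_cast; ring⟩

lemma wp_TT : ℘[sq c hc] (TT c) = 0 := by
  have h1 := wp_I_mul (CM_sq (c := c) (hc := hc)) (TT c)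
  rw [I_TT] at h1
  have h2 : ℘[sq c hc] (TT c - c) = ℘[sq c hc] (TT c) :=
    (sq c hc).weierstrassP_sub_coe _ ⟨c, c_mem⟩
  rw [h2] at h1
  have h3 : (2 : ℂ) * ℘[sq c hc] (TT c) = 0 := by linear_combination h1
  simpa using h3

lemma wp'_TT : ℘'[sq c hc] (TT c) = 0 := by
  have h := wp'_half_eq_zero (sq c hc) (w := 2 * TT c) two_TT_mem
  rwa [show 2 * TT c / 2 = TT c by ring] at h

lemma eq_TT_iff {z : ℂ} (hz : z ∉ (sq c hc).lattice) :
    ℘[sq c hc] z = 0 ↔ z + TT c ∈ (sq c hc).lattice := by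
  have h := wp_eq_iff (sq c hc) hz (TT_notMem (c := c) (hc := hc))
  rw [wp_TT] at h
  rw [h]
  constructor
  · rintro (h | h)
    · exact h
    · have := add_mem h (two_TT_mem (c := c) (hc := hc))
      rwa [show z - TT c + 2 * TT c = z + TT c by ring] at this
  · intro h
    exact Or.inl h

lemma wp_sq_eq (hg : (sq c hc).g₂ = 4) {z : ℂ} (hz : z ∉ (sq c hc).lattice) :
    ℘'[sq c hc] z ^ 2 = 4 * ℘[sq c hc] z ^ 3 - 4 * ℘[sq c hc] z := by
  rw [(sq c hc).derivWeierstrassP_sq z hz, hg, g₃_eq_zero CM_sq]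
  ring

/-- translation by the point `(0, 0)` -/
lemma wp_add_TT (hg : (sq c hc).g₂ = 4) {z : ℂ} (hz : z ∉ (sq c hc).lattice)
    (hz' : z + TT c ∉ (sq c hc).lattice) : ℘[sq c hc] (z + TT c) = -1 / ℘[sq c hc] z := by
  set L := sq c hc with hL
  have hne : ∀ u, u ∉ L.lattice → u + TT c ∉ L.lattice → ℘[L] u ≠ 0 := fun u hu hu' h =>
    hu' ((eq_TT_iff hu).1 h)
  have hgen : ∀ u, 2 * u ∉ L.lattice → u + TT c ∉ L.lattice →
      ℘[L] (u + TT c) = -1 / ℘[L] u := by
    intro u hu hu1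
    have hu0 := two_mul_notMem_of L hu
    have hu2 : u - TT c ∉ L.lattice := by
      intro h
      apply hu1
      have := add_mem h (two_TT_mem (c := c) (hc := hc))
      rwa [show u - TT c + 2 * TT c = u + TT c by ring] at this
    have h1 := wp_add L hu (TT_notMem (c := c) (hc := hc)) hu1 hu2
    rw [wp_TT, wp'_TT, hg] at h1
    have h2 := wp_sq_eq hg hu0
    have h3 := hne u hu0 hu1
    rw [h1]
    have h4 : ℘'[L] u ^ 2 = 4 * ℘[L] u ^ 3 - 4 * ℘[L] u := h2
    clear h1 h2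
    generalize ℘[L] u = x at *
    generalize ℘'[L] u = y at *
    field_simp
    linear_combination (2 * x) * h4
  by_cases h2 : 2 * z ∉ L.lattice
  · exact hgen z h2 hz'
  · have c1 : ContinuousAt (fun u => ℘[L] (u + TT c)) z :=
      ContinuousAt.comp (f := fun u => u + TT c) (continuousAt_wp L hz') (by fun_prop)
    have c2 : ContinuousAt (fun u => -1 / ℘[L] u) z :=
      continuousAt_const.div (continuousAt_wp L hz) (hne z hz hz')
    have hev : ∀ᶠ u in 𝓝[≠] z, ℘[L] (u + TT c) = -1 / ℘[L] u := by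
      have h1 : ∀ᶠ u in 𝓝[≠] z, 2 * u ∉ L.lattice := by
        have h2 : ((L.lattice : Set ℂ) \ {2 * z})ᶜ ∈ 𝓝 (2 * z) :=
          L.compl_lattice_sdiff_singleton_mem_nhds (2 * z)
        have h3 : Tendsto (fun u : ℂ => 2 * u) (𝓝 z) (𝓝 (2 * z)) :=
          (by fun_prop : Continuous fun u : ℂ => 2 * u).tendsto z
        have h4 := h3.eventually h2
        filter_upwards [h4.filter_mono nhdsWithin_le_nhds, self_mem_nhdsWithin] with u hu hu'
        intro h5
        apply hu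
        refine ⟨h5, ?_⟩
        intro h6
        have h7 : 2 * u = 2 * z := h6
        exact hu' (mul_left_cancel₀ two_ne_zero h7)
      have h5 : ∀ᶠ u in 𝓝[≠] z, u + TT c ∉ L.lattice := by
        have h6 : IsOpen ((fun u => u + TT c) ⁻¹' (L.lattice : Set ℂ)ᶜ) :=
          (isOpen_compl L).preimage (by fun_prop)
        exact mem_nhdsWithin_of_mem_nhds (h6.mem_nhds hz')
      filter_upwards [h1, h5] with u hu hu'
      exact hgen u hu hu'
    exact tendsto_nhds_unique (c1.tendsto.mono_left nhdsWithin_le_nhds)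
      ((c2.tendsto.mono_left nhdsWithin_le_nhds).congr' (hev.mono fun u hu => hu.symm))

lemma wp_ne_zero {z : ℂ} (hz : z ∉ (sq c hc).lattice)
    (hz' : z + TT c ∉ (sq c hc).lattice) : ℘[sq c hc] z ≠ 0 := fun h => hz' ((eq_TT_iff hz).1 h)

lemma wp'_add_TT (hg : (sq c hc).g₂ = 4) {z : ℂ} (hz : z ∉ (sq c hc).lattice)
    (hz' : z + TT c ∉ (sq c hc).lattice) :
    ℘'[sq c hc] (z + TT c) = ℘'[sq c hc] z / ℘[sq c hc] z ^ 2 := by
  set L := sq c hc with hL
  have d1 : HasDerivAt (fun u => ℘[L] (u + TT c)) (℘'[L] (z + TT c)) z :=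
    (hasDerivAt_weierstrassP L hz').comp_add_const z (TT c)
  have d2 : HasDerivAt (fun u => -1 / ℘[L] u) (℘'[L] z / ℘[L] z ^ 2) z := by
    have h1 := (hasDerivAt_weierstrassP L hz).fun_inv (wp_ne_zero hz hz')
    have h2 := h1.const_mul (-1)
    have e : (fun u => -1 / ℘[L] u) = fun u => -1 * (℘[L] u)⁻¹ := by
      funext u
      rw [div_eq_mul_inv]
    rw [e]
    refine h2.congr_deriv ?_
    rw [neg_div, neg_one_mul, neg_neg]
  refine d1.unique (d2.congr_of_eventuallyEq ?_)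
  have h5 : ∀ᶠ u in 𝓝 z, u + TT c ∉ L.lattice := by
    have h6 : IsOpen ((fun u => u + TT c) ⁻¹' (L.lattice : Set ℂ)ᶜ) :=
      (isOpen_compl L).preimage (by fun_prop)
    exact h6.mem_nhds hz'
  filter_upwards [(isOpen_compl L).mem_nhds hz, h5] with u hu hu'
  exact wp_add_TT hg hu hu'

/-- the logarithms of the point `(X, W / 2)` of `y² = x³ - x` -/
def LogA (c : ℂ) (hc : c ≠ 0) (X W z : ℂ) : Prop :=
  z ∉ (sq c hc).lattice ∧ ℘[sq c hc] z = X ∧ ℘'[sq c hc] z = W

lemma LogA.shift (hg : (sq c hc).g₂ = 4) {X W z : ℂ} (h : LogA c hc X W z) (hX : X ≠ 0) :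
    LogA c hc (-1 / X) (W / X ^ 2) (z + TT c) := by
  obtain ⟨h1, h2, h3⟩ := h
  have h4 : z + TT c ∉ (sq c hc).lattice := fun h => hX (by rw [← h2]; exact (eq_TT_iff h1).2 h)
  exact ⟨h4, by rw [wp_add_TT hg h1 h4, h2], by rw [wp'_add_TT hg h1 h4, h2, h3]⟩

lemma LogA.shift' (hg : (sq c hc).g₂ = 4) {X W z : ℂ} (h : LogA c hc X W (z + TT c))
    (hX : X ≠ 0) : LogA c hc (-1 / X) (W / X ^ 2) z := by
  have h1 := h.shift hg hX
  obtain ⟨h2, h3, h4⟩ := h1
  have e : z + TT c + TT c = z + 2 * TT c := by ring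
  rw [e] at h2 h3 h4
  have hm := two_TT_mem (c := c) (hc := hc)
  refine ⟨?_, ?_, ?_⟩
  · intro h5
    exact h2 (add_mem h5 hm)
  · rw [← h3, wp_add_lattice _ hm]
  · rw [← h4, wp'_add_lattice _ hm]

lemma LogA.add {X W z l : ℂ} (h : LogA c hc X W z) (hl : l ∈ (sq c hc).lattice) :
    LogA c hc X W (z + l) :=
  ⟨fun h1 => h.1 ((add_mem_lattice_iff _ hl).1 h1), by rw [wp_add_lattice _ hl, h.2.1],
    by rw [wp'_add_lattice _ hl, h.2.2]⟩

lemma LogA.sub_mem {X W z z' : ℂ} (h : LogA c hc X W z) (h' : LogA c hc X W z') :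
    z - z' ∈ (sq c hc).lattice := by
  obtain ⟨h1, h2, h3⟩ := h
  obtain ⟨h1', h2', h3'⟩ := h'
  have h4 := (wp_eq_iff (sq c hc) h1 h1').1 (by rw [h2, h2'])
  rcases h4 with h4 | h4
  · have h5 : ℘'[sq c hc] z = -℘'[sq c hc] z' := by
      have e : z = -z' + (z + z') := by ring
      rw [e, wp'_add_lattice _ h4, (sq c hc).derivWeierstrassP_neg]
    by_cases h6 : 2 * z ∈ (sq c hc).lattice
    · have := Submodule.sub_mem _ h6 h4
      rwa [show 2 * z - (z + z') = z - z' by ring] at this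
    · exfalso
      have h7 := wp'_ne_zero (sq c hc) h6
      apply h7
      have h8 : ℘'[sq c hc] z = -℘'[sq c hc] z := by
        conv_rhs => rw [h3, ← h3']
        exact h5
      have h9 : (2 : ℂ) * ℘'[sq c hc] z = 0 := by linear_combination h8
      simpa using h9
  · exact h4

lemma LogA.I_mul {X W z : ℂ} (h : LogA c hc X W z) : LogA c hc (-X) (I * W) (I * z) := by
  obtain ⟨h1, h2, h3⟩ := h
  refine ⟨fun h => h1 ((I_mul_mem_iff CM_sq).1 h), ?_, ?_⟩
  · rw [wp_I_mul CM_sq, h2]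
  · rw [wp'_I_mul CM_sq, h3]

/-- every point has a logarithm -/
lemma exists_LogA (hg : (sq c hc).g₂ = 4) {X W : ℂ} (h : W ^ 2 = 4 * X ^ 3 - 4 * X) :
    ∃ z, LogA c hc X W z := by
  obtain ⟨z, hz, hzX⟩ := exists_wp_eq (sq c hc) X
  have h1 := wp_sq_eq hg hz
  rw [hzX, ← h] at h1
  rcases sq_eq_sq_iff_eq_or_eq_neg.1 h1 with h2 | h2
  · exact ⟨z, hz, hzX, h2⟩
  · refine ⟨-z, ?_, ?_, ?_⟩
    · intro h3
      exact hz (by simpa using neg_mem h3)
    · rw [(sq c hc).weierstrassP_neg, hzX]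
    · rw [(sq c hc).derivWeierstrassP_neg, h2, neg_neg]

end

end Pool.Agent.R946.AP
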