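import Pool.Agent.R946.AP.Core

/-!
# `a + b / √2` is not an algebraic multiple of the period
-/

set_option autoImplicit false

open Filter Set MeasureTheory
open scoped Topology PeriodPair

noncomputable section

namespace Pool.Agent.R946.AP

open H667R3 Pool.Agent.W245.EB
open Complex (I)

section

variable {c : ℂ} {hc : c ≠ 0}

lemma kL_sq {α : ℂ} (h : α ∈ kL (sq c hc)) : ∃ (m : ℕ) (x y : ℤ), 0 < m ∧ (m : ℂ) * α = x + y * I := by
  obtain ⟨m, hm, h1⟩ := h
  have h2 := h1 c c_mem
  rw [mem_sq] at h2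
  obtain ⟨x, y, h3⟩ := h2
  exact ⟨m, x, y, hm, (mul_right_cancel₀ hc h3).symm⟩

/-- `√2` is not in `ℚ(i)` -/
lemma sqrt_two_notMem {x y x' y' : ℤ} (h : (x : ℂ) + y * I = ρ * (x' + y' * I)) :
    (x : ℂ) + y * I = 0 ∧ (x' : ℂ) + y' * I = 0 := by
  have hirr : ∀ u v : ℤ, (u : ℝ) = √2 * v → u = 0 ∧ v = 0 := by
    intro u v huv
    by_cases hv : v = 0
    · subst hv
      refine ⟨?_, rfl⟩
      rw [Int.cast_zero, mul_zero] at huv
      exact_mod_cast huv
    · exfalso
      have hv' : (v : ℝ) ≠ 0 := by exact_mod_cast hv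
      have h1 : √2 = (u : ℝ) / v := by
        rw [eq_div_iff hv']
        exact huv.symm
      apply irrational_sqrt_two
      refine ⟨(u : ℚ) / v, ?_⟩
      push_cast
      exact h1.symm
  have hre := congrArg Complex.re h
  have him := congrArg Complex.im h
  unfold ρ at hre him
  simp at hre him
  obtain ⟨h1, h2⟩ := hirr x x' hre
  obtain ⟨h3, h4⟩ := hirr y y' him
  rw [h1, h2, h3, h4]
  simp

lemma alg_kL {α : ℂ} (h : α ∈ kL (sq c hc)) : IsAlgebraic ℚ α := by
  obtain ⟨m, x, y, hm, h1⟩ := kL_sq h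
  have hm' : (m : ℂ) ≠ 0 := by exact_mod_cast hm.ne'
  have h2 : α = (x + y * I) / m := by
    rw [eq_div_iff hm', mul_comm]
    exact h1
  rw [h2, ← mem_QB]
  have hI : I ∈ QB := mem_QB.2 (by
    refine ⟨Polynomial.X ^ 2 + 1, ?_, ?_⟩
    · exact (Polynomial.monic_X_pow_add_C (1 : ℚ) two_ne_zero).ne_zero
    · simp)
  exact div_mem (add_mem (intCast_mem _ _) (mul_mem (intCast_mem _ _) hI)) (natCast_mem _ _)

lemma alg_ofNat (n : ℕ) [n.AtLeastTwo] : IsAlgebraic ℚ (OfNat.ofNat n : ℂ) := by
  exact_mod_cast isAlgebraic_natCast (R := ℚ) (A := ℂ) n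

lemma alg_I : IsAlgebraic ℚ I := by
  refine ⟨Polynomial.X ^ 2 + 1, ?_, ?_⟩
  · exact (Polynomial.monic_X_pow_add_C (1 : ℚ) two_ne_zero).ne_zero
  · simp

lemma alg_ρ : IsAlgebraic ℚ ρ := by
  have h : IsAlgebraic ℚ (ρ ^ 2) := by
    rw [ρ_sq]
    exact alg_ofNat 2
  exact h.of_pow two_pos

/-- an elliptic logarithm that is an algebraic multiple of the period is torsion -/
lemma torsion_of_alg (hg2 : (sq c hc).g₂ = 4) {u γ : ℂ} (hu : u ∈ EL (sq c hc))
    (hγ : IsAlgebraic ℚ γ) (h : u = γ * c) : ∃ N : ℕ, 0 < N ∧ (N : ℂ) * u ∈ (sq c hc).lattice := by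
  have h2 : IsAlgebraic ℚ (sq c hc).g₂ := by
    rw [hg2]
    exact alg_ofNat 4
  have h3 : IsAlgebraic ℚ (sq c hc).g₃ := by
    rw [g₃_eq_zero CM_sq]
    exact isAlgebraic_zero
  by_contra hcon
  push Not at hcon
  have key := elliptic_baker h2 h3 (m := 2) ![u, c] ?_ ?_ ![1, -γ] ?_ ?_
  · have := congrFun key 0
    simp at this
  · intro r
    fin_cases r
    · exact hu
    · exact Or.inl c_mem
  · intro α hα h0
    simp only [Fin.sum_univ_two, Matrix.cons_val_zero, Matrix.cons_val_one] at h0
    obtain ⟨m, x, y, hm, e1⟩ := kL_sq (hα 0)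
    obtain ⟨m', x', y', hm', e2⟩ := kL_sq (hα 1)
    have hm0 : (m : ℂ) ≠ 0 := by exact_mod_cast hm.ne'
    have hm0' : (m' : ℂ) ≠ 0 := by exact_mod_cast hm'.ne'
    by_cases hα0 : α 0 = 0
    · have hα1 : α 1 = 0 := by
        rw [hα0, zero_mul, zero_add] at h0
        exact (mul_eq_zero.1 h0).resolve_right hc
      funext r
      fin_cases r
      · exact hα0
      · exact hα1
    · exfalso
      -- `u` is a rational multiple of the period
      set N : ℤ := x ^ 2 + y ^ 2 with hN
      have hxy : (N : ℂ) ≠ 0 := by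
        intro h4
        have h5 : x ^ 2 + y ^ 2 = 0 := by exact_mod_cast h4
        have hx : x = 0 := by nlinarith [sq_nonneg x, sq_nonneg y]
        have hy : y = 0 := by nlinarith [sq_nonneg x, sq_nonneg y]
        rw [hx, hy] at e1
        simp at e1
        exact e1.elim (fun h => hm0 (by exact_mod_cast h)) hα0
      have hNZ : N ≠ 0 := fun h4 => hxy (by rw [h4]; simp)
      have e3 : ((m' : ℂ) * N) * u = -((m : ℂ) * (x - y * I) * (x' + y' * I)) * c := by
        have e4 : (m : ℂ) * m' * (α 0 * u + α 1 * c) = 0 := by rw [h0, mul_zero]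
        have e5 : (m' : ℂ) * (x + y * I) * u + (m : ℂ) * (x' + y' * I) * c = 0 := by
          rw [← e1, ← e2]
          linear_combination e4
        have e6 : (N : ℂ) = (x - y * I) * (x + y * I) := by
          rw [hN]
          push_cast
          linear_combination ((y : ℂ) ^ 2) * Complex.I_sq
        rw [e6]
        linear_combination (x - y * I) * e5
      have hpos : 0 < m' * N.natAbs := Nat.mul_pos hm' (Int.natAbs_pos.2 hNZ)
      apply hcon _ hpos
      have hmem : ((m' : ℂ) * N) * u ∈ (sq c hc).lattice := by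
        rw [e3, mem_sq]
        refine ⟨-(m * (x * x' + y * y')), -(m * (x * y' - y * x')), ?_⟩
        push_cast
        linear_combination (-(m : ℂ) * y * y' * c) * Complex.I_sq
      have hNN : 0 ≤ N := by positivity
      have h6 : ((N.natAbs : ℕ) : ℂ) = (N : ℂ) := by
        rw [← Int.cast_natCast, Int.natAbs_of_nonneg hNN]
      push_cast at h6 ⊢
      rw [h6]
      exact hmem
  · intro r
    fin_cases r
    · exact isAlgebraic_one
    · exact hγ.neg
  · simp [Fin.sum_univ_two, h]

/-- `a + b / √2` is not an algebraic multiple of the period, for logarithms `a`, `b` of points with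
`x`-coordinates `x` and `x / 2`, `x ≠ 0` algebraic. -/
theorem star (hg2 : (sq c hc).g₂ = 4) {x a b γ : ℂ} (hx : x ≠ 0) (hxa : IsAlgebraic ℚ x)
    (ha : a ∉ (sq c hc).lattice) (hax : ℘[sq c hc] a = x)
    (hb : b ∉ (sq c hc).lattice) (hbx : ℘[sq c hc] b = x / 2) (hγ : IsAlgebraic ℚ γ) :
    a + b / ρ ≠ γ * c := by
  intro h
  have h2 : IsAlgebraic ℚ (sq c hc).g₂ := by
    rw [hg2]
    exact alg_ofNat 4
  have h3 : IsAlgebraic ℚ (sq c hc).g₃ := by
    rw [g₃_eq_zero CM_sq]
    exact isAlgebraic_zero
  have hρ := ρ_ne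
  have haE : a ∈ EL (sq c hc) := Or.inr (by rw [hax]; exact hxa)
  have hbE : b ∈ EL (sq c hc) := Or.inr (by
    rw [hbx, div_eq_mul_inv]
    exact hxa.mul (alg_ofNat 2).inv)
  -- `a` is an algebraic multiple of `c`
  have step : ∃ δ : ℂ, IsAlgebraic ℚ δ ∧ a = δ * c := by
    by_contra hcon
    push Not at hcon
    have hind2 : ∀ α : Fin 2 → ℂ, (∀ r, α r ∈ kL (sq c hc)) → ∑ r, α r * ![a, c] r = 0 → α = 0 := by
      intro α hα h0
      simp only [Fin.sum_univ_two, Matrix.cons_val_zero, Matrix.cons_val_one] at h0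
      by_cases hα0 : α 0 = 0
      · have hα1 : α 1 = 0 := by
          rw [hα0, zero_mul, zero_add] at h0
          exact (mul_eq_zero.1 h0).resolve_right hc
        funext r
        fin_cases r
        · exact hα0
        · exact hα1
      · exfalso
        refine hcon (-(α 1) / α 0) ?_ ?_
        · rw [div_eq_mul_inv]
          exact (alg_kL (hα 1)).neg.mul (alg_kL (hα 0)).inv
        · field_simp
          linear_combination h0
    by_cases hind3 : ∀ α : Fin 3 → ℂ, (∀ r, α r ∈ kL (sq c hc)) → ∑ r, α r * ![a, b, c] r = 0 → α = 0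
    · have key := elliptic_baker h2 h3 (m := 3) ![a, b, c] ?_ hind3 ![1, 1 / ρ, -γ] ?_ ?_
      · have := congrFun key 0
        simp at this
      · intro r
        fin_cases r
        · exact haE
        · exact hbE
        · exact Or.inl c_mem
      · intro r
        fin_cases r
        · exact isAlgebraic_one
        · show IsAlgebraic ℚ (1 / ρ)
          rw [one_div]
          exact alg_ρ.inv
        · exact hγ.neg
      · simp only [Fin.sum_univ_three]
        show 1 * a + 1 / ρ * b + -γ * c = 0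
        linear_combination h
    · push Not at hind3
      obtain ⟨α, hα, h0, hα0⟩ := hind3
      simp only [Fin.sum_univ_three] at h0
      have h0' : α 0 * a + α 1 * b + α 2 * c = 0 := h0
      have hα1 : α 1 ≠ 0 := by
        intro h1
        apply hα0
        rw [h1, zero_mul, add_zero] at h0'
        have h4 := hind2 ![α 0, α 2] (by
          intro r
          fin_cases r
          · exact hα 0
          · exact hα 2) (by
          simp only [Fin.sum_univ_two]
          exact h0')
        have h5 := congrFun h4 0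
        have h6 := congrFun h4 1
        funext r
        fin_cases r
        · exact h5
        · exact h1
        · exact h6
      have key := elliptic_baker h2 h3 (m := 2) ![a, c] ?_ hind2
        ![α 1 * ρ - α 0, -(α 2) - α 1 * ρ * γ] ?_ ?_
      · have h4 := congrFun key 0
        have h5 : α 1 * ρ - α 0 = 0 := h4
        obtain ⟨m, x0, y0, hm, e1⟩ := kL_sq (hα 0)
        obtain ⟨m', x1, y1, hm', e2⟩ := kL_sq (hα 1)
        have hm0 : (m : ℂ) ≠ 0 := by exact_mod_cast hm.ne'
        have hm0' : (m' : ℂ) ≠ 0 := by exact_mod_cast hm'.ne'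
        have e3 : ((m' * x0 : ℤ) : ℂ) + ((m' * y0 : ℤ) : ℂ) * I =
            ρ * (((m * x1 : ℤ) : ℂ) + ((m * y1 : ℤ) : ℂ) * I) := by
          push_cast
          linear_combination (-(m' : ℂ)) * e1 + (ρ * m) * e2 - (m * m' : ℂ) * h5
        have e4 := (sqrt_two_notMem e3).2
        push_cast at e4
        have e5 : (m : ℂ) * (m' * α 1) = 0 := by
          rw [e2]
          linear_combination e4
        rcases mul_eq_zero.1 e5 with h6 | h6
        · exact hm0 h6
        · rcases mul_eq_zero.1 h6 with h7 | h7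
          · exact hm0' h7
          · exact hα1 h7
      · intro r
        fin_cases r
        · exact haE
        · exact Or.inl c_mem
      · intro r
        fin_cases r
        · exact ((alg_kL (hα 1)).mul alg_ρ).sub (alg_kL (hα 0))
        · exact (alg_kL (hα 2)).neg.sub (((alg_kL (hα 1)).mul alg_ρ).mul hγ)
      · simp only [Fin.sum_univ_two]
        show (α 1 * ρ - α 0) * a + (-(α 2) - α 1 * ρ * γ) * c = 0
        have h6 : ρ * a + b = ρ * γ * c := by
          have : ρ * (a + b / ρ) = ρ * (γ * c) := by rw [h]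
          field_simp at this
          linear_combination this
        linear_combination (α 1) * h6 - h0'
  obtain ⟨δ, hδ, haδ⟩ := step
  obtain ⟨N, hN, hNa⟩ := torsion_of_alg hg2 haE hδ haδ
  have hbδ : b = (ρ * (γ - δ)) * c := by
    have : ρ * (a + b / ρ) = ρ * (γ * c) := by rw [h]
    rw [haδ] at this
    field_simp at this
    linear_combination this
  obtain ⟨M, hM, hMb⟩ := torsion_of_alg hg2 hbE (alg_ρ.mul (hγ.sub hδ)) hbδ
  exact no_torsion hg2 hx ha hax hb hbx hN hNa hM hMb

end

end Pool.Agent.R946.AP
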